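import Mathlib

set_option autoImplicit false

/-! Growth of a holomorphic function in a half-plane: tools. -/

namespace Q241.SN

open Set Filter Topology Complex

lemma hasDerivAt_hor {g : ℂ → ℂ} {d : ℂ} {x u : ℝ} (h : HasDerivAt g d (x + u * I)) :
    HasDerivAt (fun y : ℝ => g (y + u * I)) d x := by
  have h1 : HasDerivAt (fun w : ℂ => g (w + u * I)) d (x : ℂ) := h.comp_add_const (x : ℂ) (u * I)
  exact h1.comp_ofReal

lemma hasDerivAt_ver {g : ℂ → ℂ} {d : ℂ} {x u : ℝ} (h : HasDerivAt g d (x + u * I)) :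
    HasDerivAt (fun v : ℝ => g (x + v * I)) (d * I) u := by
  have h0 : HasDerivAt (fun w : ℂ => (x : ℂ) + w * I) I (u : ℂ) := by
    simpa using ((hasDerivAt_id (u : ℂ)).mul_const I).const_add (x : ℂ)
  have h1 : HasDerivAt (fun w : ℂ => g (x + w * I)) (d * I) (u : ℂ) := h.comp (u : ℂ) h0
  exact h1.comp_ofReal

lemma hasDerivAt_re {f : ℝ → ℂ} {d : ℂ} {x : ℝ} (h : HasDerivAt f d x) :
    HasDerivAt (fun y => (f y).re) d.re x :=
  Complex.reCLM.hasFDerivAt.comp_hasDerivAt x h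

lemma hasDerivAt_im {f : ℝ → ℂ} {d : ℂ} {x : ℝ} (h : HasDerivAt f d x) :
    HasDerivAt (fun y => (f y).im) d.im x :=
  Complex.imCLM.hasFDerivAt.comp_hasDerivAt x h

/-- hypotheses on the logarithm -/
structure GH (g : ℂ → ℂ) (C0 : ℝ) : Prop where
  diff : ∀ z : ℂ, 0 < z.re → DifferentiableAt ℂ g z
  hC0 : 0 ≤ C0
  low : ∀ z : ℂ, 0 < z.re → z.re ≤ 1 → -(Real.log (|z.im| + 3) / 2 + C0) ≤ (deriv g z).re
  bdd : ∀ η : ℝ, 0 < η → ∃ C : ℝ, 1 ≤ C ∧ ∀ z : ℂ, 1 / 2 + η ≤ z.re → ‖g z‖ ≤ C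

variable {g : ℂ → ℂ} {C0 : ℝ}

lemma re_xu (x u : ℝ) : ((x : ℂ) + u * I).re = x := by simp
lemma im_xu (x u : ℝ) : ((x : ℂ) + u * I).im = u := by simp

lemma GH.re_le (h : GH g C0) {x a : ℝ} (hx : 0 < x) (hxa : x ≤ a) (ha : a ≤ 1) (u : ℝ) :
    (g (x + u * I)).re ≤ (g (a + u * I)).re + (a - x) * (Real.log (|u| + 3) / 2 + C0) := by
  obtain ⟨β, hβ⟩ : ∃ β, β = Real.log (|u| + 3) / 2 + C0 := ⟨_, rfl⟩
  have hd : ∀ y ∈ Icc x a, HasDerivAt (fun y : ℝ => (g (y + u * I)).re + y * β) ((deriv g (y + u * I)).re + β) y := by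
    intro y hy
    have h1 := (h.diff (y + u * I) (by rw [re_xu]; linarith [hy.1])).hasDerivAt
    have h2 := hasDerivAt_re (hasDerivAt_hor h1)
    have h3 : HasDerivAt (fun y : ℝ => y * β) β y := by simpa using (hasDerivAt_id y).mul_const β
    exact h2.add h3
  have hm : MonotoneOn (fun y : ℝ => (g (y + u * I)).re + y * β) (Icc x a) := by
    refine monotoneOn_of_deriv_nonneg (convex_Icc x a) (fun y hy => (hd y hy).continuousAt.continuousWithinAt)
      (fun y hy => (hd y (interior_subset hy)).differentiableAt.differentiableWithinAt) (fun y hy => ?_)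
    have hy' := interior_subset hy
    rw [(hd y hy').deriv]
    have h4 := h.low (y + u * I) (by rw [re_xu]; linarith [hy'.1]) (by rw [re_xu]; linarith [hy'.2])
    rw [im_xu] at h4
    rw [hβ]
    linarith
  have h5 := hm (left_mem_Icc.mpr hxa) (right_mem_Icc.mpr hxa) hxa
  simp only at h5
  rw [← hβ]
  linarith

lemma cosh_ge_abs (v : ℝ) : |v| ≤ Real.cosh v := by
  have h1 := Real.self_le_sinh_iff.mpr (abs_nonneg v)
  have h2 := Real.sinh_lt_cosh (|v|)
  rw [← Real.cosh_abs v]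
  linarith

lemma log_le_cosh {t : ℝ} (ht : 0 ≤ t) {c : ℝ} (hc : 0 ≤ c) (u : ℝ) :
    Real.log (|u| + 3) / 2 + c ≤ (Real.log (t + 3) / 2 + c + 1) * Real.cosh (u - t) := by
  have h1 : |u| + 3 ≤ (t + 3) * (1 + |u - t|) := by
    have h2 : |u| ≤ t + |u - t| := by
      have : u = t + (u - t) := by ring
      calc |u| = |t + (u - t)| := by rw [← this]
        _ ≤ |t| + |u - t| := abs_add_le _ _
        _ = t + |u - t| := by rw [abs_of_nonneg ht]
    have := abs_nonneg (u - t)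
    nlinarith
  have h3 : Real.log (|u| + 3) ≤ Real.log (t + 3) + |u - t| := by
    have h4 := Real.log_le_log (by positivity) h1
    rw [Real.log_mul (by positivity) (by positivity)] at h4
    have h5 := Real.log_le_sub_one_of_pos (x := 1 + |u - t|) (by positivity)
    linarith
  have h6 := cosh_ge_abs (u - t)
  have h7 := Real.one_le_cosh (u - t)
  have h8 : 0 ≤ Real.log (t + 3) := Real.log_nonneg (by linarith)
  nlinarith [mul_nonneg h8 (by linarith : 0 ≤ Real.cosh (u - t) - 1), mul_nonneg hc (by linarith : 0 ≤ Real.cosh (u - t) - 1)]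

lemma cosh_shift (v δ : ℝ) (hδ : |δ| ≤ 1 / 2) : Real.cosh (v + δ) ≤ 2 * Real.cosh v := by
  rw [Real.cosh_eq, Real.cosh_eq]
  have h1 : Real.exp (v + δ) ≤ 2 * Real.exp v := by
    rw [Real.exp_add]
    have h2 : Real.exp δ ≤ 2 := by
      have h3 : Real.exp δ ≤ Real.exp (1 / 2) := Real.exp_le_exp.mpr (abs_le.mp hδ).2
      have h4 : Real.exp (1 / 2) ≤ 2 := by
        have h5 : Real.exp (1 / 2) ^ 2 = Real.exp 1 := by
          rw [← Real.exp_nat_mul]; norm_num
        have h6 := Real.exp_one_lt_d9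
        nlinarith [Real.exp_pos (1 / 2)]
      linarith
    nlinarith [Real.exp_pos v]
  have h1' : Real.exp (-(v + δ)) ≤ 2 * Real.exp (-v) := by
    rw [neg_add, Real.exp_add]
    have h2 : Real.exp (-δ) ≤ 2 := by
      have h3 : Real.exp (-δ) ≤ Real.exp (1 / 2) := Real.exp_le_exp.mpr (by linarith [(abs_le.mp hδ).1])
      have h4 : Real.exp (1 / 2) ≤ 2 := by
        have h5 : Real.exp (1 / 2) ^ 2 = Real.exp 1 := by
          rw [← Real.exp_nat_mul]; norm_num
        have h6 := Real.exp_one_lt_d9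
        nlinarith [Real.exp_pos (1 / 2)]
      linarith
    nlinarith [Real.exp_pos (-v)]
  linarith

lemma cos_norm_sq (x v : ℝ) : ‖Complex.cos (x + v * I)‖ ^ 2 =
    (Real.cos x * Real.cosh v) ^ 2 + (Real.sin x * Real.sinh v) ^ 2 := by
  rw [Complex.cos_add_mul_I, ← Complex.normSq_eq_norm_sq, Complex.normSq_apply]
  have h1 : (Complex.cos x * Complex.cosh v - Complex.sin x * Complex.sinh v * I).re = Real.cos x * Real.cosh v := by
    rw [← Complex.ofReal_cos, ← Complex.ofReal_cosh, ← Complex.ofReal_sin, ← Complex.ofReal_sinh]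
    simp only [sub_re, mul_re, mul_im, I_re, I_im, ofReal_re, ofReal_im]
    ring
  have h2 : (Complex.cos x * Complex.cosh v - Complex.sin x * Complex.sinh v * I).im = -(Real.sin x * Real.sinh v) := by
    rw [← Complex.ofReal_cos, ← Complex.ofReal_cosh, ← Complex.ofReal_sin, ← Complex.ofReal_sinh]
    simp only [sub_im, mul_re, mul_im, I_re, I_im, ofReal_re, ofReal_im]
    ring
  rw [h1, h2]
  ring

lemma cos_one_ge : 1 / 2 ≤ Real.cos 1 := by
  rw [← Real.cos_pi_div_three]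
  refine Real.cos_le_cos_of_nonneg_of_le_pi (by norm_num) ?_ ?_
  · have := Real.pi_pos; linarith
  · have := Real.pi_gt_three; linarith

lemma cos_lower {x : ℝ} (h0 : 0 ≤ x) (h1 : x ≤ 1) (v : ℝ) :
    1 / 2 * Real.cosh v ≤ ‖Complex.cos (x + v * I)‖ := by
  have hc : 1 / 2 ≤ Real.cos x := cos_one_ge.trans
    (Real.cos_le_cos_of_nonneg_of_le_pi h0 (by linarith [Real.pi_gt_three]) h1)
  have h2 := cos_norm_sq x v
  have h3 := Real.cosh_pos v
  have h4 : (1 / 2 * Real.cosh v) ^ 2 ≤ ‖Complex.cos (x + v * I)‖ ^ 2 := by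
    rw [h2]
    have : (1 / 2 * Real.cosh v) ^ 2 ≤ (Real.cos x * Real.cosh v) ^ 2 := by
      apply pow_le_pow_left₀ (by positivity)
      exact mul_le_mul_of_nonneg_right hc h3.le
    nlinarith [sq_nonneg (Real.sin x * Real.sinh v)]
  exact (abs_le_of_sq_le_sq' h4 (norm_nonneg _)).2

lemma cos_upper (x v : ℝ) : ‖Complex.cos (x + v * I)‖ ≤ Real.cosh v := by
  have h2 := cos_norm_sq x v
  have h3 := Real.cosh_pos v
  have h4 : ‖Complex.cos (x + v * I)‖ ^ 2 ≤ Real.cosh v ^ 2 := by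
    rw [h2]
    have h5 := Real.cosh_sq v
    have h6 := Real.sin_sq_add_cos_sq x
    nlinarith [sq_nonneg (Real.sin x * Real.sinh v), sq_nonneg (Real.sin x)]
  exact (abs_le_of_sq_le_sq' h4 h3.le).2

lemma cos_ne {x : ℝ} (h0 : 0 ≤ x) (h1 : x ≤ 1) (v : ℝ) : Complex.cos (x + v * I) ≠ 0 := by
  have h2 := cos_lower h0 h1 v
  have h3 := Real.cosh_pos v
  intro h
  rw [h, norm_zero] at h2
  linarith

open HadamardThreeLines in
/-- three lines theorem with a weight -/
lemma three_lines (hg : ∀ z : ℂ, 0 < z.re → DifferentiableAt ℂ g z) {a b A B K t : ℝ} (ha : 0 < a)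
    (hab : a < b) (hb : b ≤ 1) (hK : ∀ x u : ℝ, a ≤ x → x ≤ b → ‖g (x + u * I)‖ ≤ K * Real.cosh (u - t))
    (hA : ∀ u : ℝ, ‖g (a + u * I)‖ ≤ A * Real.cosh (u - t))
    (hB : ∀ u : ℝ, ‖g (b + u * I)‖ ≤ B * Real.cosh (u - t)) {x : ℝ} (hax : a ≤ x) (hxb : x ≤ b) (u : ℝ) :
    ‖g (x + u * I)‖ ≤ (2 * A) ^ (1 - (x - a) / (b - a)) * (2 * B) ^ ((x - a) / (b - a)) * Real.cosh (u - t) := by
  obtain ⟨f, hf⟩ : ∃ f : ℂ → ℂ, f = fun z => g z / Complex.cos (z - t * I) := ⟨_, rfl⟩
  have hz : ∀ z : ℂ, z - t * I = (z.re : ℂ) + ((z.im - t : ℝ) : ℂ) * I := by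
    intro z
    apply Complex.ext <;> simp
  have hgz : ∀ z : ℂ, z = (z.re : ℂ) + (z.im : ℂ) * I := fun z => (Complex.re_add_im z).symm
  have hfn : ∀ z : ℂ, a ≤ z.re → z.re ≤ b → ∀ X : ℝ, ‖g z‖ ≤ X * Real.cosh (z.im - t) → ‖f z‖ ≤ 2 * X := by
    intro z h1 h2 X hX
    have h3 := cos_lower (x := z.re) (by linarith) (by linarith) (z.im - t)
    have h4 := Real.cosh_pos (z.im - t)
    rw [hf]
    simp only
    rw [norm_div, hz z, div_le_iff₀ (by linarith)]
    have hX0 : 0 ≤ X := by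
      have := (norm_nonneg (g z)).trans hX
      by_contra hc
      push Not at hc
      nlinarith
    nlinarith
  have hcl : closure (verticalStrip a b) ⊆ {z : ℂ | a ≤ z.re ∧ z.re ≤ b} := by
    refine closure_minimal (fun z hz => ⟨hz.1.le, hz.2.le⟩) ?_
    exact (isClosed_le continuous_const Complex.continuous_re).inter (isClosed_le Complex.continuous_re continuous_const)
  have hd : DiffContOnCl ℂ f (verticalStrip a b) := by
    refine DifferentiableOn.diffContOnCl fun z hz' => ?_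
    have hz2 := hcl hz'
    have h1 : DifferentiableAt ℂ g z := hg z (by linarith [hz2.1])
    have h2 : DifferentiableAt ℂ (fun z : ℂ => Complex.cos (z - t * I)) z :=
      (Complex.differentiable_cos _).comp z (differentiableAt_id.sub_const _)
    rw [hf]
    refine (h1.div h2 ?_).differentiableWithinAt
    rw [hz z]
    exact cos_ne (by linarith [hz2.1]) (by linarith [hz2.2]) _
  have hBd : BddAbove ((norm ∘ f) '' verticalClosedStrip a b) := by
    refine ⟨2 * K, ?_⟩
    rintro _ ⟨z, hz', rfl⟩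
    refine hfn z hz'.1 hz'.2 K ?_
    have := hK z.re z.im hz'.1 hz'.2
    rwa [← hgz z] at this
  have h1 := norm_le_interp_of_mem_verticalClosedStrip' (f := f) (z := x + u * I) (a := 2 * A) (b := 2 * B) hab
    ⟨by rw [re_xu]; exact hax, by rw [re_xu]; exact hxb⟩ hd hBd ?_ ?_
  · rw [re_xu] at h1
    have h2 : g (x + u * I) = f (x + u * I) * Complex.cos (x + ((u - t : ℝ) : ℂ) * I) := by
      rw [hf]
      simp only
      rw [hz, re_xu, im_xu, div_mul_cancel₀]
      exact cos_ne (by linarith) (by linarith) _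
    rw [h2, norm_mul]
    have h3 := cos_upper x (u - t)
    exact mul_le_mul h1 h3 (norm_nonneg _) ((norm_nonneg _).trans h1)
  · intro z hz'
    have hz2 : z.re = a := hz'
    refine hfn z (by linarith) (by linarith) A ?_
    have := hA z.im
    rw [← hz2, ← hgz z] at this
    exact this
  · intro z hz'
    have hz2 : z.re = b := hz'
    refine hfn z (by linarith) (by linarith) B ?_
    have := hB z.im
    rw [← hz2, ← hgz z] at this
    exact this

/-- Borel–Carathéodory near the boundary -/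
lemma bc_bound (hg : ∀ z : ℂ, 0 < z.re → DifferentiableAt ℂ g z) {a u M : ℝ} (ha : 0 < a) (hM : 0 < M)
    (hre : ∀ x v : ℝ, 0 < x → x < 2 * a → |v - u| < a → (g (x + v * I)).re ≤ M) {x : ℝ} (hx : 0 < x)
    (hxa : x ≤ a) : ‖g (x + u * I)‖ ≤ 2 * a / x * (M + ‖g (a + u * I)‖) := by
  obtain ⟨f, hf⟩ : ∃ f : ℂ → ℂ, f = fun w => g ((a + u * I : ℂ) + w) := ⟨_, rfl⟩
  have hre1 : ∀ w : ℂ, ‖w‖ < a → 0 < ((a + u * I : ℂ) + w).re ∧ ((a + u * I : ℂ) + w).re < 2 * a := by
    intro w hw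
    have h1 := (Complex.abs_re_le_norm w).trans_lt hw
    rw [abs_lt] at h1
    rw [add_re, re_xu]
    exact ⟨by linarith [h1.1], by linarith [h1.2]⟩
  have h1 := borelCaratheodory (f := f) (M := M) (R := a) (z := ((x - a : ℝ) : ℂ)) hM ?_ ?_ ha ?_
  · have h2 : ‖((x - a : ℝ) : ℂ)‖ = a - x := by
      rw [Complex.norm_real, Real.norm_eq_abs, abs_of_nonpos (by linarith)]; ring
    rw [h2, hf] at h1
    simp only [add_zero] at h1
    have h3 : (a + u * I : ℂ) + ((x - a : ℝ) : ℂ) = x + u * I := by push_cast; ring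
    rw [h3] at h1
    refine h1.trans ?_
    have h4 : a - (a - x) = x := by ring
    rw [h4, ← add_div, div_mul_eq_mul_div]
    refine div_le_div_of_nonneg_right ?_ hx.le
    nlinarith [norm_nonneg (g (a + u * I)), mul_nonneg (norm_nonneg (g (a + u * I))) hx.le, mul_pos hM hx]
  · intro w hw
    rw [hf]
    have h2 := hg ((a + u * I : ℂ) + w) (hre1 w (by simpa using hw)).1
    have h3 : DifferentiableAt ℂ (fun w : ℂ => (a + u * I : ℂ) + w) w := differentiableAt_id.const_add _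
    exact (h2.comp w h3).differentiableWithinAt
  · intro w hw
    have hw' : ‖w‖ < a := by simpa using hw
    have h2 := hre1 w hw'
    rw [hf]
    show (g ((a + u * I : ℂ) + w)).re ≤ M
    have h3 := hre ((a + u * I : ℂ) + w).re ((a + u * I : ℂ) + w).im h2.1 h2.2 ?_
    · rwa [Complex.re_add_im] at h3
    · have h4 := (Complex.abs_im_le_norm w).trans_lt hw'
      rw [add_im, im_xu]
      rwa [show u + w.im - u = w.im by ring]
  · rw [Metric.mem_ball, dist_zero_right, Complex.norm_real, Real.norm_eq_abs, abs_of_nonpos (by linarith)]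
    linarith

end Q241.SN
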