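import Mathlib
import Pool.Agent.Q241.SN.Grow1

set_option autoImplicit false

/-! Growth of a holomorphic function in a half-plane: the bootstrap. -/

namespace Q241.SN

open Set Filter Topology Complex

variable {g : ℂ → ℂ} {C0 : ℝ}

lemma GH.crude (h : GH g C0) {x0 : ℝ} (hx0 : 0 < x0) : ∃ c : ℝ, 0 ≤ c ∧ ∀ x u : ℝ, x0 ≤ x → x ≤ 1 →
    ‖g (x + u * I)‖ ≤ 2 / x0 * (Real.log (|u| + 3) / 2 + c) := by
  obtain ⟨C1, hC1, hb⟩ := h.bdd (1 / 2) (by norm_num)
  have hb' : ∀ x u : ℝ, 1 ≤ x → ‖g (x + u * I)‖ ≤ C1 := fun x u hx => hb _ (by rw [re_xu]; linarith)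
  refine ⟨C0 + 2 * C1 + 1, by linarith [h.hC0], fun x u hx hx1 => ?_⟩
  have hxp : 0 < x := by linarith
  have hl3 : 0 ≤ Real.log (|u| + 3) := Real.log_nonneg (by linarith [abs_nonneg u])
  have h1 := bc_bound h.diff (a := 1) (u := u) (M := Real.log (|u| + 3) / 2 + C0 + C1 + 1) one_pos
    (by linarith [h.hC0]) ?_ hxp hx1
  · refine h1.trans ?_
    have h2 := hb' 1 u le_rfl
    have h3 : 2 * 1 / x ≤ 2 / x0 := by
      rw [mul_one]
      exact div_le_div_of_nonneg_left (by norm_num) hx0 hx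
    refine mul_le_mul h3 (by linarith) ?_ (by positivity)
    have := norm_nonneg (g (((1:ℝ) : ℂ) + u * I))
    linarith [h.hC0]
  · intro y v hy0 hy2 hv
    have hlv : Real.log (|v| + 3) ≤ Real.log (|u| + 3) + 1 := by
      have h4 : |v| ≤ |u| + 1 := by
        have : v = u + (v - u) := by ring
        calc |v| = |u + (v - u)| := by rw [← this]
          _ ≤ |u| + |v - u| := abs_add_le _ _
          _ ≤ |u| + 1 := by linarith
      have h5 : |v| + 3 ≤ (|u| + 3) * 2 := by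
        have := abs_nonneg u
        linarith
      have h6 := Real.log_le_log (by positivity) h5
      rw [Real.log_mul (by positivity) (by norm_num)] at h6
      have := Real.log_two_lt_d9
      linarith
    have hlv0 : 0 ≤ Real.log (|v| + 3) := Real.log_nonneg (by linarith [abs_nonneg v])
    rcases le_or_gt y 1 with hy1 | hy1
    · have h4 := h.re_le hy0 hy1 le_rfl v
      have h5 := (Complex.re_le_norm (g (((1:ℝ) : ℂ) + v * I))).trans (hb' 1 v le_rfl)
      have h6 : (1 - y) * (Real.log (|v| + 3) / 2 + C0) ≤ 1 * (Real.log (|v| + 3) / 2 + C0) :=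
        mul_le_mul_of_nonneg_right (by linarith) (by linarith [h.hC0])
      linarith
    · have h5 := (Complex.re_le_norm (g (y + v * I))).trans (hb' y v hy1.le)
      linarith [h.hC0]

lemma GH.crude' (h : GH g C0) {x0 : ℝ} (hx0 : 0 < x0) {t : ℝ} (ht : 0 ≤ t) : ∃ K : ℝ, ∀ x u : ℝ, x0 ≤ x → x ≤ 1 →
    ‖g (x + u * I)‖ ≤ K * Real.cosh (u - t) := by
  obtain ⟨c, hc, h1⟩ := h.crude hx0
  refine ⟨2 / x0 * (Real.log (t + 3) / 2 + c + 1), fun x u hx hx1 => (h1 x u hx hx1).trans ?_⟩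
  rw [mul_assoc]
  exact mul_le_mul_of_nonneg_left (log_le_cosh ht hc u) (by positivity)

/-- bounds away from the line -/
lemma GH.far (h : GH g C0) {C1 : ℝ} (hC1 : 1 ≤ C1) (hb : ∀ z : ℂ, 1 ≤ z.re → ‖g z‖ ≤ C1) {t a0 a1 A : ℝ}
    (ht : 0 ≤ t) (ha0 : 0 < a0) (ha01 : a0 < a1) (ha1 : a1 ≤ 1) (hA1 : 1 ≤ A)
    (hA : ∀ u : ℝ, ‖g (a0 + u * I)‖ ≤ A * Real.cosh (u - t)) {x : ℝ} (hx : a1 ≤ x) (hx1 : x ≤ 1) (u : ℝ) :
    ‖g (x + u * I)‖ ≤ (2 * C1 * (2 * A) ^ (1 - (a1 - a0) / (1 - a0))) * Real.cosh (u - t) := by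
  obtain ⟨K, hK⟩ := h.crude' ha0 ht
  have h1 := three_lines h.diff (a := a0) (b := 1) (A := A) (B := C1) (K := K) (t := t) ha0 (by linarith) le_rfl
    hK hA (fun u => ?_) (x := x) (by linarith) hx1 u
  · refine h1.trans (mul_le_mul_of_nonneg_right ?_ (Real.cosh_pos _).le)
    have h2 : (a1 - a0) / (1 - a0) ≤ (x - a0) / (1 - a0) := div_le_div_of_nonneg_right (by linarith) (by linarith)
    have h3 : (x - a0) / (1 - a0) ≤ 1 := by
      rw [div_le_one (by linarith)]; linarith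
    have h0 : 0 ≤ (x - a0) / (1 - a0) := div_nonneg (by linarith) (by linarith)
    have h4 : (2 * A) ^ (1 - (x - a0) / (1 - a0)) ≤ (2 * A) ^ (1 - (a1 - a0) / (1 - a0)) :=
      Real.rpow_le_rpow_of_exponent_le (by linarith) (by linarith)
    have h5 : (2 * C1) ^ ((x - a0) / (1 - a0)) ≤ 2 * C1 := by
      calc (2 * C1) ^ ((x - a0) / (1 - a0)) ≤ (2 * C1) ^ (1 : ℝ) :=
          Real.rpow_le_rpow_of_exponent_le (by linarith) h3
        _ = 2 * C1 := Real.rpow_one _
    calc (2 * A) ^ (1 - (x - a0) / (1 - a0)) * (2 * C1) ^ ((x - a0) / (1 - a0)) ≤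
        (2 * A) ^ (1 - (a1 - a0) / (1 - a0)) * (2 * C1) :=
          mul_le_mul h4 h5 (by positivity) (by positivity)
      _ = _ := by ring
  · have h2 := hb ((1:ℝ) + u * I) (by rw [re_xu])
    refine h2.trans ?_
    have := Real.one_le_cosh (u - t)
    nlinarith

/-- bounds near the line -/
lemma GH.near (h : GH g C0) {t a1 K1 : ℝ} (ht : 0 ≤ t) (ha1 : 0 < a1) (ha1' : 2 * a1 ≤ 1) (hK1 : 0 ≤ K1)
    (hfar : ∀ x u : ℝ, a1 ≤ x → x ≤ 1 → ‖g (x + u * I)‖ ≤ K1 * Real.cosh (u - t)) {x : ℝ} (hx : 0 < x)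
    (hx1 : x ≤ a1) (u : ℝ) :
    ‖g (x + u * I)‖ ≤ 2 * a1 / x * (3 * K1 + 2 * (a1 * (Real.log (t + 3) / 2 + C0 + 1))) * Real.cosh (u - t) := by
  obtain ⟨N, hN⟩ : ∃ N, N = Real.log (t + 3) / 2 + C0 + 1 := ⟨_, rfl⟩
  have hN0 : 0 < N := by
    have : 0 ≤ Real.log (t + 3) := Real.log_nonneg (by linarith)
    have := h.hC0
    linarith
  rw [← hN]
  have hV : ∀ y v : ℝ, 0 < y → y < 2 * a1 → (g (y + v * I)).re ≤ (K1 + a1 * N) * Real.cosh (v - t) := by
    intro y v hy hy2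
    have hcp := Real.cosh_pos (v - t)
    rcases le_or_gt y a1 with hya | hya
    · have h1 := h.re_le hy hya (by linarith) v
      have h2 := (Complex.re_le_norm (g (a1 + v * I))).trans (hfar a1 v le_rfl (by linarith))
      have h3 := log_le_cosh ht h.hC0 v
      rw [← hN] at h3
      have h4 : 0 ≤ Real.log (|v| + 3) / 2 + C0 := by
        have : 0 ≤ Real.log (|v| + 3) := Real.log_nonneg (by linarith [abs_nonneg v])
        linarith [h.hC0]
      have h5 : (a1 - y) * (Real.log (|v| + 3) / 2 + C0) ≤ a1 * (N * Real.cosh (v - t)) :=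
        mul_le_mul (by linarith) h3 h4 ha1.le
      nlinarith
    · have h2 := (Complex.re_le_norm (g (y + v * I))).trans (hfar y v hya.le (by linarith))
      have h6 : 0 ≤ a1 * N * Real.cosh (v - t) := by positivity
      nlinarith
  have hM0 : 0 < 2 * (K1 + a1 * N) * Real.cosh (u - t) := by
    have := Real.cosh_pos (u - t)
    positivity
  have h1 := bc_bound h.diff (a := a1) (u := u) (M := 2 * (K1 + a1 * N) * Real.cosh (u - t)) ha1 hM0 ?_ hx hx1
  · refine h1.trans ?_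
    have h2 := hfar a1 u le_rfl (by linarith)
    have h3 : 0 ≤ 2 * a1 / x := by positivity
    have h4 : 2 * (K1 + a1 * N) * Real.cosh (u - t) + ‖g (a1 + u * I)‖ ≤ (3 * K1 + 2 * (a1 * N)) * Real.cosh (u - t) := by
      linarith
    calc _ ≤ 2 * a1 / x * ((3 * K1 + 2 * (a1 * N)) * Real.cosh (u - t)) := mul_le_mul_of_nonneg_left h4 h3
      _ = _ := by ring
  · intro y v hy hy2 hv
    refine (hV y v hy hy2).trans ?_
    have h2 := cosh_shift (u - t) (v - u) (by linarith)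
    rw [show u - t + (v - u) = v - t by ring] at h2
    have h3 : 0 ≤ K1 + a1 * N := by positivity
    nlinarith

end Q241.SN
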