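import Mathlib
import Pool.Agent.Q241.SN.Grow2

set_option autoImplicit false

/-! Growth of a holomorphic function in a half-plane: conclusion. -/

namespace Q241.SN

open Set Filter Topology Complex

variable {g : ℂ → ℂ} {C0 : ℝ}

/-- bootstrap: the value on the line at distance `1 / ℓ` -/
lemma GH.boot (h : GH g C0) {C1 : ℝ} (hC1 : 1 ≤ C1) (hb : ∀ z : ℂ, 1 ≤ z.re → ‖g z‖ ≤ C1) {κ : ℝ}
    (hκ : κ = 1 + 800 * C1) {t ℓ : ℝ} (ht : 0 ≤ t) (hℓ : ℓ = Real.log (Real.log t)) (hlt : 0 < Real.log t)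
    (hℓκ : 2 * κ ≤ ℓ) (hN : Real.log (t + 3) / 2 + C0 + 1 ≤ Real.log t) :
    ∃ A : ℝ, 1 ≤ A ∧ A ≤ 8 * κ ^ 2 * (Real.log t / ℓ) ∧
      ∀ u : ℝ, ‖g (((1 / ℓ : ℝ) : ℂ) + u * I)‖ ≤ A * Real.cosh (u - t) := by
  have hκ1 : 801 ≤ κ := by rw [hκ]; linarith
  have hℓ0 : 0 < ℓ := by linarith
  obtain ⟨a0, ha0⟩ : ∃ a0, a0 = 1 / ℓ := ⟨_, rfl⟩
  obtain ⟨a1, ha1⟩ : ∃ a1, a1 = κ / ℓ := ⟨_, rfl⟩
  have ha0p : 0 < a0 := by rw [ha0]; positivity
  have ha1p : 0 < a1 := by rw [ha1]; positivity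
  have ha01 : a0 < a1 := by
    rw [ha0, ha1]
    exact div_lt_div_of_pos_right (by linarith) hℓ0
  have ha1' : 2 * a1 ≤ 1 := by
    rw [ha1, ← mul_div_assoc, div_le_one hℓ0]; exact hℓκ
  rw [← ha0]
  obtain ⟨K, hK⟩ := h.crude' ha0p ht
  obtain ⟨A0, hA0⟩ : ∃ A0, A0 = sSup (range fun u : ℝ => ‖g (a0 + u * I)‖ / Real.cosh (u - t)) := ⟨_, rfl⟩
  have hbdd : BddAbove (range fun u : ℝ => ‖g (a0 + u * I)‖ / Real.cosh (u - t)) := by
    refine ⟨K, ?_⟩
    rintro _ ⟨u, rfl⟩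
    have := Real.cosh_pos (u - t)
    simp only
    rw [div_le_iff₀ this]
    exact hK a0 u le_rfl (by linarith)
  have hAu : ∀ u : ℝ, ‖g (a0 + u * I)‖ ≤ A0 * Real.cosh (u - t) := by
    intro u
    have h1 : ‖g (a0 + u * I)‖ / Real.cosh (u - t) ≤ A0 := by
      rw [hA0]; exact le_csSup hbdd ⟨u, rfl⟩
    rwa [div_le_iff₀ (Real.cosh_pos _)] at h1
  have hAle : ∀ B : ℝ, (∀ u : ℝ, ‖g (a0 + u * I)‖ ≤ B * Real.cosh (u - t)) → A0 ≤ B := by
    intro B hB
    rw [hA0]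
    refine csSup_le (range_nonempty _) ?_
    rintro _ ⟨u, rfl⟩
    simp only
    rw [div_le_iff₀ (Real.cosh_pos _)]
    exact hB u
  obtain ⟨A, hA⟩ : ∃ A, A = max A0 1 := ⟨_, rfl⟩
  have hA1 : 1 ≤ A := by rw [hA]; exact le_max_right _ _
  have hAA : A0 ≤ A := by rw [hA]; exact le_max_left _ _
  have hAu' : ∀ u : ℝ, ‖g (a0 + u * I)‖ ≤ A * Real.cosh (u - t) := fun u =>
    (hAu u).trans (mul_le_mul_of_nonneg_right hAA (Real.cosh_pos _).le)
  refine ⟨A, hA1, ?_, hAu'⟩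
  obtain ⟨θ, hθ⟩ : ∃ θ, θ = (a1 - a0) / (1 - a0) := ⟨_, rfl⟩
  have hθ0 : (κ - 1) / ℓ ≤ θ := by
    have e : (κ - 1) / ℓ = a1 - a0 := by rw [ha1, ha0]; ring
    rw [e, hθ, le_div_iff₀ (by linarith)]
    nlinarith
  obtain ⟨K1, hK1⟩ : ∃ K1, K1 = 2 * C1 * (2 * A) ^ (1 - θ) := ⟨_, rfl⟩
  have hK10 : 0 ≤ K1 := by rw [hK1]; positivity
  have hfar : ∀ x u : ℝ, a1 ≤ x → x ≤ 1 → ‖g (x + u * I)‖ ≤ K1 * Real.cosh (u - t) := by
    intro x u hx hx1
    have := h.far hC1 hb ht ha0p ha01 (by linarith) hA1 hAu' hx hx1 u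
    rwa [← hθ, ← hK1] at this
  have hnear := fun u => h.near ht ha1p ha1' hK10 hfar ha0p ha01.le u
  have e1 : 2 * a1 / a0 = 2 * κ := by
    rw [ha1, ha0]; field_simp
  rw [e1] at hnear
  have h2 := hAle _ hnear
  -- final inequality
  have hexp : Real.log t = Real.exp ℓ := by rw [hℓ, Real.exp_log hlt]
  have hsq : Real.exp (ℓ / 2) ≤ Real.log t / ℓ := by
    rw [le_div_iff₀ hℓ0, hexp]
    have h3 : ℓ ≤ Real.exp (ℓ / 2) := by
      have := Real.quadratic_le_exp_of_nonneg (x := ℓ / 2) (by positivity)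
      nlinarith [sq_nonneg (ℓ - 2)]
    have h4 : Real.exp ℓ = Real.exp (ℓ / 2) * Real.exp (ℓ / 2) := by
      rw [← Real.exp_add]; congr 1; ring
    rw [h4]
    exact mul_le_mul_of_nonneg_left h3 (Real.exp_pos _).le
  have hLp : 0 < Real.log t / ℓ := by positivity
  rcases lt_or_ge (2 * A) (Real.exp (ℓ / 2)) with hc | hc
  · have h5 : A ≤ Real.log t / ℓ := by linarith
    have h6 : (1 : ℝ) ≤ 8 * κ ^ 2 := by nlinarith
    calc A ≤ 1 * (Real.log t / ℓ) := by linarith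
      _ ≤ 8 * κ ^ 2 * (Real.log t / ℓ) := mul_le_mul_of_nonneg_right h6 hLp.le
  · have h7 : (2 * A) ^ (1 - θ) ≤ 2 * A * Real.exp (-((κ - 1) / 2)) := by
      have h8 : (2 * A) ^ (1 - θ) = 2 * A * (2 * A) ^ (-θ) := by
        rw [sub_eq_add_neg, Real.rpow_add (by linarith), Real.rpow_one]
      rw [h8]
      refine mul_le_mul_of_nonneg_left ?_ (by linarith)
      rw [Real.rpow_def_of_pos (by linarith)]
      refine Real.exp_le_exp.mpr ?_
      have h9 : ℓ / 2 ≤ Real.log (2 * A) := by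
        rw [Real.le_log_iff_exp_le (by linarith)]; exact hc
      have h10 : (κ - 1) ≤ ℓ * θ := by
        rw [div_le_iff₀ hℓ0] at hθ0; linarith
      have h11 : 0 ≤ θ := le_trans (div_nonneg (by linarith) hℓ0.le) hθ0
      have h12 : ℓ / 2 * θ ≤ Real.log (2 * A) * θ := mul_le_mul_of_nonneg_right h9 h11
      linarith
    have hE : 24 * κ * C1 * Real.exp (-((κ - 1) / 2)) ≤ 1 / 2 := by
      have h12 : Real.exp (-((κ - 1) / 2)) ≤ 8 / (κ - 1) ^ 2 := by
        have hk2 : 0 < (κ - 1) ^ 2 := pow_pos (by linarith) 2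
        rw [Real.exp_neg, inv_eq_one_div, div_le_div_iff₀ (Real.exp_pos _) hk2]
        have h12' := Real.quadratic_le_exp_of_nonneg (x := (κ - 1) / 2) (by linarith)
        have e3 : ((κ - 1) / 2) ^ 2 / 2 = (κ - 1) ^ 2 / 8 := by ring
        rw [e3] at h12'
        linarith
      have h13 : 24 * κ * C1 * Real.exp (-((κ - 1) / 2)) ≤ 24 * κ * C1 * (8 / (κ - 1) ^ 2) :=
        mul_le_mul_of_nonneg_left h12 (by positivity)
      refine h13.trans ?_
      have h14 : (κ - 1) = 800 * C1 := by rw [hκ]; ring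
      have h14' : 0 < (800 * C1) ^ 2 := pow_pos (by linarith) 2
      rw [← mul_div_assoc, h14, div_le_iff₀ h14', hκ]
      nlinarith
    have hK1' : K1 ≤ 4 * C1 * A * Real.exp (-((κ - 1) / 2)) := by
      rw [hK1]
      calc 2 * C1 * (2 * A) ^ (1 - θ) ≤ 2 * C1 * (2 * A * Real.exp (-((κ - 1) / 2))) :=
          mul_le_mul_of_nonneg_left h7 (by linarith)
        _ = _ := by ring
    have hAgt : 1 < A := by
      have h15 : 4 < Real.exp (ℓ / 2) := by
        have := Real.add_one_le_exp (ℓ / 2)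
        linarith
      linarith
    have hA0eq : A = A0 := by
      rw [hA] at hAgt ⊢
      rcases le_total A0 1 with h16 | h16
      · rw [max_eq_right h16] at hAgt; linarith
      · exact max_eq_left h16
    have h17 : a1 * (Real.log (t + 3) / 2 + C0 + 1) ≤ κ * (Real.log t / ℓ) := by
      rw [ha1]
      calc κ / ℓ * (Real.log (t + 3) / 2 + C0 + 1) ≤ κ / ℓ * Real.log t :=
          mul_le_mul_of_nonneg_left hN (by positivity)
        _ = _ := by ring
    have h18 : 2 * κ * (3 * K1 + 2 * (a1 * (Real.log (t + 3) / 2 + C0 + 1))) ≤ A / 2 + 4 * κ ^ 2 * (Real.log t / ℓ) := by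
      have h19 : 2 * κ * (3 * K1) ≤ (24 * κ * C1 * Real.exp (-((κ - 1) / 2))) * A := by
        calc 2 * κ * (3 * K1) = 6 * κ * K1 := by ring
          _ ≤ 6 * κ * (4 * C1 * A * Real.exp (-((κ - 1) / 2))) := mul_le_mul_of_nonneg_left hK1' (by linarith)
          _ = _ := by ring
      have h20 : (24 * κ * C1 * Real.exp (-((κ - 1) / 2))) * A ≤ 1 / 2 * A :=
        mul_le_mul_of_nonneg_right hE (by linarith)
      have h21 : 2 * κ * (2 * (a1 * (Real.log (t + 3) / 2 + C0 + 1))) ≤ 4 * κ ^ 2 * (Real.log t / ℓ) := by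
        calc 2 * κ * (2 * (a1 * (Real.log (t + 3) / 2 + C0 + 1))) = 4 * κ * (a1 * (Real.log (t + 3) / 2 + C0 + 1)) := by ring
          _ ≤ 4 * κ * (κ * (Real.log t / ℓ)) := mul_le_mul_of_nonneg_left h17 (by linarith)
          _ = _ := by ring
      calc 2 * κ * (3 * K1 + 2 * (a1 * (Real.log (t + 3) / 2 + C0 + 1))) =
          2 * κ * (3 * K1) + 2 * κ * (2 * (a1 * (Real.log (t + 3) / 2 + C0 + 1))) := by ring
        _ ≤ _ := by linarith
    have h22 : A ≤ A / 2 + 4 * κ ^ 2 * (Real.log t / ℓ) := by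
      calc A = A0 := hA0eq
        _ ≤ _ := h2.trans h18
    linarith

lemma tend_log : Tendsto (fun t : ℝ => Real.log t) atTop atTop := Real.tendsto_log_atTop
lemma tend_loglog : Tendsto (fun t : ℝ => Real.log (Real.log t)) atTop atTop :=
  Real.tendsto_log_atTop.comp Real.tendsto_log_atTop

/-- **growth theorem** -/
theorem GH.growth (h : GH g C0) {η : ℝ} (hη : 0 < η) (hη2 : η ≤ 1 / 2) : ∃ C : ℝ, 0 < C ∧
    ∀ᶠ t : ℝ in atTop, ∀ x : ℝ, 0 < x → x ≤ 1 / 2 + η →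
      ‖g (x + t * I)‖ ≤ C * (Real.log t / Real.log (Real.log t)) * (1 + 1 / (x * Real.log (Real.log t))) *
        Real.exp (-(x * ((Real.log (Real.log t) - Real.log (Real.log (Real.log t))) / (1 / 2 + η)))) := by
  obtain ⟨C1, hC1, hb1⟩ := h.bdd (1 / 2) (by norm_num)
  have hb : ∀ z : ℂ, 1 ≤ z.re → ‖g z‖ ≤ C1 := fun z hz => hb1 z (by linarith)
  obtain ⟨Cη, hCη, hbη⟩ := h.bdd η hη
  obtain ⟨κ, hκ⟩ : ∃ κ, κ = 1 + 800 * C1 := ⟨_, rfl⟩
  have hκ1 : 801 ≤ κ := by rw [hκ]; linarith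
  refine ⟨Real.exp 2 * (8 * κ ^ 2) * (4 * Cη + 2 * κ * (12 * C1 + 1)), by positivity, ?_⟩
  have ev1 : ∀ᶠ t : ℝ in atTop, 2 * κ ≤ Real.log (Real.log t) := tend_loglog.eventually_ge_atTop _
  have ev2 : ∀ᶠ t : ℝ in atTop, 2 * C0 + 4 ≤ Real.log t := tend_log.eventually_ge_atTop _
  filter_upwards [ev1, ev2, eventually_ge_atTop 3] with t h1 h2 h3
  intro x hx hx1
  obtain ⟨ℓ, hℓ⟩ : ∃ ℓ, ℓ = Real.log (Real.log t) := ⟨_, rfl⟩
  rw [← hℓ] at h1 ⊢
  have hC0 := h.hC0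
  have hlt : 0 < Real.log t := by linarith
  have hℓ0 : 0 < ℓ := by linarith
  have hN : Real.log (t + 3) / 2 + C0 + 1 ≤ Real.log t := by
    have h4 : Real.log (t + 3) ≤ Real.log t + 1 := by
      have h5 : t + 3 ≤ t * 2 := by linarith
      have h6 := Real.log_le_log (by linarith) h5
      rw [Real.log_mul (by linarith) (by norm_num)] at h6
      have := Real.log_two_lt_d9
      linarith
    linarith
  obtain ⟨A, hA1, hAQ, hA⟩ := h.boot hC1 hb hκ (by linarith) hℓ hlt h1 hN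
  obtain ⟨x1, hx1d⟩ : ∃ x1, x1 = 1 / 2 + η := ⟨_, rfl⟩
  rw [← hx1d] at hx1 ⊢
  obtain ⟨L, hL⟩ : ∃ L, L = Real.log t / ℓ := ⟨_, rfl⟩
  rw [← hL] at hAQ ⊢
  have hLp : 0 < L := by rw [hL]; positivity
  obtain ⟨lam, hlam⟩ : ∃ lam, lam = (ℓ - Real.log ℓ) / x1 := ⟨_, rfl⟩
  rw [← hlam]
  have hx1p : 1 / 2 < x1 := by rw [hx1d]; linarith
  have hlogℓ : 0 ≤ Real.log ℓ := Real.log_nonneg (by linarith)
  have hlogℓ2 : Real.log ℓ ≤ ℓ := (Real.log_le_sub_one_of_pos hℓ0).trans (by linarith)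
  have hlam0 : 0 ≤ lam := by rw [hlam]; exact div_nonneg (by linarith) (by linarith)
  have hlam2 : lam / ℓ ≤ 2 := by
    rw [hlam, div_div, div_le_iff₀ (by positivity)]
    nlinarith
  obtain ⟨K, hK⟩ := h.crude' (x0 := 1 / ℓ) (by positivity) (t := t) (by linarith)
  have hcosh0 : Real.cosh (t - t) = 1 := by simp
  have hinv : 0 ≤ 1 / (x * ℓ) := by positivity
  have hex := Real.exp_pos (-(x * lam))
  rcases le_or_gt (1 / ℓ) x with hxa | hxa
  · -- away from the line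
    have ha0x : 1 / ℓ < x1 := by
      rw [div_lt_iff₀ hℓ0]; nlinarith
    have h4 := three_lines h.diff (a := 1 / ℓ) (b := x1) (A := A) (B := Cη) (K := K) (t := t) (by positivity) ha0x
      (by rw [hx1d]; linarith) (fun y u hy hy1 => hK y u hy (by rw [hx1d] at hy1; linarith)) hA (fun u => ?_) hxa hx1 t
    · rw [hcosh0, mul_one] at h4
      obtain ⟨θ, hθ⟩ : ∃ θ, θ = (x - 1 / ℓ) / (x1 - 1 / ℓ) := ⟨_, rfl⟩
      rw [← hθ] at h4
      have hθ0 : 0 ≤ θ := by rw [hθ]; exact div_nonneg (by linarith) (by linarith)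
      have hθ1 : θ ≤ 1 := by rw [hθ, div_le_one (by linarith)]; linarith
      have h5 : (2 * Cη) ^ θ ≤ 2 * Cη := by
        calc (2 * Cη) ^ θ ≤ (2 * Cη) ^ (1 : ℝ) := Real.rpow_le_rpow_of_exponent_le (by linarith) hθ1
          _ = 2 * Cη := Real.rpow_one _
      have h6 : (2 * A) ^ (1 - θ) ≤ (2 * (8 * κ ^ 2 * L)) ^ (1 - θ) :=
        Real.rpow_le_rpow (by linarith) (by linarith) (by linarith)
      have h7 : (2 * (8 * κ ^ 2 * L)) ^ (1 - θ) ≤ 2 * (8 * κ ^ 2 * L) * (Real.exp 2 * Real.exp (-(x * lam))) := by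
        have hQp : 0 < 2 * (8 * κ ^ 2 * L) := by positivity
        rw [sub_eq_add_neg, Real.rpow_add hQp, Real.rpow_one]
        refine mul_le_mul_of_nonneg_left ?_ hQp.le
        rw [Real.rpow_def_of_pos hQp, ← Real.exp_add]
        refine Real.exp_le_exp.mpr ?_
        have h8 : ℓ - Real.log ℓ ≤ Real.log (2 * (8 * κ ^ 2 * L)) := by
          have h9' : (1 : ℝ) ≤ 2 * (8 * κ ^ 2) := by nlinarith
          have h9 : L ≤ 2 * (8 * κ ^ 2 * L) := by
            calc L = 1 * L := (one_mul L).symm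
              _ ≤ 2 * (8 * κ ^ 2) * L := mul_le_mul_of_nonneg_right h9' hLp.le
              _ = _ := by ring
          have h10 := Real.log_le_log hLp h9
          have h11 : Real.log L = ℓ - Real.log ℓ := by
            rw [hL, Real.log_div hlt.ne' hℓ0.ne', ← hℓ]
          linarith
        have h12 : (x - 1 / ℓ) / x1 ≤ θ := by
          rw [hθ]
          exact div_le_div_of_nonneg_left (by linarith) (by linarith) (by linarith [show 0 < 1 / ℓ by positivity])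
        have h13 : (x - 1 / ℓ) * lam ≤ θ * (ℓ - Real.log ℓ) := by
          rw [hlam]
          calc (x - 1 / ℓ) * ((ℓ - Real.log ℓ) / x1) = (x - 1 / ℓ) / x1 * (ℓ - Real.log ℓ) := by ring
            _ ≤ _ := mul_le_mul_of_nonneg_right h12 (by linarith)
        have h14 : θ * (ℓ - Real.log ℓ) ≤ θ * Real.log (2 * (8 * κ ^ 2 * L)) := mul_le_mul_of_nonneg_left h8 hθ0
        have h15 : 1 / ℓ * lam ≤ 2 := by
          calc 1 / ℓ * lam = lam / ℓ := by ring
            _ ≤ 2 := hlam2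
        have h13' : (x - 1 / ℓ) * lam = x * lam - 1 / ℓ * lam := by ring
        have h14' : Real.log (2 * (8 * κ ^ 2 * L)) * -θ = -(θ * Real.log (2 * (8 * κ ^ 2 * L))) := by ring
        linarith
      have h16 : ‖g (x + t * I)‖ ≤ 2 * (8 * κ ^ 2 * L) * (Real.exp 2 * Real.exp (-(x * lam))) * (2 * Cη) := by
        refine h4.trans (mul_le_mul (h6.trans h7) h5 (by positivity) (by positivity))
      refine h16.trans ?_
      have h17 : 2 * (8 * κ ^ 2 * L) * (Real.exp 2 * Real.exp (-(x * lam))) * (2 * Cη) =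
          Real.exp 2 * (8 * κ ^ 2) * (4 * Cη) * L * 1 * Real.exp (-(x * lam)) := by ring
      rw [h17]
      have h18 : Real.exp 2 * (8 * κ ^ 2) * (4 * Cη) * L * 1 ≤
          Real.exp 2 * (8 * κ ^ 2) * (4 * Cη + 2 * κ * (12 * C1 + 1)) * L * (1 + 1 / (x * ℓ)) := by
        refine mul_le_mul ?_ (by linarith) zero_le_one (by positivity)
        refine mul_le_mul_of_nonneg_right ?_ hLp.le
        refine mul_le_mul_of_nonneg_left ?_ (by positivity)
        have : 0 ≤ 2 * κ * (12 * C1 + 1) := by positivity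
        linarith
      exact mul_le_mul_of_nonneg_right h18 hex.le
    · refine (hbη _ (by rw [re_xu, hx1d])).trans ?_
      have := Real.one_le_cosh (u - t)
      nlinarith
  · -- near the line
    obtain ⟨a1, ha1⟩ : ∃ a1, a1 = κ / ℓ := ⟨_, rfl⟩
    have ha1p : 0 < a1 := by rw [ha1]; positivity
    have ha01 : 1 / ℓ < a1 := by
      rw [ha1]; exact div_lt_div_of_pos_right (by linarith) hℓ0
    have ha1' : 2 * a1 ≤ 1 := by
      rw [ha1, ← mul_div_assoc, div_le_one hℓ0]; exact h1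
    obtain ⟨K1, hK1⟩ : ∃ K1, K1 = 2 * C1 * (2 * A) ^ (1 - (a1 - 1 / ℓ) / (1 - 1 / ℓ)) := ⟨_, rfl⟩
    have hK10 : 0 ≤ K1 := by rw [hK1]; positivity
    have hfar : ∀ x u : ℝ, a1 ≤ x → x ≤ 1 → ‖g (x + u * I)‖ ≤ K1 * Real.cosh (u - t) := by
      intro x u hx hx1
      have := h.far hC1 hb (by linarith) (by positivity) ha01 (by linarith) hA1 hA hx hx1 u
      rwa [← hK1] at this
    have hK1' : K1 ≤ 4 * C1 * (8 * κ ^ 2 * L) := by
      have h4 : (2 * A) ^ (1 - (a1 - 1 / ℓ) / (1 - 1 / ℓ)) ≤ 2 * A := by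
        calc (2 * A) ^ (1 - (a1 - 1 / ℓ) / (1 - 1 / ℓ)) ≤ (2 * A) ^ (1 : ℝ) := by
              refine Real.rpow_le_rpow_of_exponent_le (by linarith) ?_
              have : 0 ≤ (a1 - 1 / ℓ) / (1 - 1 / ℓ) := div_nonneg (by linarith) (by linarith)
              linarith
          _ = 2 * A := Real.rpow_one _
      rw [hK1]
      calc 2 * C1 * (2 * A) ^ (1 - (a1 - 1 / ℓ) / (1 - 1 / ℓ)) ≤ 2 * C1 * (2 * (8 * κ ^ 2 * L)) :=
            mul_le_mul_of_nonneg_left (h4.trans (by linarith)) (by linarith)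
        _ = _ := by ring
    have h5 := h.near (by linarith) ha1p ha1' hK10 hfar hx (by linarith) t
    rw [hcosh0, mul_one] at h5
    refine h5.trans ?_
    have h6 : a1 * (Real.log (t + 3) / 2 + C0 + 1) ≤ κ * L := by
      rw [ha1, hL]
      calc κ / ℓ * (Real.log (t + 3) / 2 + C0 + 1) ≤ κ / ℓ * Real.log t :=
          mul_le_mul_of_nonneg_left hN (by positivity)
        _ = _ := by ring
    have h7 : 2 * a1 / x = 2 * κ * (1 / (x * ℓ)) := by rw [ha1]; field_simp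
    rw [h7]
    have h8 : 3 * K1 + 2 * (a1 * (Real.log (t + 3) / 2 + C0 + 1)) ≤ (12 * C1 + 1) * (8 * κ ^ 2 * L) := by
      have h81 : 2 * κ ≤ 8 * κ ^ 2 := by nlinarith
      have h82 : 2 * κ * L ≤ 8 * κ ^ 2 * L := mul_le_mul_of_nonneg_right h81 hLp.le
      have h83 : (12 * C1 + 1) * (8 * κ ^ 2 * L) = 3 * (4 * C1 * (8 * κ ^ 2 * L)) + 8 * κ ^ 2 * L := by ring
      linarith
    have h9 : 1 ≤ Real.exp 2 * Real.exp (-(x * lam)) := by
      rw [← Real.exp_add]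
      refine Real.one_le_exp ?_
      have h10 : x * lam ≤ 1 / ℓ * lam := mul_le_mul_of_nonneg_right hxa.le hlam0
      have h11 : 1 / ℓ * lam = lam / ℓ := by ring
      linarith
    calc 2 * κ * (1 / (x * ℓ)) * (3 * K1 + 2 * (a1 * (Real.log (t + 3) / 2 + C0 + 1)))
        ≤ 2 * κ * (1 / (x * ℓ)) * ((12 * C1 + 1) * (8 * κ ^ 2 * L)) :=
          mul_le_mul_of_nonneg_left h8 (by positivity)
      _ = (8 * κ ^ 2) * (2 * κ * (12 * C1 + 1)) * L * (1 / (x * ℓ)) * 1 := by ring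
      _ ≤ (8 * κ ^ 2) * (4 * Cη + 2 * κ * (12 * C1 + 1)) * L * (1 + 1 / (x * ℓ)) * (Real.exp 2 * Real.exp (-(x * lam))) := by
          refine mul_le_mul ?_ h9 zero_le_one (by positivity)
          refine mul_le_mul ?_ (by linarith) (by positivity) (by positivity)
          refine mul_le_mul_of_nonneg_right ?_ hLp.le
          refine mul_le_mul_of_nonneg_left (by linarith) (by positivity)
      _ = _ := by ring

end Q241.SN
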