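import Mathlib

set_option autoImplicit false

/-! Holomorphic logarithms on a half-plane. -/

namespace Q241.SN

open Set Filter Topology Complex

lemma exists_log {Z : ℂ → ℂ} (hZ : ∀ z : ℂ, 0 < z.re → DifferentiableAt ℂ Z z)
    (h0 : ∀ z : ℂ, 0 < z.re → Z z ≠ 0) : ∃ f : ℂ → ℂ,
    (∀ z : ℂ, 0 < z.re → HasDerivAt f (deriv Z z / Z z) z) ∧ ∀ z : ℂ, 0 < z.re → exp (f z) = Z z := by
  obtain ⟨U, hU⟩ : ∃ U : Set ℂ, U = {z : ℂ | 0 < z.re} := ⟨_, rfl⟩
  have hUm : ∀ z, z ∈ U ↔ 0 < z.re := fun z => by rw [hU]; rfl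
  have hUo : IsOpen U := by rw [hU]; exact isOpen_lt continuous_const Complex.continuous_re
  have hUc : Convex ℝ U := by rw [hU]; exact convex_halfSpace_re_gt 0
  have hne : U.Nonempty := ⟨1, by rw [hUm]; norm_num⟩
  have hsc : IsSimplyConnected U := by
    have : ContractibleSpace U := hUc.contractibleSpace hne
    exact SimplyConnectedSpace.ofContractible U
  obtain ⟨f, hf, hfe⟩ := exists_continuousOn_eqOn_exp_comp hsc hUo (g := Z)
    (fun z hz => (hZ z ((hUm z).mp hz)).continuousAt.continuousWithinAt) (by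
      rintro ⟨z, hz, h⟩
      exact h0 z ((hUm z).mp hz) h)
  have hfe' : ∀ z : ℂ, 0 < z.re → exp (f z) = Z z := fun z hz => hfe ((hUm z).mpr hz)
  refine ⟨f, fun z hz => ?_, hfe'⟩
  have hzU : z ∈ U := (hUm z).mpr hz
  have hfc : ContinuousAt f z := hf.continuousAt (hUo.mem_nhds hzU)
  have hev : ∀ᶠ w in 𝓝 z, f w = f z + Complex.log (Z w / Z z) := by
    have h1 : ∀ᶠ w in 𝓝 z, ‖f w - f z‖ < 1 := by
      have := hfc.sub (continuousAt_const (y := f z))
      have h2 : Tendsto (fun w => ‖f w - f z‖) (𝓝 z) (𝓝 0) := by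
        have h3 := this.norm
        simpa using h3.tendsto
      exact h2.eventually (gt_mem_nhds one_pos)
    filter_upwards [h1, hUo.mem_nhds hzU] with w hw hwU
    have h4 : Z w / Z z = exp (f w - f z) := by
      rw [exp_sub, hfe' w ((hUm w).mp hwU), hfe' z hz]
    have h5 := (Complex.abs_im_le_norm (f w - f z)).trans_lt hw
    rw [abs_lt] at h5
    have := Real.pi_gt_three
    rw [h4, Complex.log_exp (by linarith [h5.1]) (by linarith [h5.2])]
    ring
  have hd : HasDerivAt (fun w => f z + Complex.log (Z w / Z z)) (deriv Z z / Z z) z := by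
    have h1 : HasDerivAt (fun w => Z w / Z z) (deriv Z z / Z z) z := (hZ z hz).hasDerivAt.div_const _
    have h2 := h1.clog (by rw [div_self (h0 z hz)]; exact Complex.one_mem_slitPlane)
    rw [div_self (h0 z hz), div_one] at h2
    exact h2.const_add _
  exact hd.congr_of_eventuallyEq hev

end Q241.SN
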