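import Mathlib

set_option autoImplicit false

/-! Alternation sequences for periodic functions. -/

namespace Q241.SN

open Set

/-- `g` (thought of as `N`-periodic) alternates in sign at least `n` times per period. -/
def Alt (N : ℝ) (n : ℕ) (g : ℝ → ℝ) : Prop :=
  ∃ x : ℤ → ℝ, (∀ i, x i < x (i + 1)) ∧ (∀ i, x (i + n) = x i + N) ∧
    ∀ i, (Even i → 0 < g (x i)) ∧ (Odd i → g (x i) < 0)

lemma Alt.neg {N : ℝ} {n : ℕ} {g : ℝ → ℝ} (h : Alt N n g) : Alt N n (fun x => -g x) := by
  obtain ⟨x, h1, h2, h3⟩ := h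
  refine ⟨fun i => x (i + 1), fun i => h1 (i + 1), fun i => ?_, fun i => ⟨fun hi => ?_, fun hi => ?_⟩⟩
  · show x (i + n + 1) = x (i + 1) + N
    have e : i + (n : ℤ) + 1 = i + 1 + n := by ring
    rw [e]
    exact h2 (i + 1)
  · have := (h3 (i + 1)).2 hi.add_one
    simpa using this
  · have := (h3 (i + 1)).1 hi.add_one
    simpa using this

lemma Alt.of_neg {N : ℝ} {n : ℕ} {g : ℝ → ℝ} (h : Alt N n (fun x => -g x)) : Alt N n g := by
  have := h.neg
  simpa using this

/-- differentiation does not decrease the number of alternations -/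
lemma Alt.deriv {N : ℝ} {n : ℕ} {g g' : ℝ → ℝ} (hn : 0 < n) (hne : Even n)
    (hper : ∀ x, g' (x + N) = g' x)
    (hup : ∀ a b, a < b → g a < g b → ∃ y ∈ Ioo a b, 0 < g' y)
    (hdn : ∀ a b, a < b → g b < g a → ∃ y ∈ Ioo a b, g' y < 0) (h : Alt N n g) : Alt N n g' := by
  obtain ⟨x, h1, h2, h3⟩ := h
  -- choose points in the first period
  have hch : ∀ i : ℤ, ∃ y ∈ Ioo (x i) (x (i + 1)), (Even i → g' y < 0) ∧ (Odd i → 0 < g' y) := by
    intro i
    rcases Int.even_or_odd i with hi | hi
    · obtain ⟨y, hy, hy2⟩ := hdn _ _ (h1 i) (((h3 (i + 1)).2 hi.add_one).trans ((h3 i).1 hi))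
      exact ⟨y, hy, fun _ => hy2, fun h => absurd hi (Int.not_even_iff_odd.mpr h)⟩
    · obtain ⟨y, hy, hy2⟩ := hup _ _ (h1 i) (((h3 i).2 hi).trans ((h3 (i + 1)).1 hi.add_one))
      exact ⟨y, hy, fun h => absurd h (Int.not_even_iff_odd.mpr hi), fun _ => hy2⟩
  choose y hy hys using hch
  have hn' : (0 : ℤ) < n := by exact_mod_cast hn
  have hne' : Even (n : ℤ) := by exact_mod_cast hne
  have hx : ∀ (q i : ℤ), x (i + n * q) = x i + N * q := by
    intro q
    induction q using Int.induction_on with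
    | zero => intro i; simp
    | succ k ih =>
      intro i
      have e : i + (n : ℤ) * ((k : ℤ) + 1) = (i + n * k) + n := by ring
      rw [e, h2, ih]
      push_cast; ring
    | pred k ih =>
      intro i
      have e : i + (n : ℤ) * (-(k : ℤ) - 1) = (i + n * (-(k:ℤ))) - n := by ring
      have h4 := h2 (i + n * (-(k:ℤ)) - n)
      rw [sub_add_cancel, ih] at h4
      rw [e]
      push_cast at h4 ⊢
      linarith
  have hg : ∀ (q : ℤ) (z : ℝ), g' (z + N * q) = g' z := by
    intro q
    induction q using Int.induction_on with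
    | zero => intro z; simp
    | succ k ih =>
      intro z
      have e : z + N * (((k : ℤ) + 1 : ℤ) : ℝ) = (z + N * (k : ℤ)) + N := by push_cast; ring
      rw [e, hper, ih]
    | pred k ih =>
      intro z
      have e : (z + N * ((-(k : ℤ) - 1 : ℤ) : ℝ)) + N = z + N * ((-(k : ℤ) : ℤ) : ℝ) := by push_cast; ring
      rw [← hper, e, ih]
  -- the new sequence
  obtain ⟨w, hw⟩ : ∃ w : ℤ → ℝ, w = fun i => y (i % n) + N * (i / n : ℤ) := ⟨_, rfl⟩
  have hwi : ∀ i, w i = y (i % n) + N * (i / n : ℤ) := fun i => by rw [hw]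
  have hwm : ∀ i, w i ∈ Ioo (x i) (x (i + 1)) := by
    intro i
    have h5 := hy (i % n)
    have e1 : x i = x (i % n) + N * (i / n : ℤ) := by
      rw [← hx (i / n) (i % n), Int.emod_add_mul_ediv]
    have e2 : x (i + 1) = x (i % n + 1) + N * (i / n : ℤ) := by
      rw [← hx (i / n) (i % n + 1)]
      congr 1
      have := Int.emod_add_mul_ediv i n
      linarith
    rw [hwi, e1, e2]
    exact ⟨by linarith [h5.1], by linarith [h5.2]⟩
  have hws : ∀ i, (Even i → g' (w i) < 0) ∧ (Odd i → 0 < g' (w i)) := by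
    intro i
    rw [hwi, hg]
    have hpar : Even (i % n) ↔ Even i := by
      have h6 := Int.emod_add_mul_ediv i n
      constructor
      · intro h7
        rw [← h6]
        exact h7.add (hne'.mul_right _)
      · intro h7
        have h8 : i % n = i - n * (i / n) := by linarith
        rw [h8]
        exact h7.sub (hne'.mul_right _)
    refine ⟨fun hi => (hys _).1 (hpar.mpr hi), fun hi => (hys _).2 ?_⟩
    rw [← Int.not_even_iff_odd] at hi ⊢
    rwa [hpar]
  refine ⟨fun i => w (i - 1), fun i => ?_, fun i => ?_, fun i => ⟨fun hi => ?_, fun hi => ?_⟩⟩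
  · have h5 := (hwm (i - 1)).2
    have h6 := (hwm (i + 1 - 1)).1
    rw [sub_add_cancel] at h5
    have e : i + 1 - 1 = i := by ring
    show w (i - 1) < w (i + 1 - 1)
    rw [e] at h6 ⊢
    exact h5.trans h6
  · show w (i + n - 1) = w (i - 1) + N
    rw [hwi, hwi]
    have e : i + (n : ℤ) - 1 = (i - 1) + n * 1 := by ring
    rw [e, Int.add_mul_emod_self_left, Int.add_mul_ediv_left _ _ hn'.ne']
    push_cast
    ring
  · have h5 : Odd (i - 1) := hi.sub_odd odd_one
    exact (hws _).2 h5
  · have h5 : Even (i - 1) := hi.sub_odd odd_one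
    exact (hws _).1 h5

/-- alternation count for a function which decreases between integers -/
lemma not_alt {N : ℕ} {g : ℝ → ℝ} (hg : ∀ a b : ℝ, a < b → ⌊a⌋ = ⌊b⌋ → g b ≤ g a) :
    ¬ Alt N (2 * N + 2) g := by
  rintro ⟨x, h1, h2, h3⟩
  have hmono : ∀ i, ⌊x i⌋ ≤ ⌊x (i + 1)⌋ := fun i => Int.floor_le_floor (h1 i).le
  have hodd : ∀ i, Odd i → ⌊x i⌋ + 1 ≤ ⌊x (i + 1)⌋ := by
    intro i hi
    by_contra hcon
    have heq : ⌊x i⌋ = ⌊x (i + 1)⌋ := by
      have := hmono i
      omega
    have h4 := hg _ _ (h1 i) heq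
    have h5 := (h3 i).2 hi
    have h6 := (h3 (i + 1)).1 hi.add_one
    linarith
  have h2step : ∀ i, ⌊x i⌋ + 1 ≤ ⌊x (i + 2)⌋ := by
    intro i
    have e : i + 2 = i + 1 + 1 := by ring
    rw [e]
    rcases Int.even_or_odd i with hi | hi
    · have := hodd (i + 1) hi.add_one
      have := hmono i
      omega
    · have := hodd i hi
      have := hmono (i + 1)
      omega
  have hsteps : ∀ r : ℕ, ∀ i : ℤ, ⌊x i⌋ + r ≤ ⌊x (i + 2 * r)⌋ := by
    intro r
    induction r with
    | zero => intro i; simp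
    | succ k ih =>
      intro i
      have e : i + 2 * ((k + 1 : ℕ) : ℤ) = (i + 2 * k) + 2 := by push_cast; ring
      rw [e]
      have := h2step (i + 2 * k)
      have := ih i
      push_cast
      omega
  have h7 := hsteps (N + 1) 0
  have h8 := h2 0
  have e : (0 : ℤ) + ((2 * N + 2 : ℕ) : ℤ) = 0 + 2 * ((N + 1 : ℕ) : ℤ) := by push_cast; ring
  rw [e] at h8
  rw [h8, Int.floor_add_natCast] at h7
  push_cast at h7
  omega

/-- building an alternation sequence -/
lemma alt_start {N : ℕ} (hN : 0 < N) {g : ℝ → ℝ} {p u v q : ℝ} (hper : ∀ x, g (x + N) = g x)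
    (hpu : p < u) (huv : u < v) (hvq : v < q) (hqp : q < p + 1)
    (hp : ∀ j : ℤ, g (p + j) < 0) (hq : ∀ j : ℤ, 0 < g (q + j)) (hu : 0 < g u) (hv : g v < 0) :
    Alt N (2 * N + 2) g := by
  classical
  obtain ⟨n, hn⟩ : ∃ n : ℤ, n = 2 * N + 2 := ⟨_, rfl⟩
  have hn0 : 0 < n := by omega
  have hNz : (0 : ℤ) < N := by exact_mod_cast hN
  -- base points
  obtain ⟨y, hy⟩ : ∃ y : ℤ → ℝ, y = fun r => if r = 0 then u else if r = 1 then v else
      if Even r then q + ((r / 2 - 1 : ℤ) : ℝ) else p + ((r / 2 : ℤ) : ℝ) := ⟨_, rfl⟩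
  have y0 : y 0 = u := by rw [hy]; simp
  have y1 : y 1 = v := by rw [hy]; simp
  have ye : ∀ k : ℤ, k ≠ 0 → y (2 * k) = q + ((k - 1 : ℤ) : ℝ) := by
    intro k hk
    rw [hy]
    have h1 : (2 * k : ℤ) ≠ 0 := by omega
    have h2 : (2 * k : ℤ) ≠ 1 := by omega
    have h3 : Even (2 * k : ℤ) := even_two_mul k
    have h4 : (2 * k : ℤ) / 2 = k := by omega
    simp only [h1, h2, h3, h4, if_true, if_false]
  have yo : ∀ k : ℤ, k ≠ 0 → y (2 * k + 1) = p + ((k : ℤ) : ℝ) := by
    intro k hk
    rw [hy]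
    have h1 : (2 * k + 1 : ℤ) ≠ 0 := by omega
    have h2 : (2 * k + 1 : ℤ) ≠ 1 := by omega
    have h3 : ¬ Even (2 * k + 1 : ℤ) := by
      rw [Int.not_even_iff_odd]; exact odd_two_mul_add_one k
    have h4 : (2 * k + 1 : ℤ) / 2 = k := by omega
    simp only [h1, h2, h3, h4, if_false]
  have hg : ∀ (q : ℤ) (z : ℝ), g (z + N * q) = g z := by
    intro q
    induction q using Int.induction_on with
    | zero => intro z; simp
    | succ k ih =>
      intro z
      have e : z + N * (((k : ℤ) + 1 : ℤ) : ℝ) = (z + N * (k : ℤ)) + N := by push_cast; ring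
      rw [e, hper, ih]
    | pred k ih =>
      intro z
      have e : (z + N * ((-(k : ℤ) - 1 : ℤ) : ℝ)) + N = z + N * ((-(k : ℤ) : ℤ) : ℝ) := by push_cast; ring
      rw [← hper, e, ih]
  refine ⟨fun i => y (i % n) + N * (i / n : ℤ), fun i => ?_, fun i => ?_, fun i => ?_⟩
  · -- monotone
    show y (i % n) + N * (i / n : ℤ) < y ((i + 1) % n) + N * ((i + 1) / n : ℤ)
    obtain ⟨r, hr⟩ : ∃ r, r = i % n := ⟨_, rfl⟩
    have hr0 : 0 ≤ r := by rw [hr]; exact Int.emod_nonneg _ hn0.ne'
    have hrn : r < n := by rw [hr]; exact Int.emod_lt_of_pos _ hn0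
    have hi : i = r + n * (i / n) := by rw [hr, Int.emod_add_mul_ediv]
    rcases lt_or_ge (r + 1) n with h | h
    · have e1 : (i + 1) % n = r + 1 := by
        have : i + 1 = (r + 1) + n * (i / n) := by linarith
        rw [this, Int.add_mul_emod_self_left, Int.emod_eq_of_lt (by omega) h]
      have e2 : (i + 1) / n = i / n := by
        have : i + 1 = (r + 1) + n * (i / n) := by linarith
        rw [this, Int.add_mul_ediv_left _ _ hn0.ne', Int.ediv_eq_zero_of_lt (by omega) h, zero_add]
      rw [e1, e2, ← hr]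
      have hlt : y r < y (r + 1) := by
        rcases Int.even_or_odd' r with ⟨k, hk | hk⟩
        · rcases eq_or_ne k 0 with h0 | h0
          · rw [hk, h0]
            norm_num
            rw [y0, y1]
            exact huv
          · rw [hk, ye k h0, yo k h0]
            push_cast
            linarith
        · rcases eq_or_ne k 0 with h0 | h0
          · rw [hk, h0]
            norm_num
            have := ye 1 (by norm_num)
            norm_num at this
            rw [y1, this]
            exact hvq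
          · have e3 : (2 * k + 1 + 1 : ℤ) = 2 * (k + 1) := by ring
            rw [hk, e3, ye (k + 1) (by omega), yo k h0]
            push_cast
            linarith
      linarith
    · have hr1 : r = n - 1 := by omega
      have e1 : (i + 1) % n = 0 := by
        have : i + 1 = 0 + n * (i / n + 1) := by linarith
        rw [this, Int.add_mul_emod_self_left]
        simp
      have e2 : (i + 1) / n = i / n + 1 := by
        have : i + 1 = 0 + n * (i / n + 1) := by linarith
        rw [this, Int.add_mul_ediv_left _ _ hn0.ne']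
        simp
      rw [e1, e2, ← hr, hr1, y0]
      have e3 : (n - 1 : ℤ) = 2 * N + 1 := by omega
      rw [e3, yo N hNz.ne']
      push_cast
      linarith
  · show y ((i + ((2 * N + 2 : ℕ) : ℤ)) % n) + N * ((i + ((2 * N + 2 : ℕ) : ℤ)) / n : ℤ) = y (i % n) + N * (i / n : ℤ) + N
    have e : i + ((2 * N + 2 : ℕ) : ℤ) = i + n * 1 := by rw [hn]; push_cast; ring
    rw [e, Int.add_mul_emod_self_left, Int.add_mul_ediv_left _ _ hn0.ne']
    push_cast
    ring
  · show (Even i → 0 < g (y (i % n) + N * (i / n : ℤ))) ∧ (Odd i → g (y (i % n) + N * (i / n : ℤ)) < 0)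
    rw [hg]
    have hne' : Even n := by rw [hn]; exact ⟨N + 1, by ring⟩
    have hpar : Even (i % n) ↔ Even i := by
      have h6 := Int.emod_add_mul_ediv i n
      constructor
      · intro h7
        rw [← h6]
        exact h7.add (hne'.mul_right _)
      · intro h7
        have h8 : i % n = i - n * (i / n) := by linarith
        rw [h8]
        exact h7.sub (hne'.mul_right _)
    obtain ⟨r, hr⟩ : ∃ r, r = i % n := ⟨_, rfl⟩
    rw [← hr] at hpar ⊢
    constructor
    · intro hi
      obtain ⟨k, hk⟩ := (hpar.mpr hi)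
      have hk2 : r = 2 * k := by omega
      rcases eq_or_ne k 0 with h0 | h0
      · rw [hk2, h0, mul_zero, y0]; exact hu
      · rw [hk2, ye k h0]
        exact hq _
    · intro hi
      have hro : Odd r := by
        rw [← Int.not_even_iff_odd] at hi ⊢
        rwa [hpar]
      obtain ⟨k, hk⟩ := hro
      rcases eq_or_ne k 0 with h0 | h0
      · rw [hk, h0, mul_zero, zero_add, y1]; exact hv
      · rw [hk, yo k h0]
        exact hp _

end Q241.SN
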