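import Mathlib
import Pool.Agent.Q241.SN.Alt

set_option autoImplicit false

/-! Comparison of periodic functions with the Bernoulli splines. -/

namespace Q241.SN

open Set Filter Topology MeasureTheory intervalIntegral
open scoped Nat

/-- the extremal spline -/
noncomputable def Phi (k : ℕ) (x : ℝ) : ℝ := -(bernoulliFun (k + 1) (Int.fract x)) / (k + 1)!

lemma bernoulliFun_continuous (k : ℕ) : Continuous (bernoulliFun k) :=
  continuous_iff_continuousAt.mpr fun x => (hasDerivAt_bernoulliFun k x).continuousAt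

lemma Phi_add_int (k : ℕ) (x : ℝ) (j : ℤ) : Phi k (x + j) = Phi k x := by
  unfold Phi; rw [Int.fract_add_intCast]

lemma Phi_add_nat (k : ℕ) (x : ℝ) (j : ℕ) : Phi k (x + j) = Phi k x := by
  have := Phi_add_int k x j
  simpa using this

lemma Phi_zero (x : ℝ) : Phi 0 x = 1 / 2 - Int.fract x := by
  unfold Phi
  simp only [zero_add, bernoulliFun_one, Nat.factorial_one, Nat.cast_one, div_one]
  ring

lemma Phi_cont (k : ℕ) : Continuous (Phi (k + 1)) := by
  have h1 : Continuous (bernoulliFun (k + 1 + 1) ∘ Int.fract) := by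
    refine ContinuousOn.comp_fract'' (bernoulliFun_continuous _).continuousOn ?_
    exact (bernoulliFun_endpoints_eq_of_ne_one (by omega)).symm
  exact (h1.neg).div_const _

lemma Phi_meas (k : ℕ) : Measurable (Phi k) :=
  (((bernoulliFun_continuous (k + 1)).measurable.comp measurable_fract).neg).div_const _

lemma Phi_bdd (k : ℕ) : ∃ C : ℝ, ∀ x, |Phi k x| ≤ C := by
  obtain ⟨C, hC⟩ := isCompact_Icc.exists_bound_of_continuousOn (s := Icc (0:ℝ) 1)
    (bernoulliFun_continuous (k + 1)).continuousOn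
  refine ⟨C, fun x => ?_⟩
  have h1 := hC (Int.fract x) ⟨Int.fract_nonneg x, (Int.fract_lt_one x).le⟩
  unfold Phi
  have hf : (1 : ℝ) ≤ ((k + 1)! : ℝ) := by exact_mod_cast Nat.one_le_iff_ne_zero.mpr (Nat.factorial_ne_zero _)
  have h0 : 0 ≤ C := (norm_nonneg _).trans h1
  rw [abs_div, abs_neg, abs_of_pos (by linarith : (0:ℝ) < ((k+1)! : ℝ)), div_le_iff₀ (by linarith)]
  rw [Real.norm_eq_abs] at h1
  nlinarith

lemma Phi_intble (k : ℕ) (a b : ℝ) : IntervalIntegrable (Phi k) volume a b := by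
  obtain ⟨C, hC⟩ := Phi_bdd k
  rw [intervalIntegrable_iff]
  exact Measure.integrableOn_of_bounded (M := C) (by simp) (Phi_meas k).aestronglyMeasurable
    (Eventually.of_forall hC)

lemma Phi_right (k : ℕ) (x : ℝ) : HasDerivWithinAt (Phi (k + 1)) (Phi k x) (Ioi x) x := by
  have h1 : HasDerivAt (fun y : ℝ => -(bernoulliFun (k + 1 + 1) (y - ⌊x⌋)) / (k + 1 + 1)!) (Phi k x) x := by
    have h2 := hasDerivAt_bernoulliFun (k + 1 + 1) (x - ⌊x⌋)
    have h3 : HasDerivAt (fun y : ℝ => y - (⌊x⌋ : ℝ)) 1 x := (hasDerivAt_id x).sub_const _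
    have h4 := ((h2.comp x h3).neg).div_const ((k + 1 + 1)! : ℝ)
    refine h4.congr_deriv ?_
    unfold Phi
    rw [← Int.self_sub_floor, Nat.factorial_succ (k + 1)]
    have : ((k + 1)! : ℝ) ≠ 0 := by exact_mod_cast Nat.factorial_ne_zero _
    have h5 : ((k : ℝ) + 1 + 1) ≠ 0 := by positivity
    push_cast
    field_simp
  refine h1.hasDerivWithinAt.congr_of_eventuallyEq ?_ ?_
  · have h2 : ∀ᶠ y : ℝ in 𝓝[>] x, y < (⌊x⌋ : ℝ) + 1 :=
      (isOpen_Iio.mem_nhds (Int.lt_floor_add_one x)) |> fun h => nhdsWithin_le_nhds h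
    filter_upwards [h2, self_mem_nhdsWithin] with y hy hy2
    have h3 : ⌊y⌋ = ⌊x⌋ := by
      rw [Int.floor_eq_iff]
      exact ⟨(Int.floor_le x).trans (mem_Ioi.mp hy2).le, hy⟩
    unfold Phi
    rw [← Int.self_sub_floor, h3]
  · unfold Phi
    rw [← Int.self_sub_floor]

lemma Phi_int (k : ℕ) (a b : ℝ) : ∫ x in a..b, Phi k x = Phi (k + 1) b - Phi (k + 1) a :=
  integral_eq_sub_of_hasDeriv_right (Phi_cont k).continuousOn (fun x _ => Phi_right k x) (Phi_intble k a b)

/-- a chain of periodic functions, `f (j+1)` being an antiderivative of `f j` -/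
structure Fam (N K : ℕ) (f : ℕ → ℝ → ℝ) : Prop where
  per : ∀ j ≤ K, ∀ x, f j (x + N) = f j x
  der : ∀ j < K, ∀ x, HasDerivAt (f (j + 1)) (f j x) x
  mono : ∀ x y, x ≤ y → f 0 x + x ≤ f 0 y + y
  cont : Continuous (f 0)

lemma Fam.cont' {N K : ℕ} {f : ℕ → ℝ → ℝ} (h : Fam N K f) (j : ℕ) (hj : j ≤ K) : Continuous (f j) := by
  rcases j with _ | j
  · exact h.cont
  · exact continuous_iff_continuousAt.mpr fun x => (h.der j (by omega) x).continuousAt

lemma Fam.down {N K : ℕ} {f : ℕ → ℝ → ℝ} (h : Fam N K f) {n : ℕ} (hn : 0 < n) (hne : Even n) (c : ℝ)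
    (j : ℕ) (hj : j ≤ K) (hA : Alt N n (fun x => Phi j x - f j (x + c))) :
    Alt N n (fun x => Phi 0 x - f 0 (x + c)) := by
  induction j with
  | zero => exact hA
  | succ j ih =>
    refine ih (by omega) ?_
    have hint : ∀ a b : ℝ, IntervalIntegrable (fun x => f j (x + c)) volume a b := fun a b =>
      ((h.cont' j (by omega)).comp (continuous_id.add continuous_const)).intervalIntegrable a b
    have hI : ∀ a b : ℝ, ∫ x in a..b, (Phi j x - f j (x + c)) =
        (Phi (j + 1) b - f (j + 1) (b + c)) - (Phi (j + 1) a - f (j + 1) (a + c)) := by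
      intro a b
      rw [integral_sub (Phi_intble j a b) (hint a b), Phi_int]
      have h5 : ∫ x in a..b, f j (x + c) = f (j + 1) (b + c) - f (j + 1) (a + c) := by
        refine integral_eq_sub_of_hasDerivAt (f := fun x => f (j + 1) (x + c)) (fun x _ => ?_) (hint a b)
        exact (h.der j (by omega) (x + c)).comp_add_const x c
      rw [h5]; ring
    refine Alt.deriv hn hne (fun x => ?_) (fun a b hab hlt => ?_) (fun a b hab hlt => ?_) hA
    · show Phi j (x + N) - f j (x + N + c) = _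
      rw [Phi_add_nat, show x + N + c = (x + c) + N by ring, h.per j (by omega)]
    · by_contra hcon
      push Not at hcon
      have h6 : ∫ x in a..b, (Phi j x - f j (x + c)) ≤ ∫ x in a..b, (0 : ℝ) :=
        integral_mono_on_of_le_Ioo hab.le ((Phi_intble j a b).sub (hint a b)) (by simp) (fun x hx => hcon x hx)
      rw [hI] at h6
      simp at h6
      linarith
    · by_contra hcon
      push Not at hcon
      have h6 : ∫ x in a..b, (0 : ℝ) ≤ ∫ x in a..b, (Phi j x - f j (x + c)) :=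
        integral_mono_on_of_le_Ioo hab.le (by simp) ((Phi_intble j a b).sub (hint a b)) (fun x hx => hcon x hx)
      rw [hI] at h6
      simp at h6
      linarith

lemma Fam.not_alt {N K : ℕ} {f : ℕ → ℝ → ℝ} (h : Fam N K f) (c : ℝ) (j : ℕ) (hj : j ≤ K) :
    ¬ Alt N (2 * N + 2) (fun x => Phi j x - f j (x + c)) := by
  intro hA
  refine SN.not_alt ?_ (h.down (by omega) ⟨N + 1, by ring⟩ c j hj hA)
  intro a b hab hfl
  have h1 := h.mono (a + c) (b + c) (by linarith)
  rw [Phi_zero, Phi_zero, ← Int.self_sub_floor, ← Int.self_sub_floor, hfl]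
  linarith

/-- strict comparison, upper bound -/
lemma Fam.step_up {N K : ℕ} (hN : 0 < N) {f : ℕ → ℝ → ℝ} (h : Fam N K f) (k : ℕ) (hk : k < K)
    {M : ℝ} (hM : ∀ x, Phi k x ≤ M) {p q : ℝ} (hpq : p < q) (hqp : q < p + 1)
    (hfp : ∀ x, Phi (k + 1) p < f (k + 1) x) (hfq : ∀ x, f (k + 1) x < Phi (k + 1) q) (x0 : ℝ) :
    f k x0 ≤ M := by
  by_contra hcon
  push Not at hcon
  -- the crossing point
  obtain ⟨x1, hx1, hx1e⟩ : ∃ x1 ∈ Ioo p q, Phi (k + 1) x1 = f (k + 1) x0 := by
    have h1 := intermediate_value_Ioo hpq.le (Phi_cont k).continuousOn (f := Phi (k + 1))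
    exact h1 ⟨hfp x0, hfq x0⟩
  obtain ⟨c, hc⟩ : ∃ c, c = x0 - x1 := ⟨_, rfl⟩
  have hD := h.der k hk x0
  have hMu : ∀ a b : ℝ, a ≤ b → Phi (k + 1) b - Phi (k + 1) a ≤ M * (b - a) := by
    intro a b hab
    rw [← Phi_int]
    have : ∫ x in a..b, Phi k x ≤ ∫ x in a..b, M :=
      integral_mono_on hab (Phi_intble k a b) (by simp) (fun x _ => hM x)
    simpa [mul_comm] using this
  -- near x0
  have hsl : ∀ᶠ y in 𝓝 x0, |f (k + 1) y - f (k + 1) x0 - (y - x0) * f k x0| ≤ ((f k x0 - M) / 2) * |y - x0| := by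
    have h1 := (hasDerivAt_iff_isLittleO.mp hD)
    have h2 := h1.def (c := (f k x0 - M) / 2) (by linarith)
    filter_upwards [h2] with y hy
    simpa using hy
  obtain ⟨ε, hε, hεs⟩ := Metric.eventually_nhds_iff.mp hsl
  obtain ⟨η, hη⟩ : ∃ η, η = min (ε / 2) (min ((x1 - p) / 2) ((q - x1) / 2)) := ⟨_, rfl⟩
  have hη0 : 0 < η := by
    rw [hη]
    refine lt_min (by linarith) (lt_min ?_ ?_)
    · linarith [hx1.1]
    · linarith [hx1.2]
  have hη1 : η ≤ ε / 2 := by rw [hη]; exact min_le_left _ _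
  have hη2 : η ≤ (x1 - p) / 2 := by rw [hη]; exact (min_le_right _ _).trans (min_le_left _ _)
  have hη3 : η ≤ (q - x1) / 2 := by rw [hη]; exact (min_le_right _ _).trans (min_le_right _ _)
  have hx1' : x0 = x1 + c := by rw [hc]; ring
  refine h.not_alt c (k + 1) (by omega) (alt_start (p := p) (u := x1 - η) (v := x1 + η) (q := q) hN ?_ ?_ ?_ ?_ hqp ?_ ?_ ?_ ?_)
  · intro x
    show Phi (k + 1) (x + N) - f (k + 1) (x + N + c) = _
    rw [Phi_add_nat, show x + N + c = (x + c) + N by ring, h.per (k + 1) (by omega)]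
  · linarith [hx1.1]
  · linarith
  · linarith [hx1.2]
  · intro j
    rw [Phi_add_int]
    linarith [hfp (p + j + c)]
  · intro j
    rw [Phi_add_int]
    linarith [hfq (q + j + c)]
  · have h1 := hεs (y := x0 - η) (by rw [Real.dist_eq, show x0 - η - x0 = -η by ring, abs_neg, abs_of_pos hη0]; linarith)
    have h2 := hMu (x1 - η) x1 (by linarith)
    rw [show x0 - η - x0 = -η by ring, abs_neg, abs_of_pos hη0] at h1
    have h3 := (abs_le.mp h1).2
    rw [show x1 - η + c = x0 - η by rw [hx1']; ring]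
    rw [show x1 - (x1 - η) = η by ring] at h2
    nlinarith [mul_pos hη0 (sub_pos.mpr hcon)]
  · have h1 := hεs (y := x0 + η) (by rw [Real.dist_eq, show x0 + η - x0 = η by ring, abs_of_pos hη0]; linarith)
    have h2 := hMu x1 (x1 + η) (by linarith)
    rw [show x0 + η - x0 = η by ring, abs_of_pos hη0] at h1
    have h3 := (abs_le.mp h1).1
    rw [show x1 + η + c = x0 + η by rw [hx1']; ring]
    rw [show x1 + η - x1 = η by ring] at h2
    nlinarith [mul_pos hη0 (sub_pos.mpr hcon)]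

/-- strict comparison, lower bound -/
lemma Fam.step_dn {N K : ℕ} (hN : 0 < N) {f : ℕ → ℝ → ℝ} (h : Fam N K f) (k : ℕ) (hk : k < K)
    {M : ℝ} (hM : ∀ x, M ≤ Phi k x) {p q : ℝ} (hpq : p < q) (hqp : q < p + 1)
    (hfp : ∀ x, f (k + 1) x < Phi (k + 1) p) (hfq : ∀ x, Phi (k + 1) q < f (k + 1) x) (x0 : ℝ) :
    M ≤ f k x0 := by
  by_contra hcon
  push Not at hcon
  -- the crossing point
  obtain ⟨x1, hx1, hx1e⟩ : ∃ x1 ∈ Ioo p q, Phi (k + 1) x1 = f (k + 1) x0 := by
    have h1 := intermediate_value_Ioo' hpq.le (Phi_cont k).continuousOn (f := Phi (k + 1))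
    exact h1 ⟨hfq x0, hfp x0⟩
  obtain ⟨c, hc⟩ : ∃ c, c = x0 - x1 := ⟨_, rfl⟩
  have hD := h.der k hk x0
  have hMu : ∀ a b : ℝ, a ≤ b → M * (b - a) ≤ Phi (k + 1) b - Phi (k + 1) a := by
    intro a b hab
    rw [← Phi_int]
    have : ∫ x in a..b, M ≤ ∫ x in a..b, Phi k x :=
      integral_mono_on hab (by simp) (Phi_intble k a b) (fun x _ => hM x)
    simpa [mul_comm] using this
  -- near x0
  have hsl : ∀ᶠ y in 𝓝 x0, |f (k + 1) y - f (k + 1) x0 - (y - x0) * f k x0| ≤ ((M - f k x0) / 2) * |y - x0| := by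
    have h1 := (hasDerivAt_iff_isLittleO.mp hD)
    have h2 := h1.def (c := (M - f k x0) / 2) (by linarith)
    filter_upwards [h2] with y hy
    simpa using hy
  obtain ⟨ε, hε, hεs⟩ := Metric.eventually_nhds_iff.mp hsl
  obtain ⟨η, hη⟩ : ∃ η, η = min (ε / 2) (min ((x1 - p) / 2) ((q - x1) / 2)) := ⟨_, rfl⟩
  have hη0 : 0 < η := by
    rw [hη]
    refine lt_min (by linarith) (lt_min ?_ ?_)
    · linarith [hx1.1]
    · linarith [hx1.2]
  have hη1 : η ≤ ε / 2 := by rw [hη]; exact min_le_left _ _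
  have hη2 : η ≤ (x1 - p) / 2 := by rw [hη]; exact (min_le_right _ _).trans (min_le_left _ _)
  have hη3 : η ≤ (q - x1) / 2 := by rw [hη]; exact (min_le_right _ _).trans (min_le_right _ _)
  have hx1' : x0 = x1 + c := by rw [hc]; ring
  refine h.not_alt c (k + 1) (by omega) (Alt.of_neg (alt_start (p := p) (u := x1 - η) (v := x1 + η) (q := q) hN ?_ ?_ ?_ ?_ hqp ?_ ?_ ?_ ?_))
  · intro x
    show -(Phi (k + 1) (x + N) - f (k + 1) (x + N + c)) = _
    rw [Phi_add_nat, show x + N + c = (x + c) + N by ring, h.per (k + 1) (by omega)]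
  · linarith [hx1.1]
  · linarith
  · linarith [hx1.2]
  · intro j
    rw [Phi_add_int]
    linarith [hfp (p + j + c)]
  · intro j
    rw [Phi_add_int]
    linarith [hfq (q + j + c)]
  · have h1 := hεs (y := x0 - η) (by rw [Real.dist_eq, show x0 - η - x0 = -η by ring, abs_neg, abs_of_pos hη0]; linarith)
    have h2 := hMu (x1 - η) x1 (by linarith)
    rw [show x0 - η - x0 = -η by ring, abs_neg, abs_of_pos hη0] at h1
    have h3 := (abs_le.mp h1).1
    rw [show x1 - η + c = x0 - η by rw [hx1']; ring]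
    rw [show x1 - (x1 - η) = η by ring] at h2
    nlinarith [mul_pos hη0 (sub_pos.mpr hcon)]
  · have h1 := hεs (y := x0 + η) (by rw [Real.dist_eq, show x0 + η - x0 = η by ring, abs_of_pos hη0]; linarith)
    have h2 := hMu x1 (x1 + η) (by linarith)
    rw [show x0 + η - x0 = η by ring, abs_of_pos hη0] at h1
    have h3 := (abs_le.mp h1).2
    rw [show x1 + η + c = x0 + η by rw [hx1']; ring]
    rw [show x1 + η - x1 = η by ring] at h2
    nlinarith [mul_pos hη0 (sub_pos.mpr hcon)]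

end Q241.SN
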