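import Mathlib

set_option autoImplicit false

/-! The Dirichlet series of the logarithm of zeta. -/

namespace Q241.SN

open Set Filter Topology Complex ArithmeticFunction

/-- coefficients of `log ζ` -/
noncomputable def LPc (n : ℕ) : ℂ := (vonMangoldt n : ℂ) / (Real.log n : ℂ)

/-- `log ζ` as a Dirichlet series -/
noncomputable def LP (s : ℂ) : ℂ := LSeries LPc s

lemma LPc_norm (n : ℕ) : ‖LPc n‖ ≤ 1 := by
  unfold LPc
  rw [norm_div, Complex.norm_real, Complex.norm_real, Real.norm_eq_abs, Real.norm_eq_abs,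
    abs_of_nonneg vonMangoldt_nonneg, abs_of_nonneg (Real.log_natCast_nonneg n)]
  exact div_le_one_of_le₀ vonMangoldt_le_log (Real.log_natCast_nonneg n)

lemma LPc_one : LPc 1 = 0 := by
  unfold LPc
  simp

lemma LPc_absc : LSeries.abscissaOfAbsConv LPc ≤ 1 :=
  LSeries.abscissaOfAbsConv_le_of_le_const ⟨1, fun n _ => LPc_norm n⟩

lemma exp_LP {s : ℂ} (hs : 1 < s.re) : exp (LP s) = riemannZeta s :=
  riemannZeta_eq_exp_LSeries hs

lemma hasDerivAt_LP {s : ℂ} (hs : 1 < s.re) :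
    HasDerivAt LP (deriv riemannZeta s / riemannZeta s) s := by
  have h1 : LSeries.abscissaOfAbsConv LPc < s.re := lt_of_le_of_lt LPc_absc (by exact_mod_cast hs)
  have h2 := LSeries_hasDerivAt h1
  have h3 : LSeries (LSeries.logMul LPc) s = LSeries (fun n => (vonMangoldt n : ℂ)) s := by
    refine LSeries_congr (fun {n} hn => ?_) s
    unfold LSeries.logMul LPc
    rcases eq_or_ne n 1 with h | h
    · rw [h]; simp
    · have h4 : (Real.log n : ℂ) ≠ 0 := by
        have : Real.log (n : ℝ) ≠ 0 := by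
          refine (Real.log_pos ?_).ne'
          have : 2 ≤ n := by omega
          exact_mod_cast this
        exact_mod_cast this
      rw [← Complex.natCast_log]
      field_simp
  rw [h3, LSeries_vonMangoldt_eq_deriv_riemannZeta_div hs] at h2
  refine h2.congr_deriv ?_
  rw [neg_div, neg_neg]

lemma LP_real {x : ℝ} : (LP x).im = 0 := by
  have h1 : LP x = ((∑' n : ℕ, (LSeries.term LPc (x : ℂ) n).re : ℝ) : ℂ) := by
    unfold LP LSeries
    rw [Complex.ofReal_tsum]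
    refine tsum_congr fun n => ?_
    rcases eq_or_ne n 0 with h | h
    · rw [h]; simp
    · rw [LSeries.term_of_ne_zero h]
      have h2 : LPc n / (n : ℂ) ^ (x : ℂ) = ((vonMangoldt n / Real.log n / (n : ℝ) ^ x : ℝ) : ℂ) := by
        unfold LPc
        push_cast
        rw [Complex.ofReal_cpow (Nat.cast_nonneg n)]
        simp
      rw [h2, Complex.ofReal_re]
  rw [h1, Complex.ofReal_im]

lemma LP_bound {σ0 : ℝ} (hσ0 : 1 < σ0) : ∃ C : ℝ, 0 < C ∧ ∀ s : ℂ, σ0 ≤ s.re → ‖LP s‖ ≤ C * (2 : ℝ) ^ (-s.re) := by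
  obtain ⟨S, hS⟩ : ∃ S, S = ∑' n : ℕ, 1 / (n : ℝ) ^ σ0 := ⟨_, rfl⟩
  have hsum : Summable fun n : ℕ => 1 / (n : ℝ) ^ σ0 := Real.summable_one_div_nat_rpow.mpr hσ0
  have hS0 : 0 ≤ S := by rw [hS]; exact tsum_nonneg fun n => by positivity
  refine ⟨(2 : ℝ) ^ σ0 * (S + 1), by positivity, fun s hs => ?_⟩
  have hterm : ∀ n : ℕ, ‖LSeries.term LPc s n‖ ≤ (2 : ℝ) ^ σ0 * (2 : ℝ) ^ (-s.re) * (1 / (n : ℝ) ^ σ0) := by
    intro n
    rcases eq_or_ne n 0 with h | h
    · rw [h, LSeries.term_zero, norm_zero]; positivity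
    rcases eq_or_ne n 1 with h1 | h1
    · rw [h1, LSeries.term_of_ne_zero (by norm_num), LPc_one, zero_div, norm_zero]; positivity
    have hn : (2 : ℝ) ≤ n := by
      have : 2 ≤ n := by omega
      exact_mod_cast this
    rw [LSeries.term_of_ne_zero h, norm_div]
    have h2 : ‖(n : ℂ) ^ s‖ = (n : ℝ) ^ s.re := by
      rw [← Complex.ofReal_natCast, Complex.norm_cpow_eq_rpow_re_of_pos (by linarith)]
    rw [h2]
    have h3 : ‖LPc n‖ / (n : ℝ) ^ s.re ≤ 1 / (n : ℝ) ^ s.re := by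
      gcongr
      exact LPc_norm n
    refine h3.trans ?_
    have h4 : (n : ℝ) ^ s.re = (n : ℝ) ^ σ0 * (n : ℝ) ^ (s.re - σ0) := by
      rw [← Real.rpow_add (by linarith)]; congr 1; ring
    have h5 : (2 : ℝ) ^ σ0 * (2 : ℝ) ^ (-s.re) = 1 / (2 : ℝ) ^ (s.re - σ0) := by
      rw [← Real.rpow_add (by norm_num), one_div, ← Real.rpow_neg (by norm_num)]
      congr 1; ring
    have h6 : (2 : ℝ) ^ (s.re - σ0) ≤ (n : ℝ) ^ (s.re - σ0) :=
      Real.rpow_le_rpow (by norm_num) hn (by linarith)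
    rw [h4, h5, one_div_mul_one_div, mul_comm ((2:ℝ) ^ _)]
    refine one_div_le_one_div_of_le (by positivity) ?_
    exact mul_le_mul_of_nonneg_left h6 (by positivity)
  have h7 : ‖LP s‖ ≤ (2 : ℝ) ^ σ0 * (2 : ℝ) ^ (-s.re) * S := by
    unfold LP LSeries
    have h8 : Summable fun n : ℕ => (2 : ℝ) ^ σ0 * (2 : ℝ) ^ (-s.re) * (1 / (n : ℝ) ^ σ0) := hsum.mul_left _
    have h9 := tsum_of_norm_bounded h8.hasSum hterm
    rwa [tsum_mul_left, ← hS] at h9
  refine h7.trans ?_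
  have h10 : 0 ≤ (2 : ℝ) ^ σ0 * (2 : ℝ) ^ (-s.re) := by positivity
  nlinarith

end Q241.SN
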