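import Mathlib
import Pool.Agent.Y22.LM3
import Pool.Agent.H370R2.DirGood
import Pool.Agent.Q241.SN.LP
import Pool.Agent.Q241.SN.LogEx
import Pool.Agent.Q241.SN.Grow1

set_option autoImplicit false

/-! The logarithm of `(s-1)ζ(s)/(s+1)` in the half-plane `Re s > 1/2`, under RH. -/

namespace Q241.SN

open Set Filter Topology Complex Polynomial
open Pool.Agent.H24R2.JP (XX)
open Pool.Agent.H24R2.JP

lemma XX_zero_re (hRH : RiemannHypothesis) {z : ℂ} (h : XX z = 0) : z.re = 0 := by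
  obtain ⟨h1, h2, h3⟩ := Zer.completed_zero z h
  have h4 : riemannZeta (1 / 2 + z) = 0 := by
    rw [riemannZeta_def_of_ne_zero h1, h3, zero_div]
  have hre : (1 / 2 + z : ℂ).re = 1 / 2 + z.re := by simp
  have h5 : ¬∃ n : ℕ, (1 / 2 + z : ℂ) = -2 * (n + 1) := by
    rintro ⟨n, hn⟩
    have h6 := (abs_le.mp (Zer.abs_re_le z h)).1
    have h7 := congrArg Complex.re hn
    rw [hre] at h7
    simp at h7
    have : (0 : ℝ) ≤ n := Nat.cast_nonneg n
    linarith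
  have h6 := hRH (1 / 2 + z) h4 h5 (by intro h7; apply h2; rw [h7]; ring)
  rw [hre] at h6
  linarith

lemma re_XX (hRH : RiemannHypothesis) {z : ℂ} (hz : 0 < z.re) : 0 ≤ (logDeriv XX z).re := by
  obtain ⟨p, hp1, hp2, -⟩ := Pool.Agent.Y22.LM.xx_approx
  have hne : XX z ≠ 0 := fun h => by
    have := XX_zero_re hRH h
    linarith
  have h1 := Complex.logDeriv_tendsto isOpen_univ (mem_univ z) (hp2.tendstoLocallyUniformlyOn (s := univ))
    (Eventually.of_forall fun n => (p n).differentiable.differentiableOn) hne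
  have h2 : Tendsto (fun n => (logDeriv (fun z => (p n).eval z) z).re) atTop (𝓝 (logDeriv XX z).re) :=
    (Complex.continuous_re.tendsto _).comp h1
  refine ge_of_tendsto' h2 fun n => ?_
  have hpz : (p n).eval z ≠ 0 := fun h => hne (hp1 n z h)
  rw [logDeriv_apply, Polynomial.deriv, (IsAlgClosed.splits (p n)).eval_derivative_div_eval_of_ne_zero hpz]
  have h3 : ((Multiset.map (fun r => 1 / (z - r)) (p n).roots).sum).re =
      (Multiset.map (fun r => (1 / (z - r)).re) (p n).roots).sum := by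
    have := map_multiset_sum Complex.reLm (Multiset.map (fun r => 1 / (z - r)) (p n).roots)
    rw [Multiset.map_map] at this
    exact this
  rw [h3]
  refine Multiset.sum_nonneg ?_
  intro y hy
  rw [Multiset.mem_map] at hy
  obtain ⟨r, hr, rfl⟩ := hy
  have h4 : (p n).eval r = 0 := (Polynomial.mem_roots'.mp hr).2
  have h5 := XX_zero_re hRH (hp1 n r h4)
  rw [one_div, Complex.inv_re]
  refine div_nonneg ?_ (Complex.normSq_nonneg _)
  rw [Complex.sub_re, h5]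
  linarith

/-- `(s-1)ζ(s)/(s+1)` at `s = 1/2 + z` -/
noncomputable def ZZ (z : ℂ) : ℂ := XX z * (Gammaℝ (1 / 2 + z))⁻¹ / (4 * (1 / 2 + z) * (3 / 2 + z))

lemma re_half (z : ℂ) : (1 / 2 + z : ℂ).re = 1 / 2 + z.re := by simp
lemma re_half3 (z : ℂ) : (3 / 2 + z : ℂ).re = 3 / 2 + z.re := by simp
lemma im_half (z : ℂ) : (1 / 2 + z : ℂ).im = z.im := by simp

lemma ne_of_re {w : ℂ} (h : 0 < w.re) : w ≠ 0 := by
  intro h0
  rw [h0, Complex.zero_re] at h
  exact lt_irrefl _ h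

lemma GR_ne {z : ℂ} (hz : 0 < z.re) : Gammaℝ (1 / 2 + z) ≠ 0 :=
  Gammaℝ_ne_zero_of_re_pos (by rw [re_half]; linarith)

lemma GR_diff {s : ℂ} (hs : 0 < s.re) : DifferentiableAt ℂ Gammaℝ s := by
  have h1 : Gammaℝ = fun s => ((Gammaℝ s)⁻¹)⁻¹ := by
    funext s; rw [inv_inv]
  rw [h1]
  exact differentiable_Gammaℝ_inv.differentiableAt.inv (inv_ne_zero (Gammaℝ_ne_zero_of_re_pos hs))

lemma ZZ_diff {z : ℂ} (hz : 0 < z.re) : DifferentiableAt ℂ ZZ z := by
  have h1 : DifferentiableAt ℂ XX z := B1h.XX_diff z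
  have h2 : DifferentiableAt ℂ (fun z : ℂ => (Gammaℝ (1 / 2 + z))⁻¹) z := by
    have h3 : DifferentiableAt ℂ (fun z : ℂ => 1 / 2 + z) z := differentiableAt_id.const_add _
    exact DifferentiableAt.comp (g := fun s : ℂ => (Gammaℝ s)⁻¹) z differentiable_Gammaℝ_inv.differentiableAt h3
  have h3 : DifferentiableAt ℂ (fun z : ℂ => 4 * (1 / 2 + z) * (3 / 2 + z)) z := by fun_prop
  refine (h1.mul h2).div h3 ?_
  have h4 : (1 / 2 + z : ℂ) ≠ 0 := ne_of_re (by rw [re_half]; linarith)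
  have h5 : (3 / 2 + z : ℂ) ≠ 0 := ne_of_re (by rw [re_half3]; linarith)
  exact mul_ne_zero (mul_ne_zero (by norm_num) h4) h5

lemma ZZ_ne (hRH : RiemannHypothesis) {z : ℂ} (hz : 0 < z.re) : ZZ z ≠ 0 := by
  have h4 : (1 / 2 + z : ℂ) ≠ 0 := ne_of_re (by rw [re_half]; linarith)
  have h5 : (3 / 2 + z : ℂ) ≠ 0 := ne_of_re (by rw [re_half3]; linarith)
  refine div_ne_zero (mul_ne_zero (fun h => ?_) (inv_ne_zero (GR_ne hz))) (mul_ne_zero (mul_ne_zero (by norm_num) h4) h5)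
  have := XX_zero_re hRH h
  linarith

lemma ZZ_eq {z : ℂ} (hz : 0 < z.re) (h : z ≠ 1 / 2) :
    ZZ z = riemannZeta (1 / 2 + z) * ((z - 1 / 2) / (z + 3 / 2)) := by
  have h4 : (1 / 2 + z : ℂ) ≠ 0 := ne_of_re (by rw [re_half]; linarith)
  have h5 : (3 / 2 + z : ℂ) ≠ 0 := ne_of_re (by rw [re_half3]; linarith)
  have h5' : (z + 3 / 2 : ℂ) ≠ 0 := by rwa [add_comm]
  have h6 : (1 - (1 / 2 + z) : ℂ) ≠ 0 := by
    intro h0
    apply h
    linear_combination -h0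
  unfold ZZ
  rw [Zer.XX_eq z h4 h6, riemannZeta_def_of_ne_zero h4]
  have h7 := GR_ne hz
  have key : ∀ p q G Λ : ℂ, p ≠ 0 → q ≠ 0 → G ≠ 0 →
      (4 * ((z - 1 / 2) * p)) * Λ * G⁻¹ / (4 * p * q) = Λ / G * ((z - 1 / 2) / q) := by
    intro p q G Λ hp hq hG
    field_simp
  have e1 : (4 * z ^ 2 - 1 : ℂ) = 4 * ((z - 1 / 2) * (1 / 2 + z)) := by ring
  have e2 : (z + 3 / 2 : ℂ) = 3 / 2 + z := by ring
  rw [e1, e2]
  exact key _ _ _ _ h4 h5 h7

lemma logDeriv_ZZ (hRH : RiemannHypothesis) {z : ℂ} (hz : 0 < z.re) :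
    deriv ZZ z / ZZ z = logDeriv XX z - logDeriv Gammaℝ (1 / 2 + z) - 1 / (1 / 2 + z) - 1 / (3 / 2 + z) := by
  have h4 : (1 / 2 + z : ℂ) ≠ 0 := ne_of_re (by rw [re_half]; linarith)
  have h5 : (3 / 2 + z : ℂ) ≠ 0 := ne_of_re (by rw [re_half3]; linarith)
  have hX : XX z ≠ 0 := fun h => by
    have := XX_zero_re hRH h
    linarith
  have hG := GR_ne hz
  have d1 : HasDerivAt XX (deriv XX z) z := (B1h.XX_diff z).hasDerivAt
  have d2 : HasDerivAt (fun z : ℂ => Gammaℝ (1 / 2 + z)) (deriv Gammaℝ (1 / 2 + z)) z := by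
    have := (GR_diff (s := 1 / 2 + z) (by rw [re_half]; linarith)).hasDerivAt
    exact this.comp_const_add (1 / 2 : ℂ) z
  have e1 : HasDerivAt (fun z : ℂ => (1 / 2 + z : ℂ)) 1 z := (hasDerivAt_id z).const_add _
  have e2 : HasDerivAt (fun z : ℂ => (3 / 2 + z : ℂ)) 1 z := (hasDerivAt_id z).const_add _
  have key : ∀ (A B C D : ℂ → ℂ) (A' B' C' D' : ℂ), HasDerivAt A A' z → HasDerivAt B B' z →
      HasDerivAt C C' z → HasDerivAt D D' z → A z ≠ 0 → B z ≠ 0 → C z ≠ 0 → D z ≠ 0 →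
      deriv (fun z => A z * (B z)⁻¹ / (4 * C z * D z)) z / (A z * (B z)⁻¹ / (4 * C z * D z)) =
        A' / A z - B' / B z - C' / C z - D' / D z := by
    intro A B C D A' B' C' D' hA hB hC hD a b c d
    have h1 := (hA.mul (hB.inv b)).div ((hC.const_mul (4 : ℂ)).mul hD) (mul_ne_zero (mul_ne_zero (by norm_num) c) d)
    have h2 : deriv (fun z => A z * (B z)⁻¹ / (4 * C z * D z)) z = _ := h1.deriv
    rw [h2]
    simp only [Pi.mul_apply, Pi.inv_apply]
    field_simp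
    ring
  exact key XX (fun z => Gammaℝ (1 / 2 + z)) (fun z => 1 / 2 + z) (fun z => 3 / 2 + z) _ _ _ _ d1 d2 e1 e2 hX hG h4 h5

end Q241.SN
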