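import Mathlib
import Pool.Agent.Q241.SN.Gdef

set_option autoImplicit false

/-! The logarithm of `(s-1)ζ(s)/(s+1)`: existence and properties. -/

namespace Q241.SN

open Set Filter Topology Complex
open Pool.Agent.H24R2.JP (XX)
open Pool.Agent.H24R2.JP

lemma logDeriv_ZZ' (hRH : RiemannHypothesis) {z : ℂ} (hz : 0 < z.re) (h : z ≠ 1 / 2) :
    deriv ZZ z / ZZ z = deriv riemannZeta (1 / 2 + z) / riemannZeta (1 / 2 + z) + 1 / (z - 1 / 2) - 1 / (z + 3 / 2) := by
  have h5' : (z + 3 / 2 : ℂ) ≠ 0 := by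
    rw [add_comm]; exact ne_of_re (by rw [re_half3]; linarith)
  have h6 : (z - 1 / 2 : ℂ) ≠ 0 := sub_ne_zero.mpr h
  have hne := ZZ_ne hRH hz
  have hZ := ZZ_eq hz h
  have hζ : riemannZeta (1 / 2 + z) ≠ 0 := by
    intro h0
    rw [hZ, h0, zero_mul] at hne
    exact hne rfl
  have hev : ZZ =ᶠ[𝓝 z] fun z => riemannZeta (1 / 2 + z) * ((z - 1 / 2) / (z + 3 / 2)) := by
    have h1 : ∀ᶠ w : ℂ in 𝓝 z, 0 < w.re := (isOpen_lt continuous_const Complex.continuous_re).mem_nhds hz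
    have h2 : ∀ᶠ w : ℂ in 𝓝 z, w ≠ 1 / 2 := isOpen_ne.mem_nhds h
    filter_upwards [h1, h2] with w hw hw2 using ZZ_eq hw hw2
  have d1 : HasDerivAt (fun z : ℂ => riemannZeta (1 / 2 + z)) (deriv riemannZeta (1 / 2 + z)) z := by
    have h1 : (1 / 2 + z : ℂ) ≠ 1 := by
      intro h0; apply h; linear_combination h0
    exact (differentiableAt_riemannZeta h1).hasDerivAt.comp_const_add (1 / 2 : ℂ) z
  have e1 : HasDerivAt (fun z : ℂ => (z - 1 / 2 : ℂ)) 1 z := (hasDerivAt_id z).sub_const _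
  have e2 : HasDerivAt (fun z : ℂ => (z + 3 / 2 : ℂ)) 1 z := (hasDerivAt_id z).add_const _
  have d2 := d1.mul (e1.div e2 h5')
  have d3 : deriv ZZ z = _ := (d2.congr_of_eventuallyEq hev).deriv
  rw [d3, hZ]
  simp only [Pi.div_apply]
  have key : ∀ p q A A' : ℂ, p ≠ 0 → q ≠ 0 → A ≠ 0 →
      (A' * (p / q) + A * ((1 * q - p * 1) / q ^ 2)) / (A * (p / q)) = A' / A + 1 / p - 1 / q := by
    intro p q A A' hp hq hA
    field_simp
    ring
  exact key _ _ _ _ h6 h5' hζ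

lemma slit_half {z : ℂ} (hz : 1 / 2 < z.re) : (z - 1 / 2) / (z + 3 / 2) ∈ slitPlane := by
  refine Or.inl ?_
  have h5' : (z + 3 / 2 : ℂ) ≠ 0 := by
    rw [add_comm]; exact ne_of_re (by rw [re_half3]; linarith)
  rw [Complex.div_re]
  have h1 : 0 < normSq (z + 3 / 2) := Complex.normSq_pos.mpr h5'
  have e1 : (z - 1 / 2 : ℂ).re = z.re - 1 / 2 := by simp
  have e2 : (z - 1 / 2 : ℂ).im = z.im := by simp
  have e3 : (z + 3 / 2 : ℂ).re = z.re + 3 / 2 := by simp
  have e4 : (z + 3 / 2 : ℂ).im = z.im := by simp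
  rw [e1, e2, e3, e4, ← add_div]
  refine div_pos ?_ h1
  nlinarith [sq_nonneg z.im]

/-- derivative of the correction term -/
lemma hasDerivAt_E {z : ℂ} (hs : (z - 1 / 2) / (z + 3 / 2) ∈ slitPlane) (h5 : (z + 3 / 2 : ℂ) ≠ 0) :
    HasDerivAt (fun z : ℂ => Complex.log ((z - 1 / 2) / (z + 3 / 2))) (1 / (z - 1 / 2) - 1 / (z + 3 / 2)) z := by
  have h6 : (z - 1 / 2 : ℂ) ≠ 0 := by
    intro h0
    rw [h0, zero_div] at hs
    exact Complex.zero_notMem_slitPlane hs
  have e1 : HasDerivAt (fun z : ℂ => (z - 1 / 2 : ℂ)) 1 z := (hasDerivAt_id z).sub_const _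
  have e2 : HasDerivAt (fun z : ℂ => (z + 3 / 2 : ℂ)) 1 z := (hasDerivAt_id z).add_const _
  have h1 := (e1.div e2 h5).clog hs
  refine h1.congr_deriv ?_
  simp only [Pi.div_apply]
  have key : ∀ p q : ℂ, p ≠ 0 → q ≠ 0 → ((1 * q - p * 1) / q ^ 2) / (p / q) = 1 / p - 1 / q := by
    intro p q hp hq
    field_simp
  exact key _ _ h6 h5

/-- the logarithm -/
theorem exists_g (hRH : RiemannHypothesis) : ∃ g : ℂ → ℂ,
    (∀ z : ℂ, 0 < z.re → HasDerivAt g (deriv ZZ z / ZZ z) z) ∧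
    (∀ z : ℂ, 0 < z.re → exp (g z) = ZZ z) ∧
    (∀ z : ℂ, 1 / 2 < z.re → g z = LP (1 / 2 + z) + Complex.log ((z - 1 / 2) / (z + 3 / 2))) ∧
    (∀ x : ℝ, 0 < x → (g x).im = 0) := by
  obtain ⟨f, hf1, hf2⟩ := exists_log (fun z hz => ZZ_diff hz) (fun z hz => ZZ_ne hRH hz)
  obtain ⟨c, hc⟩ : ∃ c : ℂ, c = LP 2 + Complex.log (1 / 3) - f (3 / 2) := ⟨_, rfl⟩
  obtain ⟨g, hg⟩ : ∃ g : ℂ → ℂ, g = fun z => f z + c := ⟨_, rfl⟩
  have hre32 : 0 < ((3 / 2 : ℂ)).re := by norm_num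
  have hec : exp c = 1 := by
    rw [hc, exp_sub, exp_add, Complex.exp_log (by norm_num), exp_LP (by norm_num), hf2 _ hre32,
      ZZ_eq hre32 (by norm_num)]
    have h1 : (1 / 2 + 3 / 2 : ℂ) = 2 := by norm_num
    rw [h1]
    have h2 : riemannZeta 2 ≠ 0 := riemannZeta_ne_zero_of_one_lt_re (by norm_num)
    have h3 : ((3 / 2 - 1 / 2 : ℂ) / (3 / 2 + 3 / 2)) = 1 / 3 := by norm_num
    rw [h3]
    field_simp
  have g1 : ∀ z : ℂ, 0 < z.re → HasDerivAt g (deriv ZZ z / ZZ z) z := fun z hz => by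
    rw [hg]; exact (hf1 z hz).add_const _
  have g2 : ∀ z : ℂ, 0 < z.re → exp (g z) = ZZ z := fun z hz => by
    rw [hg]; simp only; rw [exp_add, hf2 z hz, hec, mul_one]
  have g3 : ∀ z : ℂ, 1 / 2 < z.re → g z = LP (1 / 2 + z) + Complex.log ((z - 1 / 2) / (z + 3 / 2)) := by
    obtain ⟨U, hU⟩ : ∃ U : Set ℂ, U = {z : ℂ | 1 / 2 < z.re} := ⟨_, rfl⟩
    have hUo : IsOpen U := by rw [hU]; exact isOpen_lt continuous_const Complex.continuous_re
    have hUc : Convex ℝ U := by rw [hU]; exact convex_halfSpace_re_gt (1 / 2)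
    have hd : ∀ z ∈ U, HasDerivAt (fun z => g z - (LP (1 / 2 + z) + Complex.log ((z - 1 / 2) / (z + 3 / 2)))) 0 z := by
      intro z hz
      rw [hU, Set.mem_ofPred_eq] at hz
      have hz0 : 0 < z.re := by linarith
      have hne : z ≠ 1 / 2 := by
        intro h0; rw [h0] at hz; norm_num at hz
      have h5' : (z + 3 / 2 : ℂ) ≠ 0 := by
        rw [add_comm]; exact ne_of_re (by rw [re_half3]; linarith)
      have d1 := g1 z hz0
      have d2 : HasDerivAt (fun z => LP (1 / 2 + z)) (deriv riemannZeta (1 / 2 + z) / riemannZeta (1 / 2 + z)) z :=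
        (hasDerivAt_LP (s := 1 / 2 + z) (by rw [re_half]; linarith)).comp_const_add (1 / 2 : ℂ) z
      have d3 := hasDerivAt_E (slit_half hz) h5'
      have d4 := d1.sub (d2.add d3)
      refine d4.congr_deriv ?_
      rw [logDeriv_ZZ' hRH hz0 hne]
      ring
    intro z hz
    have h32 : (3 / 2 : ℂ) ∈ U := by rw [hU, Set.mem_ofPred_eq]; norm_num
    have hzU : z ∈ U := by rw [hU]; exact hz
    have h1 := hUc.is_const_of_fderivWithin_eq_zero (𝕜 := ℂ)
      (f := fun z => g z - (LP (1 / 2 + z) + Complex.log ((z - 1 / 2) / (z + 3 / 2))))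
      (fun w hw => (hd w hw).differentiableAt.differentiableWithinAt)
      (fun w hw => by
        rw [fderivWithin_of_isOpen hUo hw, (hd w hw).hasFDerivAt.fderiv]
        ext
        simp) hzU h32
    have h2 : g (3 / 2) = LP 2 + Complex.log (1 / 3) := by
      rw [hg]; simp only; rw [hc]; ring
    have h3 : ((3 / 2 - 1 / 2 : ℂ) / (3 / 2 + 3 / 2)) = 1 / 3 := by norm_num
    have h4 : (1 / 2 + 3 / 2 : ℂ) = 2 := by norm_num
    rw [h2, h3, h4, sub_self] at h1
    exact sub_eq_zero.mp h1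
  refine ⟨g, g1, g2, g3, ?_⟩
  -- reality
  have hZr : ∀ x : ℝ, 0 < x → (ZZ x).im = 0 := by
    intro x hx
    rcases eq_or_ne x (1 / 2) with h | h
    · have e1 : ((x : ℝ) : ℂ) = 1 / 2 := by rw [h]; push_cast; norm_num
      unfold ZZ
      rw [e1, Zer.XX_half]
      have e2 : (1 / 2 + 1 / 2 : ℂ) = 1 := by norm_num
      rw [e2, Gammaℝ_one]
      norm_num
    · have h1 : (x : ℂ) ≠ 1 / 2 := by
        intro h0; apply h
        have := congrArg Complex.re h0
        simpa using this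
      rw [ZZ_eq (by rwa [Complex.ofReal_re]) h1]
      have h2 : riemannZeta (1 / 2 + (x : ℂ)) = (((riemannZeta (1 / 2 + (x : ℂ))).re : ℝ) : ℂ) := by
        have h3 := riemannZeta_conj (1 / 2 + (x : ℂ))
        have h4 : (starRingEnd ℂ) (1 / 2 + (x : ℂ)) = 1 / 2 + (x : ℂ) := by
          have : (1 / 2 + (x : ℂ)) = ((1 / 2 + x : ℝ) : ℂ) := by push_cast; ring
          rw [this, Complex.conj_ofReal]
        rw [h4] at h3
        exact (Complex.conj_eq_iff_re.mp h3.symm).symm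
      have h5 : ((x : ℂ) - 1 / 2) / ((x : ℂ) + 3 / 2) = (((x - 1 / 2) / (x + 3 / 2) : ℝ) : ℂ) := by push_cast; ring
      rw [h2, h5, ← Complex.ofReal_mul, Complex.ofReal_im]
  have hsin : ∀ x : ℝ, 0 < x → Real.sin (g x).im = 0 := by
    intro x hx
    have h1 := g2 x (by rwa [Complex.ofReal_re])
    have h2 := hZr x hx
    rw [← h1, Complex.exp_im] at h2
    rcases mul_eq_zero.mp h2 with h3 | h3
    · exact absurd h3 (Real.exp_pos _).ne'
    · exact h3
  have hcont : ContinuousOn (fun x : ℝ => (g x).im) (Ioi 0) := by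
    intro x hx
    have hx' : 0 < x := hx
    have h1 := (g1 x (by rwa [Complex.ofReal_re])).continuousAt
    have h2 : ContinuousAt (fun x : ℝ => g x) x := ContinuousAt.comp (f := fun x : ℝ => (x : ℂ)) h1 (by fun_prop)
    exact (Complex.continuous_im.continuousAt.comp h2).continuousWithinAt
  have h32 : (g ((3 / 2 : ℝ) : ℂ)).im = 0 := by
    rw [g3 _ (by rw [Complex.ofReal_re]; norm_num), Complex.add_im]
    have e1 : (1 / 2 + ((3 / 2 : ℝ) : ℂ)) = ((2 : ℝ) : ℂ) := by push_cast; norm_num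
    have e2 : (((3 / 2 : ℝ) : ℂ) - 1 / 2) / (((3 / 2 : ℝ) : ℂ) + 3 / 2) = ((1 / 3 : ℝ) : ℂ) := by push_cast; norm_num
    rw [e1, e2, LP_real, ← Complex.ofReal_log (by norm_num), Complex.ofReal_im, add_zero]
  intro x hx
  by_contra hne
  -- intermediate value
  have hiv : ∀ v : ℝ, v ∈ uIcc ((g ((3 / 2 : ℝ) : ℂ)).im) ((g x).im) → Real.sin v = 0 := by
    intro v hv
    have hsub : uIcc (3 / 2 : ℝ) x ⊆ Ioi 0 := by
      intro y hy
      have := hy.1
      have h0 : 0 < min (3 / 2 : ℝ) x := lt_min (by norm_num) hx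
      exact lt_of_lt_of_le h0 this
    have := intermediate_value_uIcc (hcont.mono hsub) hv
    obtain ⟨y, hy, hy2⟩ := this
    rw [← hy2]
    exact hsin y (hsub hy)
  rw [h32] at hiv
  rcases lt_or_gt_of_ne hne with h | h
  · have h1 := hiv (max ((g x).im) (-1)) (by
      rw [uIcc_of_ge h.le]
      exact ⟨le_max_left _ _, max_le h.le (by norm_num)⟩)
    have h2 : Real.sin (max ((g x).im) (-1)) < 0 := by
      refine Real.sin_neg_of_neg_of_neg_pi_lt (max_lt h (by norm_num)) ?_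
      exact lt_of_lt_of_le (by linarith [Real.pi_gt_three]) (le_max_right _ _)
    linarith
  · have h1 := hiv (min ((g x).im) 1) (by
      rw [uIcc_of_le h.le]
      exact ⟨le_min h.le (by norm_num), min_le_left _ _⟩)
    have h2 : 0 < Real.sin (min ((g x).im) 1) := by
      refine Real.sin_pos_of_pos_of_lt_pi (lt_min h (by norm_num)) ?_
      exact lt_of_le_of_lt (min_le_right _ _) (by linarith [Real.pi_gt_three])
    linarith

end Q241.SN
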