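import Mathlib

set_option autoImplicit false

/-! Iterated antiderivatives of a holomorphic function in the quadrant. -/

namespace Q241.SN

open Set Filter Topology Complex MeasureTheory
open scoped Nat

/-- functions holomorphic in the open first quadrant, decaying to the right -/
structure LH (L : ℂ → ℂ) : Prop where
  diff : ∀ z : ℂ, 0 < z.re → 0 < z.im → DifferentiableAt ℂ L z
  dec : ∃ C : ℝ, 0 < C ∧ ∀ z : ℂ, 1 ≤ z.re → 0 < z.im → ‖L z‖ ≤ C * Real.exp (-(z.re / 2))

/-- the moments -/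
noncomputable def MM (L : ℂ → ℂ) (k : ℕ) (z : ℂ) : ℂ :=
  ∫ x in Ioi (0 : ℝ), ((x ^ k / k ! : ℝ) : ℂ) * L (z + x)

variable {L : ℂ → ℂ}

lemma LH.local_bound (h : LH L) {z0 : ℂ} (hre : 0 < z0.re) (him : 0 < z0.im) :
    ∃ r C : ℝ, 0 < r ∧ 0 ≤ C ∧ (∀ w : ℂ, ‖w - z0‖ ≤ 2 * r → 0 < w.re ∧ 0 < w.im) ∧
      ∀ w : ℂ, ‖w - z0‖ ≤ 2 * r → ∀ x : ℝ, 0 ≤ x → ‖L (w + x)‖ ≤ C * Real.exp (-(x / 2)) := by
  obtain ⟨r, hr⟩ : ∃ r, r = min z0.re z0.im / 4 := ⟨_, rfl⟩
  have hr0 : 0 < r := by rw [hr]; exact div_pos (lt_min hre him) (by norm_num)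
  have hr1 : 4 * r ≤ z0.re := by rw [hr]; linarith [min_le_left z0.re z0.im]
  have hr2 : 4 * r ≤ z0.im := by rw [hr]; linarith [min_le_right z0.re z0.im]
  have hw : ∀ w : ℂ, ‖w - z0‖ ≤ 2 * r → 0 < w.re ∧ 0 < w.im := by
    intro w hw
    have h1 := (Complex.abs_re_le_norm (w - z0)).trans hw
    have h2 := (Complex.abs_im_le_norm (w - z0)).trans hw
    rw [Complex.sub_re] at h1
    rw [Complex.sub_im] at h2
    rw [abs_le] at h1 h2
    exact ⟨by linarith [h1.1], by linarith [h2.1]⟩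
  have hK : IsCompact (Metric.closedBall z0 (2 * r) ×ˢ Icc (0 : ℝ) 1) :=
    (isCompact_closedBall z0 (2 * r)).prod isCompact_Icc
  have hc : ContinuousOn (fun p : ℂ × ℝ => L (p.1 + p.2)) (Metric.closedBall z0 (2 * r) ×ˢ Icc (0 : ℝ) 1) := by
    rintro ⟨w, x⟩ ⟨h1, h2⟩
    have h3 := hw w (by rw [← dist_eq_norm]; exact h1)
    have h4 : ContinuousAt L (w + x) := by
      refine (h.diff (w + x) ?_ ?_).continuousAt
      · rw [Complex.add_re, Complex.ofReal_re]; linarith [h2.1]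
      · rw [Complex.add_im, Complex.ofReal_im]; linarith
    have h5 : ContinuousAt (fun p : ℂ × ℝ => p.1 + (p.2 : ℂ)) (w, x) := by fun_prop
    have h6 : ContinuousAt (L ∘ fun p : ℂ × ℝ => p.1 + (p.2 : ℂ)) (w, x) := ContinuousAt.comp h4 h5
    exact h6.continuousWithinAt
  obtain ⟨B, hB⟩ := hK.exists_bound_of_continuousOn hc
  obtain ⟨C, hC, hdec⟩ := h.dec
  refine ⟨r, C + |B| * Real.exp (1 / 2), hr0, by positivity, hw, fun w hw' x hx => ?_⟩
  have hwp := hw w hw'
  rcases le_or_gt x 1 with hx1 | hx1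
  · have h1 := hB (w, x) ⟨by rw [Metric.mem_closedBall, dist_eq_norm]; exact hw', ⟨hx, hx1⟩⟩
    have h2 : (1 : ℝ) ≤ Real.exp (1 / 2) * Real.exp (-(x / 2)) := by
      rw [← Real.exp_add]; exact Real.one_le_exp (by linarith)
    have h3 := le_abs_self B
    have h4 := abs_nonneg B
    have h5 : 0 ≤ C * Real.exp (-(x / 2)) := by positivity
    calc ‖L (w + x)‖ ≤ B := h1
      _ ≤ |B| * 1 := by linarith
      _ ≤ |B| * (Real.exp (1 / 2) * Real.exp (-(x / 2))) := mul_le_mul_of_nonneg_left h2 h4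
      _ ≤ _ := by linarith
  · have h1 := hdec (w + x) (by rw [Complex.add_re, Complex.ofReal_re]; linarith)
      (by rw [Complex.add_im, Complex.ofReal_im]; linarith)
    rw [Complex.add_re, Complex.ofReal_re] at h1
    have h2 : Real.exp (-((w.re + x) / 2)) ≤ Real.exp (-(x / 2)) := Real.exp_le_exp.mpr (by linarith)
    have h3 : 0 ≤ |B| * Real.exp (1 / 2) * Real.exp (-(x / 2)) := by positivity
    calc ‖L (w + x)‖ ≤ C * Real.exp (-((w.re + x) / 2)) := h1
      _ ≤ C * Real.exp (-(x / 2)) := mul_le_mul_of_nonneg_left h2 hC.le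
      _ ≤ _ := by linarith

/-- integrability of the model -/
lemma integrable_pow_exp (k : ℕ) {b : ℝ} (hb : 0 < b) :
    IntegrableOn (fun x : ℝ => x ^ k * Real.exp (-(b * x))) (Ioi 0) := by
  have h := integrableOn_rpow_mul_exp_neg_mul_rpow (s := k) (p := 1) (b := b)
    (by have : (0:ℝ) ≤ k := Nat.cast_nonneg k; linarith) one_pos hb
  refine h.congr_fun (fun x hx => ?_) measurableSet_Ioi
  simp only [Real.rpow_natCast, Real.rpow_one, neg_mul]

lemma integral_pow_exp (k : ℕ) {b : ℝ} (hb : 0 < b) :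
    ∫ x in Ioi (0 : ℝ), x ^ k / k ! * Real.exp (-(b * x)) = 1 / b ^ (k + 1) := by
  have h := Real.integral_rpow_mul_exp_neg_mul_Ioi (a := k + 1) (r := b) (by positivity) hb
  have h1 : ∫ x in Ioi (0 : ℝ), x ^ k / k ! * Real.exp (-(b * x)) =
      (∫ t in Ioi (0 : ℝ), t ^ ((k : ℝ) + 1 - 1) * Real.exp (-(b * t))) / k ! := by
    rw [← integral_div]
    refine setIntegral_congr_fun measurableSet_Ioi fun x hx => ?_
    simp only [add_sub_cancel_right, Real.rpow_natCast]
    ring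
  rw [h1, h, Real.Gamma_nat_eq_factorial]
  have h2 : ((k ! : ℕ) : ℝ) ≠ 0 := by exact_mod_cast Nat.factorial_ne_zero k
  rw [mul_div_assoc, div_self h2, mul_one]
  have h3 : (k : ℝ) + 1 = ((k + 1 : ℕ) : ℝ) := by push_cast; ring
  rw [h3, Real.rpow_natCast, one_div, one_div, inv_pow]

lemma LH.meas (h : LH L) {z : ℂ} (hre : 0 < z.re) (him : 0 < z.im) (k : ℕ) :
    AEStronglyMeasurable (fun x : ℝ => ((x ^ k / k ! : ℝ) : ℂ) * L (z + x)) (volume.restrict (Ioi 0)) := by
  refine ContinuousOn.aestronglyMeasurable ?_ measurableSet_Ioi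
  intro x hx
  have hx' : 0 < x := hx
  have h4 : ContinuousAt L (z + x) := by
    refine (h.diff (z + x) ?_ ?_).continuousAt
    · rw [Complex.add_re, Complex.ofReal_re]; linarith
    · rw [Complex.add_im, Complex.ofReal_im]; linarith
  have h5 : ContinuousAt (fun x : ℝ => z + (x : ℂ)) x := by fun_prop
  have h6 : ContinuousAt (L ∘ fun x : ℝ => z + (x : ℂ)) x := ContinuousAt.comp h4 h5
  have h7 : ContinuousAt (fun x : ℝ => ((x ^ k / k ! : ℝ) : ℂ)) x := by fun_prop
  exact (h7.mul h6).continuousWithinAt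

lemma LH.integrable (h : LH L) {z : ℂ} (hre : 0 < z.re) (him : 0 < z.im) (k : ℕ) :
    IntegrableOn (fun x : ℝ => ((x ^ k / k ! : ℝ) : ℂ) * L (z + x)) (Ioi 0) := by
  obtain ⟨r, C, hr, hC, hw, hb⟩ := h.local_bound hre him
  have h1 := ((integrable_pow_exp k (b := 1 / 2) (by norm_num)).const_mul (C / k !))
  refine Integrable.mono' h1 (h.meas hre him k) ?_
  refine (ae_restrict_iff' measurableSet_Ioi).mpr (Eventually.of_forall fun x hx => ?_)
  have hx' : 0 < x := hx
  have h2 := hb z (by simp; positivity) x hx'.le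
  rw [norm_mul, Complex.norm_real, Real.norm_eq_abs, abs_of_nonneg (by positivity)]
  have h3 : (0:ℝ) < k ! := by exact_mod_cast Nat.factorial_pos k
  calc x ^ k / k ! * ‖L (z + x)‖ ≤ x ^ k / k ! * (C * Real.exp (-(x / 2))) :=
        mul_le_mul_of_nonneg_left h2 (by positivity)
    _ = C / k ! * (x ^ k * Real.exp (-(1 / 2 * x))) := by
        rw [show 1 / 2 * x = x / 2 by ring]; ring

/-- derivative under the integral -/
lemma LH.hasDerivAt' (h : LH L) {z0 : ℂ} (hre : 0 < z0.re) (him : 0 < z0.im) (k : ℕ) :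
    IntegrableOn (fun x : ℝ => ((x ^ k / k ! : ℝ) : ℂ) * deriv L (z0 + x)) (Ioi 0) ∧
    HasDerivAt (MM L k) (∫ x in Ioi (0 : ℝ), ((x ^ k / k ! : ℝ) : ℂ) * deriv L (z0 + x)) z0 := by
  obtain ⟨r, C, hr, hC, hw, hb⟩ := h.local_bound hre him
  have hdd : ∀ w : ℂ, ‖w - z0‖ ≤ 2 * r → ∀ x : ℝ, 0 ≤ x → DifferentiableAt ℂ L (w + x) := by
    intro w hw' x hx
    have h3 := hw w hw'
    refine h.diff (w + x) ?_ ?_
    · rw [Complex.add_re, Complex.ofReal_re]; linarith
    · rw [Complex.add_im, Complex.ofReal_im]; linarith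
  have hder : ∀ w : ℂ, ‖w - z0‖ ≤ r → ∀ x : ℝ, 0 ≤ x → ‖deriv L (w + x)‖ ≤ C * Real.exp (-(x / 2)) / r := by
    intro w hw' x hx
    have hin : ∀ v : ℂ, ‖v - (w + x)‖ ≤ r → ‖v - x - z0‖ ≤ 2 * r := by
      intro v hv
      have : v - x - z0 = (v - (w + x)) + (w - z0) := by ring
      rw [this]
      exact (norm_add_le _ _).trans (by linarith)
    refine norm_deriv_le_of_forall_mem_sphere_norm_le hr ?_ ?_
    · refine DifferentiableOn.diffContOnCl fun v hv => ?_
      rw [closure_ball _ hr.ne', Metric.mem_closedBall, dist_eq_norm] at hv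
      have := hdd (v - x) (hin v hv) x hx
      rw [sub_add_cancel] at this
      exact this.differentiableWithinAt
    · intro v hv
      rw [mem_sphere_iff_norm] at hv
      have := hb (v - x) (hin v hv.le) x hx
      rwa [sub_add_cancel] at this
  have h3 : (0:ℝ) < k ! := by exact_mod_cast Nat.factorial_pos k
  have key := hasDerivAt_integral_of_dominated_loc_of_deriv_le (μ := volume.restrict (Ioi (0:ℝ)))
    (F := fun (w : ℂ) (x : ℝ) => ((x ^ k / k ! : ℝ) : ℂ) * L (w + x))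
    (F' := fun (w : ℂ) (x : ℝ) => ((x ^ k / k ! : ℝ) : ℂ) * deriv L (w + x))
    (bound := fun x : ℝ => C / k ! / r * (x ^ k * Real.exp (-(1 / 2 * x)))) (x₀ := z0)
    (s := Metric.ball z0 r) (Metric.ball_mem_nhds z0 hr) ?_ (h.integrable hre him k) ?_ ?_ ?_ ?_
  · exact key
  · filter_upwards [Metric.ball_mem_nhds z0 hr] with w hw'
    rw [Metric.mem_ball, dist_eq_norm] at hw'
    have := hw w (by linarith)
    exact h.meas this.1 this.2 k
  · refine ContinuousOn.aestronglyMeasurable ?_ measurableSet_Ioi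
    intro x hx
    have hx' : 0 < x := hx
    have hopen : IsOpen {z : ℂ | 0 < z.re ∧ 0 < z.im} :=
      (isOpen_lt continuous_const Complex.continuous_re).inter (isOpen_lt continuous_const Complex.continuous_im)
    have hdo : DifferentiableOn ℂ L {z : ℂ | 0 < z.re ∧ 0 < z.im} := fun z hz => (h.diff z hz.1 hz.2).differentiableWithinAt
    have h4 : ContinuousAt (deriv L) (z0 + x) := by
      have h5 := (hdo.deriv hopen).continuousOn
      refine h5.continuousAt (hopen.mem_nhds ⟨?_, ?_⟩)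
      · rw [Complex.add_re, Complex.ofReal_re]; linarith
      · rw [Complex.add_im, Complex.ofReal_im]; linarith
    have h5 : ContinuousAt (fun x : ℝ => z0 + (x : ℂ)) x := by fun_prop
    have h6 : ContinuousAt (deriv L ∘ fun x : ℝ => z0 + (x : ℂ)) x := ContinuousAt.comp h4 h5
    have h7 : ContinuousAt (fun x : ℝ => ((x ^ k / k ! : ℝ) : ℂ)) x := by fun_prop
    exact (h7.mul h6).continuousWithinAt
  · refine (ae_restrict_iff' measurableSet_Ioi).mpr (Eventually.of_forall fun x hx w hw' => ?_)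
    have hx' : 0 < x := hx
    rw [Metric.mem_ball, dist_eq_norm] at hw'
    have h2 := hder w hw'.le x hx'.le
    rw [norm_mul, Complex.norm_real, Real.norm_eq_abs, abs_of_nonneg (by positivity)]
    calc x ^ k / k ! * ‖deriv L (w + x)‖ ≤ x ^ k / k ! * (C * Real.exp (-(x / 2)) / r) :=
          mul_le_mul_of_nonneg_left h2 (by positivity)
      _ = C / k ! / r * (x ^ k * Real.exp (-(1 / 2 * x))) := by
          rw [show 1 / 2 * x = x / 2 by ring]; ring
  · exact (integrable_pow_exp k (b := 1 / 2) (by norm_num)).const_mul _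
  · refine (ae_restrict_iff' measurableSet_Ioi).mpr (Eventually.of_forall fun x hx w hw' => ?_)
    have hx' : 0 < x := hx
    rw [Metric.mem_ball, dist_eq_norm] at hw'
    have h2 := (hdd w (by linarith) x hx'.le).hasDerivAt
    exact (h2.comp_add_const w (x : ℂ)).const_mul _

lemma LH.tendsto_zero (h : LH L) {z0 : ℂ} (hre : 0 < z0.re) (him : 0 < z0.im) (k : ℕ) :
    Tendsto (fun x : ℝ => ((x ^ k / k ! : ℝ) : ℂ) * L (z0 + x)) atTop (𝓝 0) := by
  obtain ⟨r, C, hr, hC, hw, hb⟩ := h.local_bound hre him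
  have h1 : Tendsto (fun x : ℝ => C / k ! * (x ^ k * Real.exp (-(1 / 2) * x))) atTop (𝓝 0) := by
    have h2 := tendsto_rpow_mul_exp_neg_mul_atTop_nhds_zero (k : ℝ) (1 / 2) (by norm_num)
    have h3 := h2.const_mul (C / k !)
    rw [mul_zero] at h3
    refine h3.congr fun x => ?_
    rw [Real.rpow_natCast]
  refine squeeze_zero_norm' ?_ h1
  filter_upwards [eventually_ge_atTop 0] with x hx
  have h2 := hb z0 (by simp; positivity) x hx
  rw [norm_mul, Complex.norm_real, Real.norm_eq_abs, abs_of_nonneg (by positivity)]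
  calc x ^ k / k ! * ‖L (z0 + x)‖ ≤ x ^ k / k ! * (C * Real.exp (-(x / 2))) :=
        mul_le_mul_of_nonneg_left h2 (by positivity)
    _ = C / k ! * (x ^ k * Real.exp (-(1 / 2) * x)) := by
        rw [show -(1 / 2) * x = -(x / 2) by ring]; ring

lemma LH.hasDerivAt_x (h : LH L) {z0 : ℂ} (hre : 0 < z0.re) (him : 0 < z0.im) {x : ℝ} (hx : 0 ≤ x) :
    HasDerivAt (fun x : ℝ => L (z0 + x)) (deriv L (z0 + x)) x := by
  have h1 : DifferentiableAt ℂ L (z0 + x) := h.diff (z0 + x)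
    (by rw [Complex.add_re, Complex.ofReal_re]; linarith) (by rw [Complex.add_im, Complex.ofReal_im]; linarith)
  have h2 : HasDerivAt (fun w : ℂ => L (z0 + w)) (deriv L (z0 + x)) (x : ℂ) := h1.hasDerivAt.comp_const_add z0 (x : ℂ)
  exact h2.comp_ofReal

/-- the moments are antiderivatives of each other -/
theorem LH.deriv_zero (h : LH L) {z0 : ℂ} (hre : 0 < z0.re) (him : 0 < z0.im) :
    HasDerivAt (MM L 0) (-L z0) z0 := by
  obtain ⟨h1, h2⟩ := h.hasDerivAt' hre him 0
  refine h2.congr_deriv ?_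
  simp only [pow_zero, Nat.factorial_zero, Nat.cast_one, div_one, Complex.ofReal_one, one_mul] at h1 ⊢
  have h3 := integral_Ioi_of_hasDerivAt_of_tendsto (a := 0) (f := fun x : ℝ => L (z0 + x))
    (f' := fun x : ℝ => deriv L (z0 + x)) (m := 0)
    (h.hasDerivAt_x hre him le_rfl).continuousAt.continuousWithinAt
    (fun x hx => h.hasDerivAt_x hre him (le_of_lt hx)) h1 (by
      have := h.tendsto_zero hre him 0
      simpa using this)
  rw [h3]
  simp

theorem LH.deriv_succ (h : LH L) {z0 : ℂ} (hre : 0 < z0.re) (him : 0 < z0.im) (k : ℕ) :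
    HasDerivAt (MM L (k + 1)) (-MM L k z0) z0 := by
  obtain ⟨h1, h2⟩ := h.hasDerivAt' hre him (k + 1)
  refine h2.congr_deriv ?_
  have h3 := integral_Ioi_mul_deriv_eq_deriv_mul (a := (0:ℝ)) (a' := (0:ℂ)) (b' := (0:ℂ))
    (u := fun x : ℝ => ((x ^ (k + 1) / (k + 1)! : ℝ) : ℂ)) (u' := fun x : ℝ => ((x ^ k / k ! : ℝ) : ℂ))
    (v := fun x : ℝ => L (z0 + x)) (v' := fun x : ℝ => deriv L (z0 + x)) ?_ ?_ h1 (h.integrable hre him k) ?_ ?_
  · rw [h3]
    unfold MM
    simp
  · intro x _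
    have h4 : HasDerivAt (fun x : ℝ => x ^ (k + 1) / (k + 1)!) (x ^ k / k !) x := by
      have h5 := (hasDerivAt_pow (k + 1) x).div_const ((k + 1)! : ℝ)
      refine h5.congr_deriv ?_
      rw [Nat.factorial_succ]
      have h6 : ((k ! : ℕ) : ℝ) ≠ 0 := by exact_mod_cast Nat.factorial_ne_zero k
      have h7 : ((k : ℝ) + 1) ≠ 0 := by positivity
      push_cast
      field_simp
    exact h4.ofReal_comp
  · intro x hx
    exact h.hasDerivAt_x hre him (le_of_lt hx)
  · have h4 : ContinuousAt (fun x : ℝ => ((x ^ (k + 1) / (k + 1)! : ℝ) : ℂ) * L (z0 + x)) 0 := by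
      have h5 : ContinuousAt (fun x : ℝ => L (z0 + x)) 0 := (h.hasDerivAt_x hre him le_rfl).continuousAt
      have h6 : ContinuousAt (fun x : ℝ => ((x ^ (k + 1) / (k + 1)! : ℝ) : ℂ)) 0 := by fun_prop
      exact h6.mul h5
    have h7 := h4.tendsto.mono_left (nhdsWithin_le_nhds (s := Ioi 0))
    have h8 : (((0:ℝ) ^ (k + 1) / (k + 1)! : ℝ) : ℂ) * L (z0 + ((0:ℝ) : ℂ)) = 0 := by simp
    rw [h8] at h7
    exact h7
  · exact h.tendsto_zero hre him (k + 1)

end Q241.SN
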