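import Mathlib
import Pool.Agent.Q241.SN.Mom
import Pool.Agent.Q241.SN.Grow1

set_option autoImplicit false

/-! The chain of real functions on a vertical line. -/

namespace Q241.SN

open Set Filter Topology Complex MeasureTheory
open scoped Nat ContDiff

/-- the functions `S_n` on the line at distance `a` from the critical line -/
noncomputable def SA (L : ℂ → ℂ) : ℕ → ℝ → ℝ → ℝ
  | 0, a, t => (L (a + t * I)).im / Real.pi
  | k + 1, a, t => (I ^ (k + 1) * MM L k (a + t * I)).im / Real.pi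

variable {L : ℂ → ℂ}

lemma LH.SA_deriv (h : LH L) (n : ℕ) {a t : ℝ} (ha : 0 < a) (ht : 0 < t) :
    HasDerivAt (SA L (n + 1) a) (SA L n a t) t := by
  have hre : 0 < ((a : ℂ) + t * I).re := by rw [re_xu]; exact ha
  have him : 0 < ((a : ℂ) + t * I).im := by rw [im_xu]; exact ht
  rcases n with _ | k
  · have h1 := h.deriv_zero hre him
    have h2 := (hasDerivAt_ver h1).const_mul (I ^ (0 + 1))
    have h3 := (hasDerivAt_im h2).div_const Real.pi
    refine h3.congr_deriv ?_
    show _ = (L (a + t * I)).im / Real.pi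
    congr 2
    rw [zero_add, pow_one]
    linear_combination -(L (a + t * I)) * Complex.I_sq
  · have h1 := h.deriv_succ hre him k
    have h2 := (hasDerivAt_ver h1).const_mul (I ^ (k + 1 + 1))
    have h3 := (hasDerivAt_im h2).div_const Real.pi
    refine h3.congr_deriv ?_
    show _ = (I ^ (k + 1) * MM L k (a + t * I)).im / Real.pi
    congr 2
    rw [pow_succ I (k + 1)]
    linear_combination -(I ^ (k + 1) * MM L k (a + t * I)) * Complex.I_sq

lemma LH.SA_deriv0 (h : LH L) {a t : ℝ} (ha : 0 < a) (ht : 0 < t) :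
    HasDerivAt (SA L 0 a) ((deriv L (a + t * I)).re / Real.pi) t := by
  have hre : 0 < ((a : ℂ) + t * I).re := by rw [re_xu]; exact ha
  have him : 0 < ((a : ℂ) + t * I).im := by rw [im_xu]; exact ht
  have h1 := (h.diff _ hre him).hasDerivAt
  have h3 := (hasDerivAt_im (hasDerivAt_ver h1)).div_const Real.pi
  refine h3.congr_deriv ?_
  congr 1
  simp

lemma LH.MM_diff (h : LH L) (k : ℕ) {z : ℂ} (hre : 0 < z.re) (him : 0 < z.im) : DifferentiableAt ℂ (MM L k) z := by
  rcases k with _ | k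
  · exact (h.deriv_zero hre him).differentiableAt
  · exact (h.deriv_succ hre him k).differentiableAt

lemma quad_open : IsOpen {z : ℂ | 0 < z.re ∧ 0 < z.im} :=
  (isOpen_lt continuous_const Complex.continuous_re).inter (isOpen_lt continuous_const Complex.continuous_im)

lemma LH.SA_smooth (h : LH L) (n : ℕ) {a t : ℝ} (ha : 0 < a) (ht : 0 < t) :
    ContDiffAt ℝ ∞ (SA L n a) t := by
  have hre : 0 < ((a : ℂ) + t * I).re := by rw [re_xu]; exact ha
  have him : 0 < ((a : ℂ) + t * I).im := by rw [im_xu]; exact ht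
  have key : ∀ F : ℂ → ℂ, (∀ z : ℂ, 0 < z.re → 0 < z.im → DifferentiableAt ℂ F z) →
      ContDiffAt ℝ ∞ (fun t : ℝ => F (a + t * I)) t := by
    intro F hF
    have h1 : DifferentiableOn ℂ F {z : ℂ | 0 < z.re ∧ 0 < z.im} := fun z hz => (hF z hz.1 hz.2).differentiableWithinAt
    have h2 : AnalyticAt ℂ F (a + t * I) := h1.analyticAt (quad_open.mem_nhds ⟨hre, him⟩)
    have h3 : ContDiffAt ℝ ∞ F (a + t * I) := (h2.contDiffAt (n := ∞)).restrict_scalars ℝ
    have h4 : ContDiffAt ℝ ∞ (fun t : ℝ => ((a : ℂ) + t * I)) t := by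
      have : ContDiff ℝ ∞ (fun t : ℝ => (t : ℂ)) := Complex.ofRealCLM.contDiff
      exact (contDiff_const.add (this.mul contDiff_const)).contDiffAt
    exact h3.comp t h4
  rcases n with _ | k
  · have h1 := key L h.diff
    have h2 : ContDiffAt ℝ ∞ (fun t : ℝ => (L (a + t * I)).im) t :=
      (Complex.imCLM.contDiff (n := ∞)).contDiffAt.comp t h1
    exact h2.div_const _
  · have h1 := key (fun z => I ^ (k + 1) * MM L k z) (fun z h1 h2 => (h.MM_diff k h1 h2).const_mul _)
    have h2 : ContDiffAt ℝ ∞ (fun t : ℝ => (I ^ (k + 1) * MM L k (a + t * I)).im) t :=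
      (Complex.imCLM.contDiff (n := ∞)).contDiffAt.comp t h1
    exact h2.div_const _

lemma integral_pow_exp' (k : ℕ) {b : ℝ} (hb : 0 < b) :
    ∫ x in Ioi (0 : ℝ), x ^ k * Real.exp (-(b * x)) = k ! / b ^ (k + 1) := by
  have h1 := integral_pow_exp k hb
  have hf : (0:ℝ) < k ! := by exact_mod_cast Nat.factorial_pos k
  have h2 : ∫ x in Ioi (0 : ℝ), x ^ k / k ! * Real.exp (-(b * x)) =
      1 / k ! * ∫ x in Ioi (0 : ℝ), x ^ k * Real.exp (-(b * x)) := by
    rw [← integral_const_mul]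
    refine setIntegral_congr_fun measurableSet_Ioi fun x _ => ?_
    ring
  rw [h2] at h1
  field_simp at h1
  rw [eq_div_iff (by positivity)]
  exact h1

/-- bound for the moments -/
lemma LH.MM_bound (h : LH L) (j : ℕ) {A B ℓ lam a t : ℝ} (ha : 0 < a) (ht : 0 < t) (hA : 0 ≤ A) (hB : 0 ≤ B)
    (hℓ : 0 < ℓ) (hlam : 0 < lam)
    (hb : ∀ x : ℝ, 0 < x → ‖L (x + t * I)‖ ≤ A * (1 + 1 / (x * ℓ)) * Real.exp (-(lam * x)) + B * Real.exp (-(x / 2))) :
    ‖MM L (j + 1) (a + t * I)‖ ≤ A * (1 / lam ^ (j + 2) + 1 / (ℓ * lam ^ (j + 1))) + B * 2 ^ (j + 2) := by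
  have hre : 0 < ((a : ℂ) + t * I).re := by rw [re_xu]; exact ha
  have him : 0 < ((a : ℂ) + t * I).im := by rw [im_xu]; exact ht
  have i1 := (integrable_pow_exp (j + 1) hlam).const_mul (A / (j + 1)!)
  have i2 := (integrable_pow_exp j hlam).const_mul (A / ((j + 1)! * ℓ))
  have i3 := (integrable_pow_exp (j + 1) (b := 1 / 2) (by norm_num)).const_mul (B / (j + 1)!)
  have hf : (0:ℝ) < (j + 1)! := by exact_mod_cast Nat.factorial_pos (j + 1)
  have h1 : ‖MM L (j + 1) (a + t * I)‖ ≤ ∫ x in Ioi (0:ℝ), (A / (j + 1)! * (x ^ (j + 1) * Real.exp (-(lam * x))) +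
      A / ((j + 1)! * ℓ) * (x ^ j * Real.exp (-(lam * x))) + B / (j + 1)! * (x ^ (j + 1) * Real.exp (-(1 / 2 * x)))) := by
    refine norm_integral_le_of_norm_le ((i1.add i2).add i3) ?_
    refine (ae_restrict_iff' measurableSet_Ioi).mpr (Eventually.of_forall fun x hx => ?_)
    have hx' : 0 < x := hx
    have h2 := hb (a + x) (by linarith)
    have e1 : ((a : ℂ) + t * I) + x = ((a + x : ℝ) : ℂ) + t * I := by push_cast; ring
    rw [e1, norm_mul, Complex.norm_real, Real.norm_eq_abs, abs_of_nonneg (by positivity)]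
    have h3 : A * (1 + 1 / ((a + x) * ℓ)) * Real.exp (-(lam * (a + x))) ≤ A * (1 + 1 / (x * ℓ)) * Real.exp (-(lam * x)) := by
      have h4 : 1 / ((a + x) * ℓ) ≤ 1 / (x * ℓ) := by
        refine one_div_le_one_div_of_le (by positivity) ?_
        exact mul_le_mul_of_nonneg_right (by linarith) hℓ.le
      have h5 : Real.exp (-(lam * (a + x))) ≤ Real.exp (-(lam * x)) := by
        refine Real.exp_le_exp.mpr ?_
        have : 0 ≤ lam * a := by positivity
        have e2 : lam * (a + x) = lam * a + lam * x := by ring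
        linarith
      exact mul_le_mul (mul_le_mul_of_nonneg_left (by linarith) hA) h5 (Real.exp_pos _).le (by positivity)
    have h6 : B * Real.exp (-((a + x) / 2)) ≤ B * Real.exp (-(x / 2)) :=
      mul_le_mul_of_nonneg_left (Real.exp_le_exp.mpr (by linarith)) hB
    calc x ^ (j + 1) / (j + 1)! * ‖L (((a + x : ℝ) : ℂ) + t * I)‖
        ≤ x ^ (j + 1) / (j + 1)! * (A * (1 + 1 / (x * ℓ)) * Real.exp (-(lam * x)) + B * Real.exp (-(x / 2))) :=
          mul_le_mul_of_nonneg_left (h2.trans (by linarith)) (by positivity)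
      _ = _ := by
          rw [show 1 / 2 * x = x / 2 by ring]
          field_simp
          ring
  refine h1.trans ?_
  have i12 : Integrable (fun x : ℝ => A / (j + 1)! * (x ^ (j + 1) * Real.exp (-(lam * x))) +
      A / ((j + 1)! * ℓ) * (x ^ j * Real.exp (-(lam * x)))) (volume.restrict (Ioi 0)) := i1.add i2
  rw [integral_add i12 i3, integral_add i1 i2, integral_const_mul, integral_const_mul, integral_const_mul,
    integral_pow_exp' (j + 1) hlam, integral_pow_exp' j hlam, integral_pow_exp' (j + 1) (b := 1 / 2) (by norm_num)]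
  have hf2 : ((j + 1)! : ℝ) = (j + 1) * j ! := by rw [Nat.factorial_succ]; push_cast; ring
  have hfj : (0:ℝ) < j ! := by exact_mod_cast Nat.factorial_pos j
  have e1 : A / (j + 1)! * ((j + 1)! / lam ^ (j + 1 + 1)) = A * (1 / lam ^ (j + 2)) := by
    field_simp
  have e2 : A / ((j + 1)! * ℓ) * (j ! / lam ^ (j + 1)) ≤ A * (1 / (ℓ * lam ^ (j + 1))) := by
    have e3 : A / ((j + 1)! * ℓ) * (j ! / lam ^ (j + 1)) = A * (1 / (ℓ * lam ^ (j + 1))) * (1 / (j + 1)) := by
      rw [hf2]; field_simp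
    rw [e3]
    have e4 : 1 / ((j : ℝ) + 1) ≤ 1 := by
      rw [div_le_one (by positivity)]
      have : (0:ℝ) ≤ j := Nat.cast_nonneg j
      linarith
    have e5 : 0 ≤ A * (1 / (ℓ * lam ^ (j + 1))) := by positivity
    nlinarith
  have e6 : B / (j + 1)! * ((j + 1)! / (1 / 2) ^ (j + 1 + 1)) = B * 2 ^ (j + 2) := by
    field_simp
    rw [mul_assoc, show j + 1 + 1 = j + 2 from rfl, ← mul_pow]; norm_num
  rw [e1, e6]
  linarith

end Q241.SN
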