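import Mathlib
import Pool.Agent.Q241.SN.Comp

set_option autoImplicit false

/-! Extreme values of Bernoulli splines, and the closed comparison theorem. -/

namespace Q241.SN

open Set Filter Topology MeasureTheory intervalIntegral
open scoped Nat

/-- maximum of the Bernoulli polynomial on the unit interval -/
noncomputable def BM (k : ℕ) : ℝ := sSup (bernoulliFun k '' Icc (0 : ℝ) 1)

/-- minimum of the Bernoulli polynomial on the unit interval -/
noncomputable def Bm (k : ℕ) : ℝ := sInf (bernoulliFun k '' Icc (0 : ℝ) 1)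

lemma B_compact (k : ℕ) : IsCompact (bernoulliFun k '' Icc (0 : ℝ) 1) :=
  isCompact_Icc.image (bernoulliFun_continuous k)

lemma le_BM (k : ℕ) {x : ℝ} (hx : x ∈ Icc (0 : ℝ) 1) : bernoulliFun k x ≤ BM k :=
  le_csSup (B_compact k).bddAbove ⟨x, hx, rfl⟩

lemma Bm_le (k : ℕ) {x : ℝ} (hx : x ∈ Icc (0 : ℝ) 1) : Bm k ≤ bernoulliFun k x :=
  csInf_le (B_compact k).bddBelow ⟨x, hx, rfl⟩

lemma fc_aux {e : ℝ → ℂ} (he : Continuous e) (hn : ∀ x, ‖e x‖ = 1) (h1 : ∫ x in (0:ℝ)..1, e x = 0)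
    {B : ℝ → ℝ} (hB : Continuous B) (h0 : ∫ x in (0:ℝ)..1, B x = 0) {M : ℝ}
    (hM : ∀ x ∈ Icc (0:ℝ) 1, B x ≤ M) :
    ‖∫ x in (0:ℝ)..1, e x * (B x : ℂ)‖ ≤ M := by
  have hBi : ∀ C : ℝ → ℝ, Continuous C → IntervalIntegrable (fun x : ℝ => e x * ((C x : ℝ) : ℂ)) volume 0 1 := by
    intro C hC
    exact (he.mul (Complex.continuous_ofReal.comp hC)).intervalIntegrable _ _
  have h2 : ∫ x in (0:ℝ)..1, e x * ((B x : ℝ) : ℂ) = - ∫ x in (0:ℝ)..1, e x * ((M - B x : ℝ) : ℂ) := by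
    have h3 : ∫ x in (0:ℝ)..1, e x * ((M : ℝ) : ℂ) = 0 := by
      rw [intervalIntegral.integral_mul_const, h1, zero_mul]
    have h5 : ∫ x in (0:ℝ)..1, e x * ((M - B x : ℝ) : ℂ) =
      (∫ x in (0:ℝ)..1, e x * ((M : ℝ) : ℂ)) - ∫ x in (0:ℝ)..1, e x * ((B x : ℝ) : ℂ) := by
      rw [← integral_sub (hBi _ continuous_const) (hBi _ hB)]
      congr 1
      funext x
      push_cast
      ring
    rw [h5, h3]; ring
  rw [h2, norm_neg]
  have h6 : ‖∫ x in (0:ℝ)..1, e x * ((M - B x : ℝ) : ℂ)‖ ≤ ∫ x in (0:ℝ)..1, (M - B x) := by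
    refine norm_integral_le_of_norm_le zero_le_one ?_ ((continuous_const.sub hB).intervalIntegrable _ _)
    refine Eventually.of_forall fun x hx => ?_
    have hx2 := hM x ⟨hx.1.le, hx.2⟩
    rw [norm_mul, Complex.norm_real, Real.norm_eq_abs, abs_of_nonneg (by linarith), hn, one_mul]
  refine h6.trans ?_
  rw [integral_sub (by simp) (hB.intervalIntegrable _ _), h0]
  simp

lemma fc_bound {B : ℝ → ℝ} (hB : Continuous B) (h0 : ∫ x in (0:ℝ)..1, B x = 0) {M : ℝ}
    (hM : ∀ x ∈ Icc (0:ℝ) 1, B x ≤ M) :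
    ‖fourierCoeffOn zero_lt_one (fun x => (B x : ℂ)) 1‖ ≤ M := by
  obtain ⟨e, he⟩ : ∃ e : ℝ → ℂ, e = fun x : ℝ => (fourier (-1) (x : AddCircle ((1:ℝ) - 0)) : ℂ) := ⟨_, rfl⟩
  have hec : Continuous e := by
    rw [he]
    exact (map_continuous (fourier (-1) : C(AddCircle ((1:ℝ) - 0), ℂ))).comp (AddCircle.continuous_mk' _)
  have hen : ∀ x, ‖e x‖ = 1 := by
    intro x
    rw [he]
    simp only
    rw [fourier_apply]
    exact Circle.norm_coe _
  have h1 := bernoulli_zero_fourier_coeff (n := 1) one_ne_zero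
  unfold bernoulliFourierCoeff at h1
  rw [fourierCoeffOn_eq_integral] at h1 ⊢
  have e2 : ∀ C : ℝ → ℂ, (∫ x in (0:ℝ)..1, (fourier (-1) (x : AddCircle ((1:ℝ) - 0)) : ℂ) • C x) = ∫ x in (0:ℝ)..1, e x * C x := by
    intro C
    rw [he]
    simp only [smul_eq_mul]
  rw [e2] at h1 ⊢
  have h3 : ∫ x in (0:ℝ)..1, e x = 0 := by
    simpa using h1
  have h4 := fc_aux hec hen h3 hB h0 hM
  simpa using h4

lemma fc_norm (k : ℕ) (hk : k ≠ 0) : ‖bernoulliFourierCoeff k 1‖ = k ! / (2 * Real.pi) ^ k := by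
  rw [bernoulliFourierCoeff_eq hk]
  simp [abs_of_pos Real.pi_pos]

lemma BM_ge (k : ℕ) (hk : k ≠ 0) : k ! / (2 * Real.pi) ^ k ≤ BM k := by
  rw [← fc_norm k hk]
  exact fc_bound (bernoulliFun_continuous k) (integral_bernoulliFun_eq_zero hk) (fun x hx => le_BM k hx)

lemma Bm_le' (k : ℕ) (hk : k ≠ 0) : k ! / (2 * Real.pi) ^ k ≤ -Bm k := by
  rw [← fc_norm k hk]
  have h1 := fc_bound (B := fun x => -bernoulliFun k x) (bernoulliFun_continuous k).neg
    (by rw [intervalIntegral.integral_neg, integral_bernoulliFun_eq_zero hk, neg_zero])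
    (M := -Bm k) (fun x hx => neg_le_neg (Bm_le k hx))
  refine le_trans (le_of_eq ?_) h1
  unfold bernoulliFourierCoeff
  have h2 : (fun x : ℝ => ((-bernoulliFun k x : ℝ) : ℂ)) = fun x : ℝ => (-1 : ℂ) * ((bernoulliFun k x : ℝ) : ℂ) := by
    funext x; push_cast; ring
  rw [h2, fourierCoeffOn.const_mul]
  simp

/-- lower and upper extreme values of the spline -/
noncomputable def lo (k : ℕ) : ℝ := -(BM (k + 1)) / (k + 1)!
noncomputable def hi (k : ℕ) : ℝ := -(Bm (k + 1)) / (k + 1)!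

lemma fact_pos' (k : ℕ) : (0 : ℝ) < ((k)! : ℝ) := by exact_mod_cast Nat.factorial_pos k

lemma hi_ge (k : ℕ) : 1 / (2 * Real.pi) ^ (k + 1) ≤ hi k := by
  have h1 := Bm_le' (k + 1) (by omega)
  have h2 := fact_pos' (k + 1)
  unfold hi
  rw [le_div_iff₀ h2]
  refine le_trans (le_of_eq ?_) h1
  ring

lemma lo_le (k : ℕ) : lo k ≤ -(1 / (2 * Real.pi) ^ (k + 1)) := by
  have h1 := BM_ge (k + 1) (by omega)
  have h2 := fact_pos' (k + 1)
  unfold lo
  rw [neg_div, neg_le_neg_iff, le_div_iff₀ h2]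
  refine le_trans (le_of_eq ?_) h1
  ring

lemma hi_pos (k : ℕ) : 0 < hi k := lt_of_lt_of_le (by positivity) (hi_ge k)

lemma lo_neg (k : ℕ) : lo k < 0 := lt_of_le_of_lt (lo_le k) (by
  have : 0 < 1 / (2 * Real.pi) ^ (k + 1) := by positivity
  linarith)

lemma Phi_le (k : ℕ) (x : ℝ) : Phi k x ≤ hi k := by
  unfold Phi hi
  have h2 := fact_pos' (k + 1)
  have h3 := Bm_le (k + 1) (x := Int.fract x) ⟨Int.fract_nonneg x, (Int.fract_lt_one x).le⟩
  gcongr

lemma le_Phi (k : ℕ) (x : ℝ) : lo k ≤ Phi k x := by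
  unfold Phi lo
  have h2 := fact_pos' (k + 1)
  have h3 := le_BM (k + 1) (x := Int.fract x) ⟨Int.fract_nonneg x, (Int.fract_lt_one x).le⟩
  gcongr

lemma Phi_Icc (k : ℕ) {x : ℝ} (hx : x ∈ Icc (0 : ℝ) 1) :
    Phi (k + 1) x = -(bernoulliFun (k + 1 + 1) x) / (k + 1 + 1)! := by
  unfold Phi
  rcases eq_or_lt_of_le hx.2 with h | h
  · rw [h, Int.fract_one, ← bernoulliFun_endpoints_eq_of_ne_one (by omega : k + 1 + 1 ≠ 1)]
  · rw [Int.fract_eq_self.mpr ⟨hx.1, h⟩]

lemma exists_hi (k : ℕ) : ∃ q : ℝ, Phi (k + 1) q = hi (k + 1) := by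
  obtain ⟨q, hq, hq2⟩ := (B_compact (k + 1 + 1)).sInf_mem ((nonempty_Icc.mpr zero_le_one).image _)
  refine ⟨q, ?_⟩
  rw [Phi_Icc k hq, hq2]
  rfl

lemma exists_lo (k : ℕ) : ∃ q : ℝ, Phi (k + 1) q = lo (k + 1) := by
  obtain ⟨q, hq, hq2⟩ := (B_compact (k + 1 + 1)).sSup_mem ((nonempty_Icc.mpr zero_le_one).image _)
  refine ⟨q, ?_⟩
  rw [Phi_Icc k hq, hq2]
  rfl

/-- two points of a periodic function with different values can be placed in order -/
lemma place {g : ℝ → ℝ} (hg : ∀ (x : ℝ) (j : ℤ), g (x + j) = g x) (a b : ℝ) (hab : g a ≠ g b) :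
    ∃ p q : ℝ, p < q ∧ q < p + 1 ∧ g p = g a ∧ g q = g b := by
  refine ⟨a, b + (⌊a - b⌋ + 1 : ℤ), ?_, ?_, rfl, hg _ _⟩
  · have := Int.lt_floor_add_one (a - b)
    push_cast
    linarith
  · have h1 := Int.floor_le (a - b)
    push_cast
    rcases eq_or_lt_of_le h1 with h2 | h2
    · exfalso
      apply hab
      have : a = b + (⌊a - b⌋ : ℤ) := by linarith
      rw [this, hg]
    · linarith

lemma Fam.scale {N K : ℕ} {f : ℕ → ℝ → ℝ} (h : Fam N K f) {c : ℝ} (h0 : 0 ≤ c) (h1 : c ≤ 1) :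
    Fam N K (fun j x => c * f j x) := by
  refine ⟨fun j hj x => ?_, fun j hj x => ?_, fun x y hxy => ?_, ?_⟩
  · show c * _ = c * _
    rw [h.per j hj]
  · exact (h.der j hj x).const_mul c
  · have h2 := h.mono x y hxy
    show c * f 0 x + x ≤ c * f 0 y + y
    nlinarith
  · exact continuous_const.mul h.cont

/-- one step of the comparison, closed form -/
lemma Fam.step {N K : ℕ} (hN : 0 < N) {f : ℕ → ℝ → ℝ} (h : Fam N K f) (k : ℕ) (hk : k < K)
    (hl : ∀ x, lo (k + 1) ≤ f (k + 1) x) (hu : ∀ x, f (k + 1) x ≤ hi (k + 1)) :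
    (∀ x, lo k ≤ f k x) ∧ ∀ x, f k x ≤ hi k := by
  obtain ⟨a, ha⟩ := exists_lo k
  obtain ⟨b, hb⟩ := exists_hi k
  have hlo := lo_neg (k + 1)
  have hhi := hi_pos (k + 1)
  have hlo' := lo_neg k
  have hhi' := hi_pos k
  have hne : Phi (k + 1) a ≠ Phi (k + 1) b := by rw [ha, hb]; linarith
  have key : ∀ c : ℝ, 0 < c → c < 1 → (∀ x, lo k ≤ c * f k x) ∧ ∀ x, c * f k x ≤ hi k := by
    intro c hc0 hc1
    have hF := h.scale hc0.le hc1.le
    have s1 : ∀ x, lo (k + 1) < c * f (k + 1) x := by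
      intro x
      have := hl x
      nlinarith
    have s2 : ∀ x, c * f (k + 1) x < hi (k + 1) := by
      intro x
      have := hu x
      nlinarith
    constructor
    · obtain ⟨p, q, h1, h2, h3, h4⟩ := place (Phi_add_int (k + 1)) b a hne.symm
      exact fun x0 => hF.step_dn hN k hk (le_Phi k) h1 h2 (fun x => by rw [h3, hb]; exact s2 x)
        (fun x => by rw [h4, ha]; exact s1 x) x0
    · obtain ⟨p, q, h1, h2, h3, h4⟩ := place (Phi_add_int (k + 1)) a b hne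
      exact fun x0 => hF.step_up hN k hk (Phi_le k) h1 h2 (fun x => by rw [h3, ha]; exact s1 x)
        (fun x => by rw [h4, hb]; exact s2 x) x0
  constructor
  · intro x
    by_contra hcon
    push Not at hcon
    have hf0 : f k x < 0 := hcon.trans hlo'
    have h5 := (key ((f k x + lo k) / (2 * f k x)) (div_pos_of_neg_of_neg (by linarith) (by linarith))
      (by rw [div_lt_one_of_neg (by linarith)]; linarith)).1 x
    have hf1 : f k x ≠ 0 := hf0.ne
    have h6 : (f k x + lo k) / (2 * f k x) * f k x = (f k x + lo k) / 2 := by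
      field_simp
    rw [h6] at h5
    linarith
  · intro x
    by_contra hcon
    push Not at hcon
    have hf0 : 0 < f k x := hhi'.trans hcon
    have h5 := (key ((f k x + hi k) / (2 * f k x)) (by positivity)
      (by rw [div_lt_one (by linarith)]; linarith)).2 x
    have h6 : (f k x + hi k) / (2 * f k x) * f k x = (f k x + hi k) / 2 := by
      field_simp
    rw [h6] at h5
    linarith

/-- **Comparison theorem.** -/
theorem Fam.comp {N K : ℕ} (hN : 0 < N) {f : ℕ → ℝ → ℝ} (h : Fam N K f)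
    (hl : ∀ x, lo K ≤ f K x) (hu : ∀ x, f K x ≤ hi K) (j : ℕ) (hj : j ≤ K) :
    (∀ x, lo j ≤ f j x) ∧ ∀ x, f j x ≤ hi j := by
  have : ∀ i : ℕ, i ≤ K → (∀ x, lo (K - i) ≤ f (K - i) x) ∧ ∀ x, f (K - i) x ≤ hi (K - i) := by
    intro i
    induction i with
    | zero => intro _; exact ⟨hl, hu⟩
    | succ i ih =>
      intro hi'
      have h1 := ih (by omega)
      have e : K - i = (K - (i + 1)) + 1 := by omega
      rw [e] at h1
      exact h.step hN (K - (i + 1)) (by omega) h1.1 h1.2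
  have h1 := this (K - j) (by omega)
  rwa [show K - (K - j) = j by omega] at h1

end Q241.SN
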