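import Mathlib
import Pool.Agent.Q241.SN.Comp2

set_option autoImplicit false

/-! Local form of the comparison theorem. -/

namespace Q241.SN

open Set Filter Topology MeasureTheory
open scoped Nat ContDiff

/-- periodization of a function supported in `(-N/2, N/2)` -/
noncomputable def per (N : ℝ) (f : ℝ → ℝ) (y : ℝ) : ℝ := f (y - N * round (y / N))

lemma per_add {N : ℝ} (hN : 0 < N) (f : ℝ → ℝ) (y : ℝ) : per N f (y + N) = per N f y := by
  unfold per
  have h1 : (y + N) / N = y / N + 1 := by field_simp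
  rw [h1, round_add_one]
  congr 1
  push_cast
  ring

lemma abs_round_le {N : ℝ} (hN : 0 < N) (y : ℝ) (k : ℤ) : |y - N * round (y / N)| ≤ |y - N * k| := by
  have h1 := round_le (y / N) k
  have h2 : ∀ j : ℤ, |y - N * j| = N * |y / N - j| := by
    intro j
    rw [← abs_of_pos hN, ← abs_mul, abs_of_pos hN]
    congr 1
    field_simp
  rw [h2, h2]
  exact mul_le_mul_of_nonneg_left h1 hN.le

lemma per_zero {N : ℝ} {f : ℝ → ℝ} {r : ℝ} (hf : ∀ z, r < |z| → f z = 0) {y : ℝ}
    (hy : r < |y - N * round (y / N)|) : per N f y = 0 := hf _ hy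

lemma per_hasDerivAt {N : ℝ} (hN : 0 < N) {f f' : ℝ → ℝ} {r : ℝ} (hr : r < N / 2)
    (hf : ∀ z, r < |z| → f z = 0) (hf' : ∀ z, r < |z| → f' z = 0)
    (hd : ∀ z, HasDerivAt f (f' z) z) (y : ℝ) : HasDerivAt (per N f) (per N f' y) y := by
  obtain ⟨k, hk⟩ : ∃ k : ℤ, k = round (y / N) := ⟨_, rfl⟩
  rcases lt_or_ge r (|y - N * round (y / N)|) with h | h
  · rw [per_zero hf' h]
    have h1 : per N f =ᶠ[𝓝 y] fun _ => 0 := by
      have h2 : ∀ᶠ y' in 𝓝 y, |y' - y| < |y - N * round (y / N)| - r := by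
        have := Metric.ball_mem_nhds y (ε := |y - N * round (y / N)| - r) (by linarith)
        filter_upwards [this] with y' hy'
        rwa [Metric.mem_ball, Real.dist_eq] at hy'
      filter_upwards [h2] with y' hy'
      refine per_zero hf ?_
      have h3 := abs_round_le hN y (round (y' / N))
      have h4 : |y - N * round (y' / N)| ≤ |y' - y| + |y' - N * round (y' / N)| := by
        have : y - N * round (y' / N) = -(y' - y) + (y' - N * round (y' / N)) := by ring
        rw [this]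
        refine (abs_add_le _ _).trans ?_
        rw [abs_neg]
      linarith
    exact (hasDerivAt_const y (0:ℝ)).congr_of_eventuallyEq h1
  · have h1 : per N f =ᶠ[𝓝 y] fun y' => f (y' - N * round (y / N)) := by
      have h2 : ∀ᶠ y' in 𝓝 y, |y' - y| < N / 2 - r := by
        have := Metric.ball_mem_nhds y (ε := N / 2 - r) (by linarith)
        filter_upwards [this] with y' hy'
        rwa [Metric.mem_ball, Real.dist_eq] at hy'
      filter_upwards [h2] with y' hy'
      have h3 : round (y' / N) = round (y / N) := by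
        rw [← hk] at h ⊢
        have h4 : |y' - N * k| < N / 2 := by
          have : y' - N * k = (y' - y) + (y - N * k) := by ring
          rw [this]
          refine (abs_add_le _ _).trans_lt ?_
          linarith
        rw [abs_lt] at h4
        rw [round_eq, Int.floor_eq_iff]
        have e : y' / N * N = y' := div_mul_cancel₀ _ hN.ne'
        constructor
        · by_contra hcon
          push Not at hcon
          nlinarith
        · by_contra hcon
          push Not at hcon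
          nlinarith
      unfold per
      rw [h3]
    have h2 : HasDerivAt (fun y' => f (y' - N * round (y / N))) (f' (y - N * round (y / N))) y :=
      (hd (y - N * round (y / N))).comp_sub_const y _
    exact h2.congr_of_eventuallyEq h1

/-- comparison theorem for compactly supported chains -/
theorem comp_supp {m : ℕ} {f : ℕ → ℝ → ℝ} {f' : ℝ → ℝ}
    (hd : ∀ j < m, ∀ x, HasDerivAt (f (j + 1)) (f j x) x) (hd0 : ∀ x, HasDerivAt (f 0) (f' x) x)
    (hs : ∀ j ≤ m, ∀ x, 1 < |x| → f j x = 0) (hs0 : ∀ x, 1 < |x| → f' x = 0)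
    {α h : ℝ} (hα : 0 < α) (hh : 0 < h) (hf' : ∀ x, -α ≤ f' x)
    (hl : ∀ x, α * h ^ (m + 1) * lo m ≤ f m x) (hu : ∀ x, f m x ≤ α * h ^ (m + 1) * hi m)
    (j : ℕ) (hj : j ≤ m) :
    α * h ^ (j + 1) * lo j ≤ f j 0 ∧ f j 0 ≤ α * h ^ (j + 1) * hi j := by
  obtain ⟨N, hN⟩ := exists_nat_gt (2 / h)
  have hN0 : (0 : ℝ) < N := lt_trans (by positivity) hN
  have hN0' : 0 < N := by exact_mod_cast hN0
  have hr : 1 / h < (N : ℝ) / 2 := by
    rw [lt_div_iff₀ (by norm_num)]
    calc 1 / h * 2 = 2 / h := by ring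
      _ < N := hN
  -- scaled functions
  obtain ⟨g, hg⟩ : ∃ g : ℕ → ℝ → ℝ, g = fun j y => f j (h * y) / (α * h ^ (j + 1)) := ⟨_, rfl⟩
  have hsc : ∀ y : ℝ, 1 / h < |y| → 1 < |h * y| := by
    intro y hy
    rw [abs_mul, abs_of_pos hh]
    rw [div_lt_iff₀ hh] at hy
    linarith
  have hgd : ∀ j < m, ∀ y, HasDerivAt (g (j + 1)) (g j y) y := by
    intro j hj y
    rw [hg]
    have h1 : HasDerivAt (fun y : ℝ => h * y) h y := by simpa using (hasDerivAt_id y).const_mul h
    have h2 := ((hd j hj (h * y)).comp y h1).div_const (α * h ^ (j + 1 + 1))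
    refine h2.congr_deriv ?_
    simp only
    field_simp
    ring
  have hgd0 : ∀ y, HasDerivAt (g 0) (f' (h * y) / α) y := by
    intro y
    rw [hg]
    have h1 : HasDerivAt (fun y : ℝ => h * y) h y := by simpa using (hasDerivAt_id y).const_mul h
    have h2 := ((hd0 (h * y)).comp y h1).div_const (α * h ^ (0 + 1))
    refine h2.congr_deriv ?_
    field_simp
    ring
  have hgs : ∀ j ≤ m, ∀ y, 1 / h < |y| → g j y = 0 := by
    intro j hj y hy
    rw [hg]
    simp only
    rw [hs j hj _ (hsc y hy), zero_div]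
  have hgs0 : ∀ y, 1 / h < |y| → (fun y => f' (h * y) / α) y = 0 := by
    intro y hy
    simp only
    rw [hs0 _ (hsc y hy), zero_div]
  have hFam : Fam N m (fun j => per N (g j)) := by
    refine ⟨fun j _ x => per_add hN0 _ _, fun j hj x => ?_, ?_, ?_⟩
    · exact per_hasDerivAt hN0 hr (hgs (j + 1) (by omega)) (hgs j (by omega)) (hgd j hj) x
    · have h1 : ∀ x, HasDerivAt (fun x => per N (g 0) x + x) (per N (fun y => f' (h * y) / α) x + 1) x :=
        fun x => (per_hasDerivAt hN0 hr (hgs 0 (by omega)) hgs0 hgd0 x).add (hasDerivAt_id x)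
      have h2 : Monotone (fun x => per N (g 0) x + x) := by
        refine monotone_of_deriv_nonneg (fun x => (h1 x).differentiableAt) (fun x => ?_)
        rw [(h1 x).deriv]
        unfold per
        have := hf' (h * (x - N * round (x / N)))
        have h3 : -1 ≤ f' (h * (x - N * round (x / N))) / α := by
          rw [le_div_iff₀ hα]; linarith
        linarith
      exact fun x y hxy => h2 hxy
    · exact continuous_iff_continuousAt.mpr fun x =>
        (per_hasDerivAt hN0 hr (hgs 0 (by omega)) hgs0 hgd0 x).continuousAt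
  have hb : ∀ j ≤ m, ∀ x, lo j ≤ per N (g j) x ∧ per N (g j) x ≤ hi j := by
    have h1 := hFam.comp hN0' (fun x => ?_) (fun x => ?_)
    · intro j hj x
      exact ⟨(h1 j hj).1 x, (h1 j hj).2 x⟩
    · show lo m ≤ g m (x - N * round (x / N))
      rw [hg]
      simp only
      rw [le_div_iff₀ (by positivity)]
      have := hl (h * (x - N * round (x / N)))
      linarith
    · show g m (x - N * round (x / N)) ≤ hi m
      rw [hg]
      simp only
      rw [div_le_iff₀ (by positivity)]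
      have := hu (h * (x - N * round (x / N)))
      linarith
  have h3 := hb j hj 0
  unfold per at h3
  rw [zero_div, round_zero, Int.cast_zero, mul_zero, sub_zero, hg] at h3
  simp only [mul_zero] at h3
  rw [le_div_iff₀ (by positivity), div_le_iff₀ (by positivity)] at h3
  exact ⟨by linarith [h3.1], by linarith [h3.2]⟩

/-- **Local comparison theorem.** -/
theorem local_comp (m : ℕ) : ∃ D : ℝ, 0 < D ∧ ∀ (F : ℕ → ℝ → ℝ) (F' : ℝ → ℝ) (α K h : ℝ),
    (∀ j < m, ∀ x ∈ Ioo (-2 : ℝ) 2, HasDerivAt (F (j + 1)) (F j x) x) →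
    (∀ x ∈ Ioo (-2 : ℝ) 2, HasDerivAt (F 0) (F' x) x) →
    (∀ x ∈ Ioo (-2 : ℝ) 2, ContDiffAt ℝ ∞ (F m) x) →
    0 < α → 0 ≤ K → 0 < h →
    (∀ x ∈ Icc (-1 : ℝ) 1, -α ≤ F' x) →
    (∀ j ≤ m, ∀ x ∈ Icc (-1 : ℝ) 1, |F j x| ≤ K) →
    (∀ x ∈ Icc (-1 : ℝ) 1, (α + D * K) * h ^ (m + 1) * lo m ≤ F m x) →
    (∀ x ∈ Icc (-1 : ℝ) 1, F m x ≤ (α + D * K) * h ^ (m + 1) * hi m) →
    ∀ j ≤ m, (α + D * K) * h ^ (j + 1) * lo j ≤ F j 0 ∧ F j 0 ≤ (α + D * K) * h ^ (j + 1) * hi j := by
  -- the cutoff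
  obtain ⟨χ, hχs, hχc, hχ0, hχ1, hχone⟩ : ∃ χ : ℝ → ℝ, (∀ x, 1 < |x| → χ x = 0) ∧ ContDiff ℝ ∞ χ ∧
      (∀ x, 0 ≤ χ x) ∧ (∀ x, χ x ≤ 1) ∧ (∀ᶠ x in 𝓝 (0:ℝ), χ x = 1) := by
    obtain ⟨b⟩ : Nonempty (ContDiffBump (0 : ℝ)) := ⟨⟨1 / 2, 1, by norm_num, by norm_num⟩⟩
    obtain ⟨b, hb1, hb2⟩ : ∃ b : ContDiffBump (0 : ℝ), b.rIn = 1 / 2 ∧ b.rOut = 1 :=
      ⟨⟨1 / 2, 1, by norm_num, by norm_num⟩, rfl, rfl⟩
    refine ⟨fun x => b x, fun x hx => ?_, b.contDiff, fun x => b.nonneg, fun x => b.le_one, ?_⟩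
    · refine b.zero_of_le_dist ?_
      rw [hb2, Real.dist_eq, sub_zero]
      exact hx.le
    · have := b.eventuallyEq_one
      filter_upwards [this] with x hx
      simpa using hx
  have hχz : ∀ (i : ℕ) (x : ℝ), 1 < |x| → iteratedDeriv i χ x = 0 := by
    intro i x hx
    have h1 : χ =ᶠ[𝓝 x] fun _ => 0 := by
      have h2 : ∀ᶠ y in 𝓝 x, 1 < |y| := (isOpen_lt continuous_const continuous_abs).mem_nhds hx
      filter_upwards [h2] with y hy using hχs y hy
    rw [h1.iteratedDeriv_eq]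
    simp [iteratedDeriv_const]
  have hχb : ∀ i : ℕ, ∃ C : ℝ, 0 ≤ C ∧ ∀ x, |iteratedDeriv i χ x| ≤ C := by
    intro i
    have h1 : Continuous (iteratedDeriv i χ) := hχc.continuous_iteratedDeriv i (by exact_mod_cast le_top)
    obtain ⟨C, hC⟩ := isCompact_Icc.exists_bound_of_continuousOn (s := Icc (-1:ℝ) 1) h1.continuousOn
    refine ⟨max C 0, le_max_right _ _, fun x => ?_⟩
    rcases lt_or_ge 1 (|x|) with hx | hx
    · rw [hχz i x hx, abs_zero]; exact le_max_right _ _
    · exact (hC x (abs_le.mp hx)).trans (le_max_left _ _)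
  choose X hX0 hX using hχb
  have hsum0 : 0 ≤ ∑ l ∈ Finset.range (m + 1), ((m + 1).choose l : ℝ) * X (m + 1 - l) :=
    Finset.sum_nonneg fun l _ => mul_nonneg (Nat.cast_nonneg _) (hX0 _)
  refine ⟨1 + ∑ l ∈ Finset.range (m + 1), ((m + 1).choose l : ℝ) * X (m + 1 - l), by linarith, ?_⟩
  obtain ⟨D, hD⟩ : ∃ D, D = 1 + ∑ l ∈ Finset.range (m + 1), ((m + 1).choose l : ℝ) * X (m + 1 - l) := ⟨_, rfl⟩
  rw [← hD]
  have hD0 : 0 < D := by rw [hD]; linarith
  intro F F' α K h hder hder0 hsm hα hK0 hh hα' hK hl hu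
  obtain ⟨P, hP⟩ : ∃ P : ℝ → ℝ, P = F m * χ := ⟨_, rfl⟩
  have hPz : ∀ x, 1 < |x| → P =ᶠ[𝓝 x] fun _ => 0 := by
    intro x hx
    have h2 : ∀ᶠ y in 𝓝 x, 1 < |y| := (isOpen_lt continuous_const continuous_abs).mem_nhds hx
    filter_upwards [h2] with y hy
    rw [hP, Pi.mul_apply, hχs y hy, mul_zero]
  have hPc : ContDiff ℝ ∞ P := by
    rw [contDiff_iff_contDiffAt]
    intro x
    rcases lt_or_ge (|x|) 2 with hx | hx
    · rw [hP]
      exact (hsm x (abs_lt.mp hx)).mul hχc.contDiffAt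
    · exact contDiffAt_const.congr_of_eventuallyEq (hPz x (by linarith))
  have hPd : ∀ (i : ℕ) (x : ℝ), HasDerivAt (iteratedDeriv i P) (iteratedDeriv (i + 1) P x) x := by
    intro i x
    rw [iteratedDeriv_succ]
    have h1 : Differentiable ℝ (iteratedDeriv i P) := by
      refine hPc.differentiable_iteratedDeriv i ?_
      exact_mod_cast (ENat.coe_lt_top i)
    exact (h1 x).hasDerivAt
  have hPiz : ∀ (i : ℕ) (x : ℝ), 1 < |x| → iteratedDeriv i P x = 0 := by
    intro i x hx
    rw [(hPz x hx).iteratedDeriv_eq]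
    simp
  -- the derivatives of F m
  have hFi : ∀ i ≤ m, ∀ x ∈ Ioo (-2 : ℝ) 2, iteratedDeriv i (F m) x = F (m - i) x := by
    intro i
    induction i with
    | zero => intro _ x _; simp
    | succ i ih =>
      intro hi x hx
      rw [iteratedDeriv_succ]
      have h1 : iteratedDeriv i (F m) =ᶠ[𝓝 x] F (m - i) := by
        filter_upwards [isOpen_Ioo.mem_nhds hx] with y hy using ih (by omega) y hy
      rw [h1.deriv_eq]
      have h2 := hder (m - (i + 1)) (by omega) x hx
      rw [show m - (i + 1) + 1 = m - i by omega] at h2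
      exact h2.deriv
  have hFl : ∀ x ∈ Ioo (-2 : ℝ) 2, iteratedDeriv (m + 1) (F m) x = F' x := by
    intro x hx
    rw [iteratedDeriv_succ]
    have h1 : iteratedDeriv m (F m) =ᶠ[𝓝 x] F 0 := by
      filter_upwards [isOpen_Ioo.mem_nhds hx] with y hy
      have := hFi m le_rfl y hy
      rwa [Nat.sub_self] at this
    rw [h1.deriv_eq]
    exact (hder0 x hx).deriv
  -- lower bound of the top derivative
  have hDK : 0 ≤ D * K := by positivity
  have hlow : ∀ x, -(α + D * K) ≤ iteratedDeriv (m + 1) P x := by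
    intro x
    rcases lt_or_ge 1 (|x|) with hx | hx
    · rw [hPiz _ x hx]; linarith
    · have hx1 : x ∈ Icc (-1 : ℝ) 1 := abs_le.mp hx
      have hx2 : x ∈ Ioo (-2 : ℝ) 2 := ⟨by linarith [hx1.1], by linarith [hx1.2]⟩
      have hc1 : ContDiffAt ℝ ((m + 1 : ℕ) : ℕ∞) (F m) x := (hsm x hx2).of_le (by exact_mod_cast le_top)
      have hc2 : ContDiffAt ℝ ((m + 1 : ℕ) : ℕ∞) χ x := hχc.contDiffAt.of_le (by exact_mod_cast le_top)
      rw [hP, iteratedDeriv_mul hc1 hc2, Finset.sum_range_succ]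
      have h1 : -(∑ l ∈ Finset.range (m + 1), ((m + 1).choose l : ℝ) * X (m + 1 - l)) * K ≤
          ∑ l ∈ Finset.range (m + 1), ((m + 1).choose l : ℝ) * iteratedDeriv l (F m) x * iteratedDeriv (m + 1 - l) χ x := by
        rw [neg_mul, Finset.sum_mul, ← Finset.sum_neg_distrib]
        refine Finset.sum_le_sum fun l hl => ?_
        rw [Finset.mem_range] at hl
        rw [hFi l (by omega) x hx2]
        have h3 : |F (m - l) x * iteratedDeriv (m + 1 - l) χ x| ≤ K * X (m + 1 - l) := by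
          rw [abs_mul]
          exact mul_le_mul (hK (m - l) (by omega) x hx1) (hX _ _) (abs_nonneg _) hK0
        have h4 := (abs_le.mp h3).1
        have h5 : (0 : ℝ) ≤ ((m + 1).choose l : ℝ) := Nat.cast_nonneg _
        nlinarith
      have h2 : -α ≤ ((m + 1).choose (m + 1) : ℝ) * iteratedDeriv (m + 1) (F m) x * iteratedDeriv (m + 1 - (m + 1)) χ x := by
        rw [Nat.choose_self, Nat.sub_self, iteratedDeriv_zero, hFl x hx2, Nat.cast_one, one_mul]
        have h6 := hα' x hx1
        have h7 := hχ0 x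
        have h8 := hχ1 x
        nlinarith
      have h9 : (∑ l ∈ Finset.range (m + 1), ((m + 1).choose l : ℝ) * X (m + 1 - l)) * K ≤ D * K :=
        mul_le_mul_of_nonneg_right (by rw [hD]; linarith) hK0
      linarith
  obtain ⟨f, hf⟩ : ∃ f : ℕ → ℝ → ℝ, f = fun j => iteratedDeriv (m - j) P := ⟨_, rfl⟩
  have hfj : ∀ j, f j = iteratedDeriv (m - j) P := fun j => by rw [hf]
  have hlo := lo_neg m
  have hhi := hi_pos m
  have hA : 0 < (α + D * K) * h ^ (m + 1) := by positivity
  have hPm : ∀ x, |x| ≤ 1 → P x = F m x * χ x := fun x _ => by rw [hP]; rfl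
  have hmain := comp_supp (m := m) (f := f) (f' := iteratedDeriv (m + 1) P) (fun j hj x => ?_) (fun x => ?_)
    (fun j hj x hx => ?_) (fun x hx => hPiz _ x hx) (α := α + D * K) (h := h) (by linarith) hh hlow
    (fun x => ?_) (fun x => ?_)
  · intro j hj
    have h1 := hmain j hj
    have h2 : f j 0 = F j 0 := by
      rw [hfj]
      have h3 : P =ᶠ[𝓝 0] F m := by
        filter_upwards [hχone] with y hy
        rw [hP, Pi.mul_apply, hy, mul_one]
      rw [h3.iteratedDeriv_eq, hFi (m - j) (by omega) 0 (by norm_num)]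
      congr 1
      omega
    rwa [h2] at h1
  · rw [hfj, hfj]
    have := hPd (m - (j + 1)) x
    rwa [show m - (j + 1) + 1 = m - j by omega] at this
  · rw [hfj, Nat.sub_zero]
    exact hPd m x
  · rw [hfj]
    exact hPiz _ x hx
  · rw [hfj, Nat.sub_self, iteratedDeriv_zero]
    rcases lt_or_ge 1 (|x|) with hx | hx
    · have := hPiz 0 x hx
      rw [iteratedDeriv_zero] at this
      rw [this]
      nlinarith
    · rw [hPm x hx]
      have h1 := hl x (abs_le.mp hx)
      have h7 := hχ0 x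
      have h8 := hχ1 x
      have h9 : (α + D * K) * h ^ (m + 1) * lo m < 0 := mul_neg_of_pos_of_neg hA hlo
      nlinarith
  · rw [hfj, Nat.sub_self, iteratedDeriv_zero]
    rcases lt_or_ge 1 (|x|) with hx | hx
    · have := hPiz 0 x hx
      rw [iteratedDeriv_zero] at this
      rw [this]
      positivity
    · rw [hPm x hx]
      have h1 := hu x (abs_le.mp hx)
      have h7 := hχ0 x
      have h8 := hχ1 x
      have h9 : 0 < (α + D * K) * h ^ (m + 1) * hi m := mul_pos hA hhi
      nlinarith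

end Q241.SN
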