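import Mathlib
import Pool.Agent.Q241.SN.Chain
import Pool.Agent.Q241.SN.Cut

set_option autoImplicit false

/-! The sharp bounds on vertical lines close to the critical line. -/

namespace Q241.SN

open Set Filter Topology Complex MeasureTheory
open scoped Nat ContDiff

/-- interior point with small second derivative -/
lemma landau_pt {f2 f1 f0 : ℝ → ℝ} {τ h M : ℝ} (hh : 0 < h)
    (hd2 : ∀ x ∈ Icc τ (τ + h), HasDerivAt f2 (f1 x) x) (hd1 : ∀ x ∈ Icc τ (τ + h), HasDerivAt f1 (f0 x) x)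
    (hM : ∀ x ∈ Icc τ (τ + h), |f2 x| ≤ M) : ∃ ξ ∈ Icc τ (τ + h), |f0 ξ| ≤ 36 * M / h ^ 2 := by
  obtain ⟨k, hk⟩ : ∃ k, k = h / 3 := ⟨_, rfl⟩
  have hk0 : 0 < k := by rw [hk]; positivity
  have hh3 : h = 3 * k := by rw [hk]; ring
  have hsub : ∀ x y : ℝ, τ ≤ x → y ≤ τ + h → ∀ z ∈ Icc x y, z ∈ Icc τ (τ + h) := fun x y hx hy z hz =>
    ⟨hx.trans hz.1, hz.2.trans hy⟩
  have mv : ∀ f f' : ℝ → ℝ, (∀ x ∈ Icc τ (τ + h), HasDerivAt f (f' x) x) → ∀ x y : ℝ, τ ≤ x → x < y → y ≤ τ + h →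
      ∃ c ∈ Ioo x y, f' c = (f y - f x) / (y - x) := by
    intro f f' hf x y hx hxy hy
    exact exists_hasDerivAt_eq_slope f f' hxy (fun z hz => (hf z (hsub x y hx hy z hz)).continuousAt.continuousWithinAt)
      (fun z hz => hf z (hsub x y hx hy z (Ioo_subset_Icc_self hz)))
  obtain ⟨ξ1, h1, e1⟩ := mv f2 f1 hd2 τ (τ + k) le_rfl (by linarith) (by linarith)
  obtain ⟨ξ2, h2, e2⟩ := mv f2 f1 hd2 (τ + 2 * k) (τ + h) (by linarith) (by linarith) le_rfl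
  obtain ⟨ξ3, h3, e3⟩ := mv f1 f0 hd1 ξ1 ξ2 h1.1.le (by linarith [h1.2, h2.1]) h2.2.le
  refine ⟨ξ3, ⟨by linarith [h1.1, h3.1], by linarith [h2.2, h3.2]⟩, ?_⟩
  have hM0 : 0 ≤ M := (abs_nonneg _).trans (hM τ ⟨le_rfl, by linarith⟩)
  have b1 : |f1 ξ1| ≤ 2 * M / k := by
    rw [e1, show τ + k - τ = k by ring, abs_div, abs_of_pos hk0]
    refine div_le_div_of_nonneg_right ?_ hk0.le
    have a1 := hM τ ⟨le_rfl, by linarith⟩
    have a2 := hM (τ + k) ⟨by linarith, by linarith⟩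
    have := abs_sub (f2 (τ + k)) (f2 τ)
    linarith
  have b2 : |f1 ξ2| ≤ 2 * M / k := by
    rw [e2, show τ + h - (τ + 2 * k) = k by rw [hh3]; ring, abs_div, abs_of_pos hk0]
    refine div_le_div_of_nonneg_right ?_ hk0.le
    have a1 := hM (τ + 2 * k) ⟨by linarith, by linarith⟩
    have a2 := hM (τ + h) ⟨by linarith, by linarith⟩
    have := abs_sub (f2 (τ + h)) (f2 (τ + 2 * k))
    linarith
  have hξ : k ≤ ξ2 - ξ1 := by linarith [h1.2, h2.1]
  rw [e3, abs_div, abs_of_pos (by linarith : 0 < ξ2 - ξ1)]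
  have b3 : |f1 ξ2 - f1 ξ1| ≤ 4 * M / k := by
    have := abs_sub (f1 ξ2) (f1 ξ1)
    have e : 4 * M / k = 2 * M / k + 2 * M / k := by ring
    rw [e]; linarith
  calc |f1 ξ2 - f1 ξ1| / (ξ2 - ξ1) ≤ (4 * M / k) / k := by
        refine div_le_div₀ (by positivity) b3 hk0 hξ
    _ = 36 * M / h ^ 2 := by rw [hh3]; field_simp; ring

lemma landau_mid {f2 f1 f0 : ℝ → ℝ} {τ h M M0 : ℝ} (hh : 0 < h)
    (hd2 : ∀ x ∈ Icc τ (τ + h), HasDerivAt f2 (f1 x) x) (hd1 : ∀ x ∈ Icc τ (τ + h), HasDerivAt f1 (f0 x) x)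
    (hM : ∀ x ∈ Icc τ (τ + h), |f2 x| ≤ M) (hM0 : ∀ x ∈ Icc τ (τ + h), |f0 x| ≤ M0) :
    |f1 τ| ≤ 2 * M / h + h * M0 := by
  obtain ⟨ξ, h1, e1⟩ := exists_hasDerivAt_eq_slope f2 f1 (by linarith : τ < τ + h)
    (fun z hz => (hd2 z hz).continuousAt.continuousWithinAt) (fun z hz => hd2 z (Ioo_subset_Icc_self hz))
  obtain ⟨ξ', h2, e2⟩ := exists_hasDerivAt_eq_slope f1 f0 h1.1
    (fun z hz => (hd1 z ⟨hz.1, hz.2.trans h1.2.le⟩).continuousAt.continuousWithinAt)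
    (fun z hz => hd1 z ⟨hz.1.le, hz.2.le.trans h1.2.le⟩)
  have b1 : |f1 ξ| ≤ 2 * M / h := by
    rw [e1, show τ + h - τ = h by ring, abs_div, abs_of_pos hh]
    refine div_le_div_of_nonneg_right ?_ hh.le
    have a1 := hM τ ⟨le_rfl, by linarith⟩
    have a2 := hM (τ + h) ⟨by linarith, by linarith⟩
    have := abs_sub (f2 (τ + h)) (f2 τ)
    linarith
  have e3 : f1 τ = f1 ξ - f0 ξ' * (ξ - τ) := by
    rw [e2, div_mul_cancel₀ _ (by linarith [h1.1])]; ring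
  have b2 := hM0 ξ' ⟨h2.1.le, h2.2.le.trans h1.2.le⟩
  have b3 : |f0 ξ' * (ξ - τ)| ≤ h * M0 := by
    rw [abs_mul, abs_of_pos (by linarith [h1.1] : 0 < ξ - τ), mul_comm]
    exact mul_le_mul (by linarith [h1.2]) b2 (abs_nonneg _) hh.le
  rw [e3]
  have := abs_sub (f1 ξ) (f0 ξ' * (ξ - τ))
  linarith

/-- all the hypotheses -/
structure LK (L : ℂ → ℂ) (C1 : ℝ) : Prop extends LH L where
  gro : ∀ r : ℝ, 1 / 2 < r → ∃ C : ℝ, 0 < C ∧ ∀ k : ℕ, 1 ≤ k → ∀ᶠ t : ℝ in atTop, ∀ a : ℝ, 0 < a →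
    ‖MM L k (a + t * I)‖ ≤ C * r ^ (k + 1) * (Real.log t / Real.log (Real.log t) ^ (k + 2))
  hC1 : 0 ≤ C1
  low : ∀ z : ℂ, 0 < z.re → z.re ≤ 1 → 1 ≤ z.im → -(Real.log z.im / 2 + C1) ≤ (deriv L z).re

variable {L : ℂ → ℂ} {C1 : ℝ}

lemma ev_window {P : ℝ → Prop} (h : ∀ᶠ t in atTop, P t) :
    ∀ᶠ t : ℝ in atTop, ∀ u ∈ Icc (t - 1) (t + 1), P u := by
  obtain ⟨T, hT⟩ := eventually_atTop.mp h
  filter_upwards [eventually_ge_atTop (T + 1)] with t ht u hu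
  exact hT u (by linarith [hu.1])

lemma log_window {t u : ℝ} (ht : 3 ≤ t) (hl : 2 ≤ Real.log t) (hu : u ∈ Icc (t - 1) (t + 1)) :
    Real.log t - 1 ≤ Real.log u ∧ Real.log u ≤ Real.log t + 1 ∧
    Real.log (Real.log t) - 1 ≤ Real.log (Real.log u) := by
  have he : (2:ℝ) < Real.exp 1 := by
    have := Real.exp_one_gt_d9; linarith
  have h1 : Real.log t - 1 ≤ Real.log u := by
    have h2 : t / Real.exp 1 ≤ u := by
      rw [div_le_iff₀ (Real.exp_pos 1)]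
      nlinarith [hu.1]
    have h3 := Real.log_le_log (by positivity) h2
    rwa [Real.log_div (by linarith) (Real.exp_pos 1).ne', Real.log_exp] at h3
  have h2 : Real.log u ≤ Real.log t + 1 := by
    have h3 : u ≤ t * Real.exp 1 := by nlinarith [hu.2]
    have h4 := Real.log_le_log (by linarith [hu.1]) h3
    rwa [Real.log_mul (by linarith) (Real.exp_pos 1).ne', Real.log_exp] at h4
  refine ⟨h1, h2, ?_⟩
  have h5 : Real.log t / Real.exp 1 ≤ Real.log u := by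
    refine le_trans ?_ h1
    rw [div_le_iff₀ (Real.exp_pos 1)]
    nlinarith
  have h6 := Real.log_le_log (by positivity) h5
  rwa [Real.log_div (by linarith) (Real.exp_pos 1).ne', Real.log_exp] at h6

lemma Lam_window (k : ℕ) : ∀ᶠ t : ℝ in atTop, ∀ u ∈ Icc (t - 1) (t + 1),
    Real.log u / Real.log (Real.log u) ^ k ≤ 4 * (Real.log t / Real.log (Real.log t) ^ k) := by
  have h1 : Tendsto (fun t : ℝ => (1 - 1 / Real.log (Real.log t)) ^ k) atTop (𝓝 1) := by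
    have h2 : Tendsto (fun t : ℝ => 1 / Real.log (Real.log t)) atTop (𝓝 0) := by
      simp only [one_div]
      exact tendsto_inv_atTop_zero.comp (Real.tendsto_log_atTop.comp Real.tendsto_log_atTop)
    have h3 := (tendsto_const_nhds (x := (1:ℝ))).sub h2
    have h4 := h3.pow k
    simpa using h4
  have ev1 := h1.eventually (lt_mem_nhds (show (1:ℝ) / 2 < 1 by norm_num))
  have ev2 : ∀ᶠ t : ℝ in atTop, 2 ≤ Real.log (Real.log t) :=
    (Real.tendsto_log_atTop.comp Real.tendsto_log_atTop).eventually_ge_atTop 2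
  have ev3 : ∀ᶠ t : ℝ in atTop, 2 ≤ Real.log t := Real.tendsto_log_atTop.eventually_ge_atTop 2
  filter_upwards [ev1, ev2, ev3, eventually_ge_atTop 3] with t h3 h4 h5 h6 u hu
  obtain ⟨h7, h8, h9⟩ := log_window h6 h5 hu
  obtain ⟨ℓ, hℓ⟩ : ∃ ℓ, ℓ = Real.log (Real.log t) := ⟨_, rfl⟩
  rw [← hℓ] at h3 h4 h9 ⊢
  have hℓ0 : 0 < ℓ := by linarith
  have h10 : ℓ ^ k / 2 ≤ Real.log (Real.log u) ^ k := by
    have h11 : ℓ ^ k * (1 - 1 / ℓ) ^ k ≤ Real.log (Real.log u) ^ k := by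
      rw [← mul_pow]
      refine pow_le_pow_left₀ ?_ ?_ k
      · have : ℓ * (1 - 1 / ℓ) = ℓ - 1 := by field_simp
        rw [this]; linarith
      · have : ℓ * (1 - 1 / ℓ) = ℓ - 1 := by field_simp
        rw [this]; exact h9
    have h12 : 0 < ℓ ^ k := by positivity
    nlinarith
  have h13 : 0 < ℓ ^ k := by positivity
  calc Real.log u / Real.log (Real.log u) ^ k ≤ (2 * Real.log t) / (ℓ ^ k / 2) :=
        div_le_div₀ (by linarith) (by linarith) (by positivity) h10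
    _ = 4 * (Real.log t / ℓ ^ k) := by field_simp; norm_num

lemma SA_le_norm (k : ℕ) (a t : ℝ) : |SA L (k + 1) a t| ≤ ‖MM L k (a + t * I)‖ := by
  show |(I ^ (k + 1) * MM L k (a + t * I)).im / Real.pi| ≤ _
  rw [abs_div, abs_of_pos Real.pi_pos]
  have h1 := Complex.abs_im_le_norm (I ^ (k + 1) * MM L k (a + t * I))
  rw [norm_mul, norm_pow, Complex.norm_I, one_pow, one_mul] at h1
  have h2 := Real.pi_gt_three
  rw [div_le_iff₀ Real.pi_pos]
  nlinarith [norm_nonneg (MM L k (a + t * I))]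

lemma LK.SA_ge_two (h : LK L C1) (k : ℕ) : ∃ C : ℝ, 0 < C ∧ ∀ᶠ t : ℝ in atTop, ∀ a : ℝ, 0 < a →
    |SA L (k + 2) a t| ≤ C * (Real.log t / Real.log (Real.log t) ^ (k + 3)) := by
  obtain ⟨C, hC, hg⟩ := h.gro 1 (by norm_num)
  refine ⟨C, hC, ?_⟩
  filter_upwards [hg (k + 1) (by omega)] with t ht a ha
  refine (SA_le_norm (k + 1) a t).trans ((ht a ha).trans (le_of_eq ?_))
  rw [one_pow, mul_one]

lemma LK.slope (h : LK L C1) : ∀ᶠ t : ℝ in atTop, ∀ a : ℝ, 0 < a → a ≤ 1 → ∀ u ∈ Icc (t - 1) (t + 1),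
    -Real.log t ≤ (deriv L (a + u * I)).re / Real.pi := by
  have ev3 : ∀ᶠ t : ℝ in atTop, 2 + C1 ≤ Real.log t := Real.tendsto_log_atTop.eventually_ge_atTop _
  filter_upwards [ev3, eventually_ge_atTop 3] with t h3 h4 a ha ha1 u hu
  have hC1 := h.hC1
  obtain ⟨h7, h8, h9⟩ := log_window h4 (by linarith) hu
  have h5 := h.low (a + u * I) (by rw [re_xu]; exact ha) (by rw [re_xu]; exact ha1) (by rw [im_xu]; linarith [hu.1])
  rw [im_xu] at h5
  rw [le_div_iff₀ Real.pi_pos]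
  have := Real.pi_gt_three
  nlinarith

lemma LH.mono_of_slope (h : LH L) {a β x y : ℝ} (ha : 0 < a) (hx : 0 < x) (hxy : x ≤ y)
    (hs : ∀ u ∈ Icc x y, -β ≤ (deriv L (a + u * I)).re / Real.pi) : SA L 0 a x - β * (y - x) ≤ SA L 0 a y := by
  have hd : ∀ u ∈ Icc x y, HasDerivAt (fun u => SA L 0 a u + β * u) ((deriv L (a + u * I)).re / Real.pi + β) u := by
    intro u hu
    have h1 := h.SA_deriv0 ha (lt_of_lt_of_le hx hu.1)
    have h2 : HasDerivAt (fun u : ℝ => β * u) β u := by simpa using (hasDerivAt_id u).const_mul β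
    exact h1.add h2
  have hm : MonotoneOn (fun u => SA L 0 a u + β * u) (Icc x y) := by
    refine monotoneOn_of_deriv_nonneg (convex_Icc x y) (fun u hu => (hd u hu).continuousAt.continuousWithinAt)
      (fun u hu => (hd u (interior_subset hu)).differentiableAt.differentiableWithinAt) (fun u hu => ?_)
    rw [(hd u (interior_subset hu)).deriv]
    linarith [hs u (interior_subset hu)]
  have := hm (left_mem_Icc.mpr hxy) (right_mem_Icc.mpr hxy) hxy
  simp only at this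
  linarith

lemma LK.SA_zero (h : LK L C1) : ∃ C : ℝ, 0 < C ∧ ∀ᶠ t : ℝ in atTop, ∀ a : ℝ, 0 < a → a ≤ 1 →
    |SA L 0 a t| ≤ C * (Real.log t / Real.log (Real.log t)) := by
  obtain ⟨C, hC, hg⟩ := h.SA_ge_two 0
  refine ⟨144 * C + 1, by positivity, ?_⟩
  have ev2 : ∀ᶠ t : ℝ in atTop, 2 ≤ Real.log (Real.log t) :=
    (Real.tendsto_log_atTop.comp Real.tendsto_log_atTop).eventually_ge_atTop 2
  have ev3 : ∀ᶠ t : ℝ in atTop, 2 ≤ Real.log t := Real.tendsto_log_atTop.eventually_ge_atTop 2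
  filter_upwards [ev_window hg, Lam_window 3, h.slope, ev2, ev3, eventually_ge_atTop 3] with t h1 h2 h3 h4 h5 h6 a ha ha1
  obtain ⟨ℓ, hℓ⟩ : ∃ ℓ, ℓ = Real.log (Real.log t) := ⟨_, rfl⟩
  rw [← hℓ] at h4 h2 ⊢
  have hℓ0 : 0 < ℓ := by linarith
  have hh : 0 < 1 / ℓ := by positivity
  have hh1 : 1 / ℓ ≤ 1 := by rw [div_le_one hℓ0]; linarith
  have hM : ∀ u ∈ Icc (t - 1) (t + 1), |SA L 2 a u| ≤ 4 * C * (Real.log t / ℓ ^ 3) := by
    intro u hu
    have e1 := h1 u hu a ha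
    have e2 := h2 u hu
    calc |SA L 2 a u| ≤ C * (Real.log u / Real.log (Real.log u) ^ 3) := e1
      _ ≤ C * (4 * (Real.log t / ℓ ^ 3)) := mul_le_mul_of_nonneg_left e2 hC.le
      _ = _ := by ring
  have hdd : ∀ n : ℕ, ∀ u ∈ Icc (t - 1) (t + 1), HasDerivAt (SA L (n + 1) a) (SA L n a u) u := fun n u hu =>
    h.toLH.SA_deriv n ha (by linarith [hu.1])
  have hs := fun u hu => h3 a ha ha1 u hu
  have e36 : 36 * (4 * C * (Real.log t / ℓ ^ 3)) / (1 / ℓ) ^ 2 = 144 * C * (Real.log t / ℓ) := by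
    field_simp; norm_num
  rw [abs_le]
  constructor
  · obtain ⟨ξ, hξ, hξ2⟩ := landau_pt (f2 := SA L 2 a) (f1 := SA L 1 a) (f0 := SA L 0 a) (τ := t - 1 / ℓ) hh
      (fun x hx => hdd 1 x ⟨by linarith [hx.1], by linarith [hx.2]⟩)
      (fun x hx => hdd 0 x ⟨by linarith [hx.1], by linarith [hx.2]⟩)
      (fun x hx => hM x ⟨by linarith [hx.1], by linarith [hx.2]⟩)
    rw [e36] at hξ2
    have hξt : ξ ≤ t := by linarith [hξ.2]
    have h7 := h.toLH.mono_of_slope (β := Real.log t) ha (by linarith [hξ.1]) hξt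
      (fun u hu => hs u ⟨by linarith [hu.1, hξ.1], by linarith [hu.2]⟩)
    have h8 : Real.log t * (t - ξ) ≤ Real.log t * (1 / ℓ) := mul_le_mul_of_nonneg_left (by linarith [hξ.1]) (by linarith)
    have h9 := (abs_le.mp hξ2).1
    have e2 : Real.log t * (1 / ℓ) = Real.log t / ℓ := by ring
    have e3 : (144 * C + 1) * (Real.log t / ℓ) = 144 * C * (Real.log t / ℓ) + Real.log t / ℓ := by ring
    linarith
  · obtain ⟨ξ, hξ, hξ2⟩ := landau_pt (f2 := SA L 2 a) (f1 := SA L 1 a) (f0 := SA L 0 a) (τ := t) hh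
      (fun x hx => hdd 1 x ⟨by linarith [hx.1], by linarith [hx.2]⟩)
      (fun x hx => hdd 0 x ⟨by linarith [hx.1], by linarith [hx.2]⟩)
      (fun x hx => hM x ⟨by linarith [hx.1], by linarith [hx.2]⟩)
    rw [e36] at hξ2
    have h7 := h.toLH.mono_of_slope (β := Real.log t) ha (by linarith) hξ.1
      (fun u hu => hs u ⟨by linarith [hu.1], by linarith [hu.2, hξ.2]⟩)
    have h8 : Real.log t * (ξ - t) ≤ Real.log t * (1 / ℓ) := mul_le_mul_of_nonneg_left (by linarith [hξ.2]) (by linarith)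
    have h9 := (abs_le.mp hξ2).2
    have e2 : Real.log t * (1 / ℓ) = Real.log t / ℓ := by ring
    have e3 : (144 * C + 1) * (Real.log t / ℓ) = 144 * C * (Real.log t / ℓ) + Real.log t / ℓ := by ring
    linarith

lemma LK.SA_all (h : LK L C1) (j : ℕ) : ∃ C : ℝ, 0 < C ∧ ∀ᶠ t : ℝ in atTop, ∀ a : ℝ, 0 < a → a ≤ 1 →
    |SA L j a t| ≤ C * (Real.log t / Real.log (Real.log t)) := by
  have ev2 : ∀ᶠ t : ℝ in atTop, 2 ≤ Real.log (Real.log t) :=
    (Real.tendsto_log_atTop.comp Real.tendsto_log_atTop).eventually_ge_atTop 2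
  have ev3 : ∀ᶠ t : ℝ in atTop, 2 ≤ Real.log t := Real.tendsto_log_atTop.eventually_ge_atTop 2
  rcases j with _ | _ | j
  · exact h.SA_zero
  · obtain ⟨C, hC, hg⟩ := h.SA_ge_two 0
    obtain ⟨C', hC', hg'⟩ := h.SA_zero
    refine ⟨8 * C + 4 * C', by positivity, ?_⟩
    filter_upwards [ev_window hg, Lam_window 3, ev_window hg', Lam_window 1, ev2, ev3, eventually_ge_atTop 3] with t h1 h2 h1' h2' h4 h5 h6 a ha ha1
    obtain ⟨ℓ, hℓ⟩ : ∃ ℓ, ℓ = Real.log (Real.log t) := ⟨_, rfl⟩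
    rw [← hℓ] at h4 h2 h2' ⊢
    have hℓ0 : 0 < ℓ := by linarith
    have hLt : 0 ≤ Real.log t / ℓ := by positivity
    have hM : ∀ u ∈ Icc (t - 1) (t + 1), |SA L 2 a u| ≤ 4 * C * (Real.log t / ℓ ^ 3) := by
      intro u hu
      have e1 := h1 u hu a ha
      have e2 := h2 u hu
      calc |SA L 2 a u| ≤ C * (Real.log u / Real.log (Real.log u) ^ 3) := e1
        _ ≤ C * (4 * (Real.log t / ℓ ^ 3)) := mul_le_mul_of_nonneg_left e2 hC.le
        _ = _ := by ring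
    have hM' : ∀ u ∈ Icc (t - 1) (t + 1), |SA L 0 a u| ≤ 4 * C' * (Real.log t / ℓ) := by
      intro u hu
      have e1 := h1' u hu a ha ha1
      have e2 := h2' u hu
      rw [pow_one, pow_one] at e2
      calc |SA L 0 a u| ≤ C' * (Real.log u / Real.log (Real.log u)) := e1
        _ ≤ C' * (4 * (Real.log t / ℓ)) := mul_le_mul_of_nonneg_left e2 hC'.le
        _ = _ := by ring
    have hdd : ∀ n : ℕ, ∀ u ∈ Icc (t - 1) (t + 1), HasDerivAt (SA L (n + 1) a) (SA L n a u) u := fun n u hu =>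
      h.toLH.SA_deriv n ha (by linarith [hu.1])
    have h7 := landau_mid (f2 := SA L 2 a) (f1 := SA L 1 a) (f0 := SA L 0 a) (τ := t) one_pos
      (fun x hx => hdd 1 x ⟨by linarith [hx.1], by linarith [hx.2]⟩)
      (fun x hx => hdd 0 x ⟨by linarith [hx.1], by linarith [hx.2]⟩)
      (fun x hx => hM x ⟨by linarith [hx.1], by linarith [hx.2]⟩)
      (fun x hx => hM' x ⟨by linarith [hx.1], by linarith [hx.2]⟩)
    have h8 : Real.log t / ℓ ^ 3 ≤ Real.log t / ℓ := by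
      refine div_le_div_of_nonneg_left (by linarith) hℓ0 ?_
      nlinarith [sq_nonneg ℓ, mul_self_nonneg (ℓ - 1)]
    have h9 : 2 * (4 * C * (Real.log t / ℓ ^ 3)) / 1 + 1 * (4 * C' * (Real.log t / ℓ)) ≤ (8 * C + 4 * C') * (Real.log t / ℓ) := by
      have : C * (Real.log t / ℓ ^ 3) ≤ C * (Real.log t / ℓ) := mul_le_mul_of_nonneg_left h8 hC.le
      linarith
    exact h7.trans h9
  · obtain ⟨C, hC, hg⟩ := h.SA_ge_two j
    refine ⟨C, hC, ?_⟩
    filter_upwards [hg, ev2, ev3] with t h1 h4 h5 a ha ha1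
    refine (h1 a ha).trans (mul_le_mul_of_nonneg_left ?_ hC.le)
    refine div_le_div_of_nonneg_left (by linarith) (by linarith) ?_
    calc Real.log (Real.log t) = Real.log (Real.log t) ^ 1 := (pow_one _).symm
      _ ≤ Real.log (Real.log t) ^ (j + 3) := pow_le_pow_right₀ (by linarith) (by omega)

end Q241.SN
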