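import Mathlib
import Pool.Agent.Q241.SN.Gdef2
import Pool.Agent.Q241.SN.Grow3
import Pool.Agent.Q241.SN.MainA

set_option autoImplicit false

/-! The logarithm of `ζ` satisfies all the hypotheses. -/

namespace Q241.SN

open Set Filter Topology Complex
open Pool.Agent.H24R2.JP (XX)
open Pool.Agent.H24R2.JP

/-- the correction term -/
noncomputable def EE (z : ℂ) : ℂ := Complex.log ((z - 1 / 2) / (z + 3 / 2))

/-- package of the properties of the logarithm -/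
structure GG (g : ℂ → ℂ) : Prop where
  der : ∀ z : ℂ, 0 < z.re → HasDerivAt g (deriv ZZ z / ZZ z) z
  exp : ∀ z : ℂ, 0 < z.re → exp (g z) = ZZ z
  far : ∀ z : ℂ, 1 / 2 < z.re → g z = LP (1 / 2 + z) + EE z
  real : ∀ x : ℝ, 0 < x → (g x).im = 0

lemma exists_GG (hRH : RiemannHypothesis) : ∃ g : ℂ → ℂ, GG g := by
  obtain ⟨g, h1, h2, h3, h4⟩ := exists_g hRH
  exact ⟨g, h1, h2, h3, h4⟩

lemma EE_norm_le {z : ℂ} {c : ℝ} (hc : 0 < c) (h1 : c ≤ ‖(z - 1 / 2) / (z + 3 / 2)‖)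
    (h2 : ‖(z - 1 / 2) / (z + 3 / 2)‖ ≤ 1) : ‖EE z‖ ≤ Real.log (1 / c) + Real.pi := by
  unfold EE
  have h3 := Complex.norm_le_abs_re_add_abs_im (Complex.log ((z - 1 / 2) / (z + 3 / 2)))
  rw [Complex.log_re, Complex.log_im] at h3
  have h4 := Complex.abs_arg_le_pi ((z - 1 / 2) / (z + 3 / 2))
  have h5 : |Real.log ‖(z - 1 / 2) / (z + 3 / 2)‖| ≤ Real.log (1 / c) := by
    have e0 : Real.log (1 / c) = -Real.log c := by rw [one_div, Real.log_inv]
    rw [abs_of_nonpos (Real.log_nonpos (norm_nonneg _) h2), e0]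
    exact neg_le_neg (Real.log_le_log hc h1)
  linarith

lemma ratio_le {z : ℂ} (hz : 0 < z.re) : ‖(z - 1 / 2) / (z + 3 / 2)‖ ≤ 1 := by
  have h5' : (z + 3 / 2 : ℂ) ≠ 0 := by
    rw [add_comm]; exact ne_of_re (by rw [re_half3]; linarith)
  rw [norm_div, div_le_one (norm_pos_iff.mpr h5')]
  rw [← sq_le_sq₀ (norm_nonneg _) (norm_nonneg _), ← Complex.normSq_eq_norm_sq, ← Complex.normSq_eq_norm_sq,
    Complex.normSq_apply, Complex.normSq_apply]
  have e1 : (z - 1 / 2 : ℂ).re = z.re - 1 / 2 := by simp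
  have e2 : (z - 1 / 2 : ℂ).im = z.im := by simp
  have e3 : (z + 3 / 2 : ℂ).re = z.re + 3 / 2 := by simp
  have e4 : (z + 3 / 2 : ℂ).im = z.im := by simp
  rw [e1, e2, e3, e4]
  nlinarith

lemma GG.bdd {g : ℂ → ℂ} (h : GG g) (η : ℝ) (hη : 0 < η) :
    ∃ C : ℝ, 1 ≤ C ∧ ∀ z : ℂ, 1 / 2 + η ≤ z.re → ‖g z‖ ≤ C := by
  obtain ⟨C, hC, hb⟩ := LP_bound (σ0 := 1 + η) (by linarith)
  refine ⟨C + (Real.log (1 / (η / (η + 2))) + Real.pi) + 1, ?_, fun z hz => ?_⟩
  · have : 0 ≤ Real.log (1 / (η / (η + 2))) := by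
      apply Real.log_nonneg
      rw [one_div, inv_div, le_div_iff₀ hη]
      linarith
    linarith [Real.pi_pos]
  · rw [h.far z (by linarith)]
    have h1 := hb (1 / 2 + z) (by rw [re_half]; linarith)
    have h2 : (2 : ℝ) ^ (-(1 / 2 + z : ℂ).re) ≤ 1 := by
      refine Real.rpow_le_one_of_one_le_of_nonpos (by norm_num) ?_
      rw [re_half]; linarith
    have h3 : ‖LP (1 / 2 + z)‖ ≤ C := h1.trans (by nlinarith)
    have h4 : ‖EE z‖ ≤ Real.log (1 / (η / (η + 2))) + Real.pi := by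
      refine EE_norm_le (by positivity) ?_ (ratio_le (by linarith))
      have h5' : (z + 3 / 2 : ℂ) ≠ 0 := by
        rw [add_comm]; exact ne_of_re (by rw [re_half3]; linarith)
      have h6 : (0 : ℝ) < ‖(z + 3 / 2 : ℂ)‖ := norm_pos_iff.mpr h5'
      rw [norm_div, div_le_div_iff₀ (by linarith) h6]
      -- η |z+3/2| ≤ |z - 1/2| (η+2)
      have h7 : ‖(z + 3 / 2 : ℂ)‖ ≤ ‖(z - 1 / 2 : ℂ)‖ + 2 := by
        have : (z + 3 / 2 : ℂ) = (z - 1 / 2) + 2 := by ring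
        rw [this]
        refine (norm_add_le _ _).trans ?_
        simp
      have h8 : η ≤ ‖(z - 1 / 2 : ℂ)‖ := by
        have := Complex.re_le_norm (z - 1 / 2)
        have e1 : (z - 1 / 2 : ℂ).re = z.re - 1 / 2 := by simp
        rw [e1] at this
        linarith
      nlinarith
    refine (norm_add_le _ _).trans ?_
    linarith

/-- Gamma factor bound -/
lemma GR_bound : ∃ C : ℝ, 0 ≤ C ∧ ∀ z : ℂ, 0 < z.re → z.re ≤ 1 →
    (logDeriv Gammaℝ (1 / 2 + z)).re ≤ Real.log (|z.im| + 3) / 2 + C := by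
  obtain ⟨C, hC, hb⟩ := H370.DL.logDeriv_Gammaℝ_bound
  have hK : IsCompact {z : ℂ | 0 ≤ z.re ∧ z.re ≤ 1 ∧ -1 ≤ z.im ∧ z.im ≤ 1} := by
    have h1 : {z : ℂ | 0 ≤ z.re ∧ z.re ≤ 1 ∧ -1 ≤ z.im ∧ z.im ≤ 1} = Icc 0 1 ×ℂ Icc (-1) 1 := by
      ext z
      simp only [Set.mem_ofPred_eq, Complex.mem_reProdIm, Set.mem_Icc]
      tauto
    rw [h1]
    exact isCompact_Icc.reProdIm isCompact_Icc
  have hc : ContinuousOn (fun z : ℂ => logDeriv Gammaℝ (1 / 2 + z)) {z : ℂ | 0 ≤ z.re ∧ z.re ≤ 1 ∧ -1 ≤ z.im ∧ z.im ≤ 1} := by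
    intro z hz
    have hopen : IsOpen {s : ℂ | 0 < s.re} := isOpen_lt continuous_const Complex.continuous_re
    have hdo : DifferentiableOn ℂ Gammaℝ {s : ℂ | 0 < s.re} := fun s hs => (GR_diff hs).differentiableWithinAt
    have hmem : (1 / 2 + z : ℂ) ∈ {s : ℂ | 0 < s.re} := by
      rw [Set.mem_ofPred_eq, re_half]; linarith [hz.1]
    have h1 : ContinuousAt (deriv Gammaℝ) (1 / 2 + z) :=
      ((hdo.deriv hopen).continuousOn).continuousAt (hopen.mem_nhds hmem)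
    have h2 : ContinuousAt Gammaℝ (1 / 2 + z) := (GR_diff hmem).continuousAt
    have h3 : ContinuousAt (logDeriv Gammaℝ) (1 / 2 + z) :=
      h1.div h2 (Gammaℝ_ne_zero_of_re_pos hmem)
    have h4 : ContinuousAt (fun z : ℂ => 1 / 2 + z) z := by fun_prop
    exact (ContinuousAt.comp (f := fun z : ℂ => 1 / 2 + z) h3 h4).continuousWithinAt
  obtain ⟨B, hB⟩ := hK.exists_bound_of_continuousOn hc
  refine ⟨C + |B|, by positivity, fun z hz hz1 => ?_⟩
  have hl : 0 ≤ Real.log (|z.im| + 3) := Real.log_nonneg (by linarith [abs_nonneg z.im])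
  rcases le_or_gt 1 (|z.im|) with h | h
  · have h1 := hb (1 / 2 + z) (by rw [re_half]; linarith) (by rw [re_half]; linarith) (by rw [im_half]; exact h)
    rw [im_half] at h1
    have h2 := (Complex.re_le_norm _).trans h1
    rw [Complex.sub_re] at h2
    have e1 : ((1 / 2 * (Real.log |z.im| : ℂ) : ℂ)).re = Real.log |z.im| / 2 := by
      have : (1 / 2 * (Real.log |z.im| : ℂ) : ℂ) = ((Real.log |z.im| / 2 : ℝ) : ℂ) := by push_cast; ring
      rw [this, Complex.ofReal_re]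
    rw [e1] at h2
    have h3 : Real.log |z.im| ≤ Real.log (|z.im| + 3) := Real.log_le_log (by linarith) (by linarith)
    linarith [abs_nonneg B]
  · rw [abs_lt] at h
    have h1 := (Complex.re_le_norm _).trans (hB z ⟨hz.le, hz1, h.1.le, h.2.le⟩)
    linarith [le_abs_self B]

lemma GG.toGH {g : ℂ → ℂ} (hRH : RiemannHypothesis) (h : GG g) : ∃ C0 : ℝ, GH g C0 := by
  obtain ⟨C, hC, hb⟩ := GR_bound
  refine ⟨C + 3, fun z hz => (h.der z hz).differentiableAt, by linarith, fun z hz hz1 => ?_, h.bdd⟩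
  rw [(h.der z hz).deriv, logDeriv_ZZ hRH hz]
  have h1 := re_XX hRH hz
  have h2 := hb z hz hz1
  have h3 : (1 / (1 / 2 + z)).re ≤ 2 := by
    refine (Complex.re_le_norm _).trans ?_
    rw [norm_div, norm_one]
    have h4 : (1:ℝ) / 2 ≤ ‖(1 / 2 + z : ℂ)‖ := by
      refine le_trans ?_ (Complex.re_le_norm _)
      rw [re_half]; linarith
    rw [div_le_iff₀ (by linarith)]
    linarith
  have h3' : (1 / (3 / 2 + z)).re ≤ 1 := by
    refine (Complex.re_le_norm _).trans ?_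
    rw [norm_div, norm_one]
    have h4 : (3:ℝ) / 2 ≤ ‖(3 / 2 + z : ℂ)‖ := by
      refine le_trans ?_ (Complex.re_le_norm _)
      rw [re_half3]; linarith
    rw [div_le_iff₀ (by linarith)]
    linarith
  rw [Complex.sub_re, Complex.sub_re, Complex.sub_re]
  linarith

/-- the logarithm of zeta in the quadrant -/
noncomputable def LL (g : ℂ → ℂ) (z : ℂ) : ℂ := g z - EE z

lemma slit_im {z : ℂ} (hz : 0 < z.im) : (z - 1 / 2) / (z + 3 / 2) ∈ slitPlane := by
  refine Or.inr ?_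
  have h5' : (z + 3 / 2 : ℂ) ≠ 0 := by
    intro h0
    have := congrArg Complex.im h0
    simp at this
    linarith
  rw [Complex.div_im]
  have h1 : 0 < normSq (z + 3 / 2) := Complex.normSq_pos.mpr h5'
  have e1 : (z - 1 / 2 : ℂ).re = z.re - 1 / 2 := by simp
  have e2 : (z - 1 / 2 : ℂ).im = z.im := by simp
  have e3 : (z + 3 / 2 : ℂ).re = z.re + 3 / 2 := by simp
  have e4 : (z + 3 / 2 : ℂ).im = z.im := by simp
  rw [e1, e2, e3, e4, ← sub_div]
  refine (div_pos ?_ h1).ne'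
  nlinarith

lemma hasDerivAt_EE {z : ℂ} (hz : 0 < z.im) : HasDerivAt EE (1 / (z - 1 / 2) - 1 / (z + 3 / 2)) z := by
  have h5' : (z + 3 / 2 : ℂ) ≠ 0 := by
    intro h0
    have := congrArg Complex.im h0
    simp at this
    linarith
  exact hasDerivAt_E (slit_im hz) h5'

lemma GG.der_LL {g : ℂ → ℂ} (hRH : RiemannHypothesis) (h : GG g) {z : ℂ} (hz : 0 < z.re) (hi : 0 < z.im) :
    HasDerivAt (LL g) (deriv riemannZeta (1 / 2 + z) / riemannZeta (1 / 2 + z)) z := by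
  have h1 := (h.der z hz).sub (hasDerivAt_EE hi)
  refine h1.congr_deriv ?_
  have hne : z ≠ 1 / 2 := by
    intro h0
    rw [h0] at hi
    norm_num at hi
  rw [logDeriv_ZZ' hRH hz hne]
  ring

lemma GG.far_LL {g : ℂ → ℂ} (h : GG g) {z : ℂ} (hz : 1 / 2 < z.re) : LL g z = LP (1 / 2 + z) := by
  unfold LL
  rw [h.far z hz]; ring

lemma GG.toLH {g : ℂ → ℂ} (hRH : RiemannHypothesis) (h : GG g) : LH (LL g) := by
  refine ⟨fun z hz hi => (h.der_LL hRH hz hi).differentiableAt, ?_⟩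
  obtain ⟨C, hC, hb⟩ := LP_bound (σ0 := 3 / 2) (by norm_num)
  refine ⟨C, hC, fun z hz hi => ?_⟩
  rw [h.far_LL (by linarith)]
  refine (hb (1 / 2 + z) (by rw [re_half]; linarith)).trans (mul_le_mul_of_nonneg_left ?_ hC.le)
  rw [re_half, Real.rpow_def_of_pos (by norm_num)]
  refine Real.exp_le_exp.mpr ?_
  have := Real.log_two_gt_d9
  nlinarith

end Q241.SN
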