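import Mathlib
import Pool.Agent.Q241.SN.Gdef3

set_option autoImplicit false

/-! Growth of the moments of `log ζ`. -/

namespace Q241.SN

open Set Filter Topology Complex

lemma tend_Lam (k : ℕ) : Tendsto (fun t : ℝ => Real.log t / Real.log (Real.log t) ^ k) atTop atTop := by
  have h1 := (Real.tendsto_exp_div_pow_atTop k).comp tend_loglog
  refine h1.congr' ?_
  filter_upwards [tend_log.eventually_gt_atTop 0] with t ht
  simp only [Function.comp_apply]
  rw [Real.exp_log ht]

lemma EE_bound_im {z : ℂ} (hz : 0 < z.re) (hz1 : z.re ≤ 1) (hi : 1 ≤ z.im) : ‖EE z‖ ≤ 6 := by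
  have h1 : (1:ℝ) / 4 ≤ ‖(z - 1 / 2) / (z + 3 / 2)‖ := by
    have h5' : (z + 3 / 2 : ℂ) ≠ 0 := by
      rw [add_comm]; exact ne_of_re (by rw [re_half3]; linarith)
    have h6 : (0 : ℝ) < ‖(z + 3 / 2 : ℂ)‖ := norm_pos_iff.mpr h5'
    rw [norm_div, le_div_iff₀ h6]
    have h7 : ‖(z + 3 / 2 : ℂ)‖ ≤ ‖(z - 1 / 2 : ℂ)‖ + 2 := by
      have : (z + 3 / 2 : ℂ) = (z - 1 / 2) + 2 := by ring
      rw [this]
      refine (norm_add_le _ _).trans ?_
      simp
    have h8 : 1 ≤ ‖(z - 1 / 2 : ℂ)‖ := by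
      have := Complex.abs_im_le_norm (z - 1 / 2)
      have e1 : (z - 1 / 2 : ℂ).im = z.im := by simp
      rw [e1, abs_of_pos (by linarith)] at this
      linarith
    linarith
  have h2 := EE_norm_le (by norm_num) h1 (ratio_le hz)
  have h3 : Real.log (1 / (1 / 4)) ≤ 2 := by
    have e : (1 / (1 / 4) : ℝ) = 2 * 2 := by norm_num
    rw [e, Real.log_mul (by norm_num) (by norm_num)]
    have := Real.log_two_lt_d9
    linarith
  have := Real.pi_lt_four
  linarith

theorem GG.toLK {g : ℂ → ℂ} (hRH : RiemannHypothesis) (h : GG g) : ∃ C1 : ℝ, LK (LL g) C1 := by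
  obtain ⟨C0, hGH⟩ := h.toGH hRH
  have hLH := h.toLH hRH
  refine ⟨C0 + 4, { toLH := hLH, gro := ?_, hC1 := by linarith [hGH.hC0], low := ?_ }⟩
  · intro r hr
    obtain ⟨η, hη⟩ : ∃ η, η = min (1 / 2) ((r - 1 / 2) / 2) := ⟨_, rfl⟩
    have hη0 : 0 < η := by rw [hη]; exact lt_min (by norm_num) (by linarith)
    have hη1 : η ≤ 1 / 2 := by rw [hη]; exact min_le_left _ _
    have hη2 : η ≤ (r - 1 / 2) / 2 := by rw [hη]; exact min_le_right _ _
    obtain ⟨C, hC, hgr⟩ := hGH.growth hη0 hη1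
    obtain ⟨Cη, hCη, hbη⟩ := hGH.bdd η hη0
    obtain ⟨Cd, hCd, hdec⟩ := hLH.dec
    refine ⟨3 * C + 1, by positivity, fun k hk => ?_⟩
    obtain ⟨j, rfl⟩ : ∃ j, k = j + 1 := ⟨k - 1, by omega⟩
    obtain ⟨B, hB⟩ : ∃ B, B = 2 * (Cη + 6) + Cd := ⟨_, rfl⟩
    have hB0 : 0 < B := by rw [hB]; positivity
    have hr0 : 0 < r := by linarith
    have ev1 : ∀ᶠ t : ℝ in atTop, B * 2 ^ (j + 2) / r ^ (j + 2) ≤ Real.log t / Real.log (Real.log t) ^ (j + 3) :=
      (tend_Lam (j + 3)).eventually_ge_atTop _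
    have ev2 : ∀ᶠ t : ℝ in atTop, 2 ≤ Real.log (Real.log t) := tend_loglog.eventually_ge_atTop 2
    have ev3 : ∀ᶠ t : ℝ in atTop, 2 ≤ Real.log t := tend_log.eventually_ge_atTop 2
    have ev4 : ∀ᶠ t : ℝ in atTop, Real.log (Real.log (Real.log t)) ≤ (r - (1 / 2 + η)) / r * Real.log (Real.log t) := by
      have h1 := (Real.isLittleO_log_id_atTop.comp_tendsto tend_loglog).def
        (c := (r - (1 / 2 + η)) / r) (div_pos (by linarith) hr0)
      filter_upwards [h1, ev2] with t h2 h3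
      simp only [Function.comp_apply, id_eq, Real.norm_eq_abs] at h2
      rw [abs_of_pos (by linarith : 0 < Real.log (Real.log t))] at h2
      exact (le_abs_self _).trans h2
    filter_upwards [hgr, ev1, ev2, ev3, ev4, eventually_ge_atTop 3] with t h1 h2 h3 h4 h5 h6 a ha
    obtain ⟨ℓ, hℓ⟩ : ∃ ℓ, ℓ = Real.log (Real.log t) := ⟨_, rfl⟩
    rw [← hℓ] at h1 h2 h3 h5 ⊢
    have hℓ0 : 0 < ℓ := by linarith
    obtain ⟨x1, hx1⟩ : ∃ x1, x1 = 1 / 2 + η := ⟨_, rfl⟩
    rw [← hx1] at h1 h5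
    have hx1p : 0 < x1 := by rw [hx1]; linarith
    have hx1r : x1 < r := by rw [hx1]; linarith
    obtain ⟨lam, hlam⟩ : ∃ lam, lam = (ℓ - Real.log ℓ) / x1 := ⟨_, rfl⟩
    rw [← hlam] at h1
    have hlr : ℓ / r ≤ lam := by
      rw [hlam, div_le_div_iff₀ hr0 hx1p]
      have e1 : (r - x1) / r * ℓ * r = (r - x1) * ℓ := by field_simp
      have e2 : Real.log ℓ * r ≤ (r - x1) / r * ℓ * r := mul_le_mul_of_nonneg_right h5 hr0.le
      rw [e1] at e2
      linarith
    have hlam0 : 0 < lam := lt_of_lt_of_le (by positivity) hlr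
    have hLt : 0 < Real.log t / ℓ := by positivity
    have hb : ∀ x : ℝ, 0 < x → ‖LL g (x + t * I)‖ ≤ C * (Real.log t / ℓ) * (1 + 1 / (x * ℓ)) * Real.exp (-(lam * x)) +
        B * Real.exp (-(x / 2)) := by
      intro x hx
      have hre : 0 < ((x : ℂ) + t * I).re := by rw [re_xu]; exact hx
      have him : 1 ≤ ((x : ℂ) + t * I).im := by rw [im_xu]; linarith
      have hfirst : 0 ≤ C * (Real.log t / ℓ) * (1 + 1 / (x * ℓ)) * Real.exp (-(lam * x)) := by positivity
      rcases le_or_gt x 1 with hx1' | hx1'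
      · have hE := EE_bound_im hre (by rw [re_xu]; exact hx1') him
        have hexp : 1 ≤ 2 * Real.exp (-(x / 2)) := by
          have h7 : Real.exp (-(1 / 2)) ≤ Real.exp (-(x / 2)) := Real.exp_le_exp.mpr (by linarith)
          have h8 : (1:ℝ) / 2 ≤ Real.exp (-(1 / 2)) := by
            have := Real.add_one_le_exp (-(1 / 2 : ℝ))
            linarith
          linarith
        have hn : ‖LL g (x + t * I)‖ ≤ ‖g (x + t * I)‖ + 6 := by
          unfold LL
          exact (norm_sub_le _ _).trans (by linarith)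
        rcases le_or_gt x x1 with hxx | hxx
        · have h9 := h1 x hx hxx
          rw [show x * lam = lam * x by ring] at h9
          have h10 : (6 : ℝ) ≤ B * Real.exp (-(x / 2)) := by
            have : 12 ≤ B := by rw [hB]; linarith
            nlinarith [Real.exp_pos (-(x / 2))]
          linarith
        · have h9 := hbη (x + t * I) (by rw [re_xu]; linarith)
          have h10 : Cη + 6 ≤ B * Real.exp (-(x / 2)) := by
            have h11 : 2 * (Cη + 6) ≤ B := by rw [hB]; linarith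
            have h12 : 2 * (Cη + 6) * Real.exp (-(x / 2)) ≤ B * Real.exp (-(x / 2)) :=
              mul_le_mul_of_nonneg_right h11 (Real.exp_pos _).le
            nlinarith
          linarith
      · have h9 := hdec (x + t * I) (by rw [re_xu]; linarith) (by rw [im_xu]; linarith)
        rw [re_xu] at h9
        have h11 : Cd ≤ B := by rw [hB]; linarith
        have h12 : Cd * Real.exp (-(x / 2)) ≤ B * Real.exp (-(x / 2)) :=
          mul_le_mul_of_nonneg_right h11 (Real.exp_pos _).le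
        linarith
    have h7 := hLH.MM_bound j ha (by linarith : 0 < t) (A := C * (Real.log t / ℓ)) (B := B) (by positivity) hB0.le hℓ0 hlam0 hb
    refine h7.trans ?_
    have hil : 1 / lam ≤ r / ℓ := by
      rw [div_le_div_iff₀ hlam0 hℓ0]
      rw [div_le_iff₀ hr0] at hlr
      linarith
    have h8 : 1 / lam ^ (j + 2) ≤ r ^ (j + 2) / ℓ ^ (j + 2) := by
      rw [← div_pow, ← one_div_pow]
      exact pow_le_pow_left₀ (by positivity) hil _
    have h9 : 1 / (ℓ * lam ^ (j + 1)) ≤ 2 * (r ^ (j + 2) / ℓ ^ (j + 2)) := by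
      have e1 : 1 / (ℓ * lam ^ (j + 1)) = (1 / lam) ^ (j + 1) / ℓ := by
        rw [one_div_pow]; field_simp
      rw [e1]
      have h10 : (1 / lam) ^ (j + 1) ≤ (r / ℓ) ^ (j + 1) := pow_le_pow_left₀ (by positivity) hil _
      calc (1 / lam) ^ (j + 1) / ℓ ≤ (r / ℓ) ^ (j + 1) / ℓ := div_le_div_of_nonneg_right h10 hℓ0.le
        _ = r ^ (j + 1) / ℓ ^ (j + 2) := by rw [div_pow, div_div, ← pow_succ]
        _ ≤ 2 * r ^ (j + 2) / ℓ ^ (j + 2) := by
            refine div_le_div_of_nonneg_right ?_ (by positivity)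
            have e2 : r ^ (j + 2) = r ^ (j + 1) * r := pow_succ r (j + 1)
            have e3 : 0 < r ^ (j + 1) := by positivity
            rw [e2]
            nlinarith
        _ = _ := by ring
    have h10 : B * 2 ^ (j + 2) ≤ r ^ (j + 2) * (Real.log t / ℓ ^ (j + 3)) := by
      rw [div_le_iff₀ (by positivity)] at h2
      linarith
    have h11 : C * (Real.log t / ℓ) * (1 / lam ^ (j + 2) + 1 / (ℓ * lam ^ (j + 1))) ≤
        C * (Real.log t / ℓ) * (3 * (r ^ (j + 2) / ℓ ^ (j + 2))) :=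
      mul_le_mul_of_nonneg_left (by linarith) (by positivity)
    have h12 : C * (Real.log t / ℓ) * (3 * (r ^ (j + 2) / ℓ ^ (j + 2))) = 3 * C * r ^ (j + 2) * (Real.log t / ℓ ^ (j + 3)) := by
      field_simp
      ring
    have h13 : (3 * C + 1) * r ^ (j + 1 + 1) * (Real.log t / ℓ ^ (j + 1 + 2)) =
        3 * C * r ^ (j + 2) * (Real.log t / ℓ ^ (j + 3)) + r ^ (j + 2) * (Real.log t / ℓ ^ (j + 3)) := by ring
    rw [h13]
    linarith
  · intro z hz hz1 hi
    have hi0 : 0 < z.im := by linarith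
    have h1 : HasDerivAt (LL g) (deriv g z - (1 / (z - 1 / 2) - 1 / (z + 3 / 2))) z :=
      (hGH.diff z hz).hasDerivAt.sub (hasDerivAt_EE hi0)
    rw [h1.deriv, Complex.sub_re, Complex.sub_re]
    have h2 := hGH.low z hz hz1
    rw [abs_of_pos hi0] at h2
    have h3 : (1 / (z - 1 / 2)).re ≤ 1 := by
      refine (Complex.re_le_norm _).trans ?_
      rw [norm_div, norm_one]
      have h8 : 1 ≤ ‖(z - 1 / 2 : ℂ)‖ := by
        have := Complex.abs_im_le_norm (z - 1 / 2)
        have e1 : (z - 1 / 2 : ℂ).im = z.im := by simp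
        rw [e1, abs_of_pos (by linarith)] at this
        linarith
      rw [div_le_one (by linarith)]
      exact h8
    have h3' : -1 ≤ (1 / (z + 3 / 2)).re := by
      have h9 := Complex.abs_re_le_norm (1 / (z + 3 / 2))
      rw [norm_div, norm_one] at h9
      have h8 : 1 ≤ ‖(z + 3 / 2 : ℂ)‖ := by
        have := Complex.abs_im_le_norm (z + 3 / 2)
        have e1 : (z + 3 / 2 : ℂ).im = z.im := by simp
        rw [e1, abs_of_pos (by linarith)] at this
        linarith
      have h10 : 1 / ‖(z + 3 / 2 : ℂ)‖ ≤ 1 := by rw [div_le_one (by linarith)]; exact h8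
      have := (abs_le.mp (h9.trans h10)).1
      exact this
    have h4 : Real.log (z.im + 3) ≤ Real.log z.im + 2 := by
      have h5 : z.im + 3 ≤ z.im * (2 * 2) := by linarith
      have h6 := Real.log_le_log (by linarith) h5
      rw [Real.log_mul (by linarith) (by norm_num), Real.log_mul (by norm_num) (by norm_num)] at h6
      have := Real.log_two_lt_d9
      linarith
    linarith

end Q241.SN
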