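import Mathlib
import Pool.Agent.Q241.SN.Gdef4
import Pool.Agent.Q241.SN.Grow2

set_option autoImplicit false

/-! Dominations for the logarithm near the real axis. -/

namespace Q241.SN

open Set Filter Topology Complex MeasureTheory
open scoped Nat

variable {g : ℂ → ℂ} {C0 : ℝ}

lemma GH.crude_unif (h : GH g C0) : ∃ c : ℝ, 0 ≤ c ∧ ∀ x u : ℝ, 0 < x → x ≤ 1 →
    ‖g (x + u * I)‖ ≤ 2 / x * (Real.log (|u| + 3) / 2 + c) := by
  obtain ⟨C1, hC1, hb⟩ := h.bdd (1 / 2) (by norm_num)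
  have hb' : ∀ x u : ℝ, 1 ≤ x → ‖g (x + u * I)‖ ≤ C1 := fun x u hx => hb _ (by rw [re_xu]; linarith)
  refine ⟨C0 + 2 * C1 + 1, by linarith [h.hC0], fun x u hx hx1 => ?_⟩
  have hl3 : 0 ≤ Real.log (|u| + 3) := Real.log_nonneg (by linarith [abs_nonneg u])
  have h1 := bc_bound h.diff (a := 1) (u := u) (M := Real.log (|u| + 3) / 2 + C0 + C1 + 1) one_pos
    (by linarith [h.hC0]) ?_ hx hx1
  · refine h1.trans ?_
    have h2 := hb' 1 u le_rfl
    rw [mul_one]
    exact mul_le_mul_of_nonneg_left (by linarith) (by positivity)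
  · intro y v hy0 hy2 hv
    have hlv : Real.log (|v| + 3) ≤ Real.log (|u| + 3) + 1 := by
      have h4 : |v| ≤ |u| + 1 := by
        have : v = u + (v - u) := by ring
        calc |v| = |u + (v - u)| := by rw [← this]
          _ ≤ |u| + |v - u| := abs_add_le _ _
          _ ≤ |u| + 1 := by linarith
      have h5 : |v| + 3 ≤ (|u| + 3) * 2 := by
        have := abs_nonneg u
        linarith
      have h6 := Real.log_le_log (by positivity) h5
      rw [Real.log_mul (by positivity) (by norm_num)] at h6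
      have := Real.log_two_lt_d9
      linarith
    have hlv0 : 0 ≤ Real.log (|v| + 3) := Real.log_nonneg (by linarith [abs_nonneg v])
    rcases le_or_gt y 1 with hy1 | hy1
    · have h4 := h.re_le hy0 hy1 le_rfl v
      have h5 := (Complex.re_le_norm (g (((1:ℝ) : ℂ) + v * I))).trans (hb' 1 v le_rfl)
      have h6 : (1 - y) * (Real.log (|v| + 3) / 2 + C0) ≤ 1 * (Real.log (|v| + 3) / 2 + C0) :=
        mul_le_mul_of_nonneg_right (by linarith) (by linarith [h.hC0])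
      linarith
    · have h5 := (Complex.re_le_norm (g (y + v * I))).trans (hb' y v hy1.le)
      linarith [h.hC0]

/-- bound for the correction term -/
lemma EE_near {T : ℝ} (hT : 1 ≤ T) {y t : ℝ} (hy : 0 < y) (hy1 : y ≤ 1) (hyh : y ≠ 1 / 2) (ht : 0 ≤ t) (htT : t ≤ T) :
    ‖EE (y + t * I)‖ ≤ |Real.log (y - 1 / 2)| + (Real.log (T + 3) + Real.pi) := by
  have hzr : 0 < ((y : ℂ) + t * I).re := by rw [re_xu]; exact hy
  have h5' : ((y : ℂ) + t * I + 3 / 2 : ℂ) ≠ 0 := by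
    rw [add_comm]; exact ne_of_re (by rw [re_half3]; linarith)
  have hym : y - 1 / 2 ≠ 0 := sub_ne_zero.mpr hyh
  have h6 : ((y : ℂ) + t * I - 1 / 2 : ℂ) ≠ 0 := by
    intro h0
    have := congrArg Complex.re h0
    simp at this
    apply hym
    linarith
  have hr := ratio_le hzr
  have hlo : |y - 1 / 2| ≤ ‖((y : ℂ) + t * I - 1 / 2 : ℂ)‖ := by
    have := Complex.abs_re_le_norm ((y : ℂ) + t * I - 1 / 2)
    have e1 : ((y : ℂ) + t * I - 1 / 2 : ℂ).re = y - 1 / 2 := by simp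
    rwa [e1] at this
  have hup : ‖((y : ℂ) + t * I + 3 / 2 : ℂ)‖ ≤ T + 3 := by
    have h1 : ‖(y : ℂ)‖ ≤ 1 := by rw [Complex.norm_real, Real.norm_eq_abs, abs_of_pos hy]; exact hy1
    have h2 : ‖(t : ℂ) * I‖ ≤ T := by
      rw [norm_mul, Complex.norm_I, mul_one, Complex.norm_real, Real.norm_eq_abs, abs_of_nonneg ht]; exact htT
    have h3 : ‖(3 / 2 : ℂ)‖ = 3 / 2 := by norm_num
    calc ‖((y : ℂ) + t * I + 3 / 2 : ℂ)‖ ≤ ‖(y : ℂ)‖ + ‖(t : ℂ) * I‖ + ‖(3 / 2 : ℂ)‖ := norm_add₃_le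
      _ ≤ _ := by rw [h3]; linarith
  have hnr : 0 < ‖((y : ℂ) + t * I - 1 / 2) / ((y : ℂ) + t * I + 3 / 2)‖ := norm_pos_iff.mpr (div_ne_zero h6 h5')
  unfold EE
  have h3 := Complex.norm_le_abs_re_add_abs_im (Complex.log (((y : ℂ) + t * I - 1 / 2) / ((y : ℂ) + t * I + 3 / 2)))
  rw [Complex.log_re, Complex.log_im] at h3
  have h4 := Complex.abs_arg_le_pi (((y : ℂ) + t * I - 1 / 2) / ((y : ℂ) + t * I + 3 / 2))
  have h5 : |Real.log ‖((y : ℂ) + t * I - 1 / 2) / ((y : ℂ) + t * I + 3 / 2)‖| ≤ |Real.log (y - 1 / 2)| + Real.log (T + 3) := by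
    rw [abs_of_nonpos (Real.log_nonpos (norm_nonneg _) hr), norm_div, Real.log_div (norm_ne_zero_iff.mpr h6) (norm_ne_zero_iff.mpr h5')]
    have a1 : Real.log |y - 1 / 2| ≤ Real.log ‖((y : ℂ) + t * I - 1 / 2 : ℂ)‖ := Real.log_le_log (abs_pos.mpr hym) hlo
    rw [Real.log_abs] at a1
    have a2 : Real.log ‖((y : ℂ) + t * I + 3 / 2 : ℂ)‖ ≤ Real.log (T + 3) := Real.log_le_log (norm_pos_iff.mpr h5') hup
    have a3 := neg_abs_le (Real.log (y - 1 / 2))
    linarith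
  linarith

/-- domination -/
lemma GG.dom (hRH : RiemannHypothesis) (h : GG g) {T : ℝ} (hT : 1 ≤ T) : ∃ C : ℝ, 0 < C ∧
    (∀ y t : ℝ, 0 < y → y ≤ 1 → y ≠ 1 / 2 → 0 ≤ t → t ≤ T → ‖LL g (y + t * I)‖ ≤ C / y + |Real.log (y - 1 / 2)|) ∧
    (∀ y t : ℝ, 1 ≤ y → ‖LL g (y + t * I)‖ ≤ C * Real.exp (-(y / 2))) := by
  obtain ⟨C0, hGH⟩ := h.toGH hRH
  obtain ⟨c, hc, hcr⟩ := hGH.crude_unif
  obtain ⟨Cl, hCl, hLP⟩ := LP_bound (σ0 := 3 / 2) (by norm_num)
  have hl0 : 0 ≤ Real.log (T + 3) := Real.log_nonneg (by linarith)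
  have hpi := Real.pi_pos
  refine ⟨2 * (Real.log (T + 3) / 2 + c) + (Real.log (T + 3) + Real.pi) + Cl, by positivity, fun y t hy hy1 hyh ht htT => ?_, fun y t hy => ?_⟩
  · have h1 := hcr y t hy hy1
    have h2 := EE_near hT hy hy1 hyh ht htT
    have h3 : ‖LL g (y + t * I)‖ ≤ ‖g (y + t * I)‖ + ‖EE (y + t * I)‖ := norm_sub_le _ _
    have h4 : Real.log (|t| + 3) ≤ Real.log (T + 3) := by
      rw [abs_of_nonneg ht]
      exact Real.log_le_log (by linarith) (by linarith)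
    have h5 : 2 / y * (Real.log (|t| + 3) / 2 + c) ≤ 2 * (Real.log (T + 3) / 2 + c) / y := by
      rw [div_mul_eq_mul_div]
      refine div_le_div_of_nonneg_right ?_ hy.le
      linarith
    have h6 : (Real.log (T + 3) + Real.pi) + Cl ≤ ((Real.log (T + 3) + Real.pi) + Cl) / y := by
      rw [le_div_iff₀ hy]
      nlinarith
    have h7 : (2 * (Real.log (T + 3) / 2 + c) + (Real.log (T + 3) + Real.pi) + Cl) / y =
      2 * (Real.log (T + 3) / 2 + c) / y + ((Real.log (T + 3) + Real.pi) + Cl) / y := by ring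
    rw [h7]
    linarith
  · rw [h.far_LL (by rw [re_xu]; linarith)]
    refine (hLP _ (by rw [re_half, re_xu]; linarith)).trans ?_
    rw [re_half, re_xu]
    have h8 : (2:ℝ) ^ (-(1 / 2 + y)) ≤ Real.exp (-(y / 2)) := by
      rw [Real.rpow_def_of_pos (by norm_num)]
      refine Real.exp_le_exp.mpr ?_
      have := Real.log_two_gt_d9
      nlinarith
    refine mul_le_mul ?_ h8 (by positivity) (by positivity)
    have : 0 ≤ 2 * (Real.log (T + 3) / 2 + c) + (Real.log (T + 3) + Real.pi) := by positivity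
    linarith

/-- boundary values on the real axis -/
lemma GG.tendsto_real (hRH : RiemannHypothesis) (h : GG g) {y : ℝ} (hy : 0 < y) (hyh : y ≠ 1 / 2) :
    Tendsto (fun t : ℝ => LL g (y + t * I)) (𝓝[>] 0) (𝓝 (LL g y)) := by
  have hg : ContinuousAt g ((y : ℂ) + ((0:ℝ) : ℂ) * I) := by
    have := (h.der (y : ℂ) (by rwa [Complex.ofReal_re])).continuousAt
    simpa using this
  have hline : Tendsto (fun t : ℝ => (y : ℂ) + t * I) (𝓝[>] 0) (𝓝 ((y : ℂ) + ((0:ℝ) : ℂ) * I)) := by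
    have : Continuous (fun t : ℝ => (y : ℂ) + t * I) := by fun_prop
    exact (this.tendsto 0).mono_left nhdsWithin_le_nhds
  have h1 : Tendsto (fun t : ℝ => g (y + t * I)) (𝓝[>] 0) (𝓝 (g y)) := by
    have h0 := hg.tendsto.comp hline
    have e0 : (y : ℂ) + ((0:ℝ) : ℂ) * I = y := by simp
    rw [e0] at h0
    exact h0
  have h2 : Tendsto (fun t : ℝ => EE (y + t * I)) (𝓝[>] 0) (𝓝 (EE y)) := by
    have h5' : ((y : ℂ) + 3 / 2 : ℂ) ≠ 0 := by
      rw [add_comm]; exact ne_of_re (by rw [re_half3, Complex.ofReal_re]; linarith)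
    have hrat : Tendsto (fun t : ℝ => ((y : ℂ) + t * I - 1 / 2) / ((y : ℂ) + t * I + 3 / 2)) (𝓝[>] 0)
        (𝓝 (((y : ℂ) - 1 / 2) / ((y : ℂ) + 3 / 2))) := by
      have ha : Tendsto (fun t : ℝ => (y : ℂ) + t * I) (𝓝[>] 0) (𝓝 (y : ℂ)) := by simpa using hline
      exact (ha.sub_const _).div (ha.add_const _) h5'
    have hreal : ((y : ℂ) - 1 / 2) / ((y : ℂ) + 3 / 2) = (((y - 1 / 2) / (y + 3 / 2) : ℝ) : ℂ) := by push_cast; ring
    rcases lt_or_gt_of_ne hyh with hlt | hgt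
    · have hre : (((y : ℂ) - 1 / 2) / ((y : ℂ) + 3 / 2)).re < 0 := by
        rw [hreal, Complex.ofReal_re]
        exact div_neg_of_neg_of_pos (by linarith) (by linarith)
      have him : (((y : ℂ) - 1 / 2) / ((y : ℂ) + 3 / 2)).im = 0 := by rw [hreal, Complex.ofReal_im]
      have hcw := Complex.continuousWithinAt_log_of_re_neg_of_im_zero hre him
      refine hcw.tendsto.comp (tendsto_nhdsWithin_iff.mpr ⟨hrat, ?_⟩)
      filter_upwards [self_mem_nhdsWithin] with t ht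
      have ht' : 0 < t := ht
      show 0 ≤ (((y : ℂ) + t * I - 1 / 2) / ((y : ℂ) + t * I + 3 / 2)).im
      rw [Complex.div_im]
      have e1 : ((y : ℂ) + t * I - 1 / 2 : ℂ).re = y - 1 / 2 := by simp
      have e2 : ((y : ℂ) + t * I - 1 / 2 : ℂ).im = t := by simp
      have e3 : ((y : ℂ) + t * I + 3 / 2 : ℂ).re = y + 3 / 2 := by simp
      have e4 : ((y : ℂ) + t * I + 3 / 2 : ℂ).im = t := by simp
      rw [e1, e2, e3, e4, ← sub_div]
      refine div_nonneg ?_ (Complex.normSq_nonneg _)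
      nlinarith
    · have hs : ((y : ℂ) - 1 / 2) / ((y : ℂ) + 3 / 2) ∈ slitPlane := by
        refine Or.inl ?_
        rw [hreal, Complex.ofReal_re]
        exact div_pos (by linarith) (by linarith)
      exact (continuousAt_clog hs).tendsto.comp hrat
  exact h1.sub h2

/-- real and imaginary parts on the real axis -/
lemma GG.re_LL (hRH : RiemannHypothesis) (h : GG g) {y : ℝ} (hy : 0 < y) (hyh : y ≠ 1 / 2) :
    (LL g y).re = Real.log ‖riemannZeta ((1 / 2 + y : ℝ) : ℂ)‖ := by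
  have h1 : (y : ℂ) ≠ 1 / 2 := by
    intro h0; apply hyh
    have := congrArg Complex.re h0
    simpa using this
  have h2 := h.exp (y : ℂ) (by rwa [Complex.ofReal_re])
  have hne := ZZ_ne hRH (z := (y : ℂ)) (by rwa [Complex.ofReal_re])
  rw [ZZ_eq (by rwa [Complex.ofReal_re]) h1] at h2 hne
  have h3 : (g y).re = Real.log ‖riemannZeta (1 / 2 + (y : ℂ)) * (((y : ℂ) - 1 / 2) / ((y : ℂ) + 3 / 2))‖ := by
    rw [← h2, Complex.norm_exp, Real.log_exp]
  unfold LL EE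
  rw [Complex.sub_re, h3, Complex.log_re, norm_mul, Real.log_mul]
  · have e : (1 / 2 + (y : ℂ)) = ((1 / 2 + y : ℝ) : ℂ) := by push_cast; ring
    rw [e]; ring
  · exact norm_ne_zero_iff.mpr (left_ne_zero_of_mul hne)
  · exact norm_ne_zero_iff.mpr (right_ne_zero_of_mul hne)

lemma GG.im_LL (h : GG g) {y : ℝ} (hy : 0 < y) (hyh : y ≠ 1 / 2) :
    (LL g y).im = if y < 1 / 2 then -Real.pi else 0 := by
  have hreal : ((y : ℂ) - 1 / 2) / ((y : ℂ) + 3 / 2) = (((y - 1 / 2) / (y + 3 / 2) : ℝ) : ℂ) := by push_cast; ring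
  unfold LL EE
  rw [Complex.sub_im, h.real y hy, Complex.log_im, hreal]
  rcases lt_or_gt_of_ne hyh with hlt | hgt
  · rw [if_pos hlt, Complex.arg_ofReal_of_neg (div_neg_of_neg_of_pos (by linarith) (by linarith))]
    ring
  · rw [if_neg (not_lt.mpr hgt.le), Complex.arg_ofReal_of_nonneg (div_nonneg (by linarith) (by linarith))]
    ring

end Q241.SN
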