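import Mathlib
import Pool.Agent.Q241.SN.Lim1

set_option autoImplicit false

/-! The moments on the real axis. -/

namespace Q241.SN

open Set Filter Topology Complex MeasureTheory
open scoped Nat

variable {g : ℂ → ℂ}

/-- `log |ζ(1/2+y)|` -/
noncomputable def phi (y : ℝ) : ℝ := Real.log ‖riemannZeta ((1 / 2 + y : ℝ) : ℂ)‖

lemma log_shift_int (c : ℝ) (a b : ℝ) : IntervalIntegrable (fun x : ℝ => |Real.log (x - c)|) volume a b := by
  have h1 : IntervalIntegrable Real.log volume (a - c) (b - c) := intervalIntegral.intervalIntegrable_log'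
  have h2 := h1.comp_sub_right c
  simp only [sub_add_cancel] at h2
  exact h2.norm

/-- the dominating function -/
noncomputable def dm (C a : ℝ) (k : ℕ) (x : ℝ) : ℝ :=
  indicator (Ioc (0:ℝ) 1) (fun x => C / a + |Real.log (x - (1 / 2 - a))|) x + C / k ! * (x ^ k * Real.exp (-(1 / 2 * x)))

lemma dm_int (C a : ℝ) (k : ℕ) : IntegrableOn (dm C a k) (Ioi 0) := by
  have h1 : IntegrableOn (fun x : ℝ => C / a + |Real.log (x - (1 / 2 - a))|) (Ioc 0 1) :=
    (intervalIntegrable_iff_integrableOn_Ioc_of_le zero_le_one).mp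
      (intervalIntegrable_const.add (log_shift_int _ _ _))
  have h2 := (h1.integrable_indicator measurableSet_Ioc).integrableOn (s := Ioi (0:ℝ))
  exact h2.add ((integrable_pow_exp k (b := 1 / 2) (by norm_num)).const_mul _)

lemma ae_ne (c : ℝ) : ∀ᵐ x ∂(volume.restrict (Ioi (0:ℝ))), x ≠ c := by
  have h1 : ∀ᵐ x ∂(volume : Measure ℝ), x ≠ c := by
    rw [ae_iff]
    simp
  exact ae_restrict_of_ae h1

lemma dm_bound {C a : ℝ} (hC : 0 < C) (ha : 0 < a) {t : ℝ} (k : ℕ)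
    (h1 : ∀ y : ℝ, 0 < y → y ≤ 1 → y ≠ 1 / 2 → ‖LL g (y + t * I)‖ ≤ C / y + |Real.log (y - 1 / 2)|)
    (h2 : ∀ y : ℝ, 1 ≤ y → ‖LL g (y + t * I)‖ ≤ C * Real.exp (-(y / 2))) {x : ℝ} (hx : 0 < x) (hxne : x ≠ 1 / 2 - a) :
    ‖((x ^ k / k ! : ℝ) : ℂ) * LL g (((a : ℂ) + t * I) + x)‖ ≤ dm C a k x := by
  have hk : (1:ℝ) ≤ k ! := by exact_mod_cast Nat.one_le_iff_ne_zero.mpr (Nat.factorial_ne_zero k)
  have e1 : ((a : ℂ) + t * I) + x = ((a + x : ℝ) : ℂ) + t * I := by push_cast; ring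
  rw [e1, norm_mul, Complex.norm_real, Real.norm_eq_abs, abs_of_nonneg (by positivity)]
  unfold dm
  rcases le_or_gt (a + x) 1 with h | h
  · have h3 := h1 (a + x) (by linarith) h (fun h0 => hxne (by linarith))
    rw [indicator_of_mem (show x ∈ Ioc (0:ℝ) 1 from ⟨hx, by linarith⟩)]
    have h4 : x ^ k / k ! ≤ 1 := by
      rw [div_le_one (by linarith)]
      exact (pow_le_one₀ hx.le (by linarith)).trans hk
    have h5 : C / (a + x) ≤ C / a := div_le_div_of_nonneg_left hC.le ha (by linarith)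
    have h6 : 0 ≤ C / k ! * (x ^ k * Real.exp (-(1 / 2 * x))) := by positivity
    have h7 : a + x - 1 / 2 = x - (1 / 2 - a) := by ring
    rw [h7] at h3
    have h8 : x ^ k / k ! * ‖LL g (((a + x : ℝ) : ℂ) + t * I)‖ ≤ 1 * ‖LL g (((a + x : ℝ) : ℂ) + t * I)‖ :=
      mul_le_mul_of_nonneg_right h4 (norm_nonneg _)
    linarith
  · have h3 := h2 (a + x) h.le
    have h4 : 0 ≤ indicator (Ioc (0:ℝ) 1) (fun x => C / a + |Real.log (x - (1 / 2 - a))|) x :=
      indicator_nonneg (fun x _ => by positivity) x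
    have h5 : C * Real.exp (-((a + x) / 2)) ≤ C * Real.exp (-(1 / 2 * x)) :=
      mul_le_mul_of_nonneg_left (Real.exp_le_exp.mpr (by linarith)) hC.le
    have h6 : x ^ k / k ! * ‖LL g (((a + x : ℝ) : ℂ) + t * I)‖ ≤ x ^ k / k ! * (C * Real.exp (-(1 / 2 * x))) :=
      mul_le_mul_of_nonneg_left (h3.trans h5) (by positivity)
    have h7 : x ^ k / k ! * (C * Real.exp (-(1 / 2 * x))) = C / k ! * (x ^ k * Real.exp (-(1 / 2 * x))) := by ring
    linarith

lemma pt_tendsto (hRH : RiemannHypothesis) (h : GG g) {a : ℝ} (ha : 0 < a) (k : ℕ) {x : ℝ} (hx : 0 < x)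
    (hxne : x ≠ 1 / 2 - a) :
    Tendsto (fun t : ℝ => ((x ^ k / k ! : ℝ) : ℂ) * LL g (((a : ℂ) + t * I) + x)) (𝓝[>] 0)
      (𝓝 (((x ^ k / k ! : ℝ) : ℂ) * LL g ((a : ℂ) + x))) := by
  have h1 := h.tendsto_real hRH (y := a + x) (by linarith) (fun h0 => hxne (by linarith))
  have e1 : ∀ t : ℝ, ((a : ℂ) + t * I) + x = ((a + x : ℝ) : ℂ) + t * I := fun t => by push_cast; ring
  have e2 : (a : ℂ) + x = ((a + x : ℝ) : ℂ) := by push_cast; ring
  simp only [e1, e2]
  exact h1.const_mul _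

lemma meas_real (hRH : RiemannHypothesis) (h : GG g) {a : ℝ} (ha : 0 < a) (k : ℕ) :
    AEStronglyMeasurable (fun x : ℝ => ((x ^ k / k ! : ℝ) : ℂ) * LL g ((a : ℂ) + x)) (volume.restrict (Ioi 0)) := by
  have hs : Tendsto (fun n : ℕ => 1 / ((n : ℝ) + 1)) atTop (𝓝[>] 0) := by
    refine tendsto_nhdsWithin_iff.mpr ⟨tendsto_one_div_add_atTop_nhds_zero_nat, Eventually.of_forall fun n => ?_⟩
    exact Set.mem_Ioi.mpr (by positivity)
  refine aestronglyMeasurable_of_tendsto_ae (u := atTop)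
    (f := fun (n : ℕ) (x : ℝ) => ((x ^ k / k ! : ℝ) : ℂ) * LL g (((a : ℂ) + ((1 / ((n : ℝ) + 1) : ℝ) : ℂ) * I) + x))
    (fun n => ?_) ?_
  · have hn : (0:ℝ) < 1 / ((n : ℝ) + 1) := by positivity
    refine (h.toLH hRH).meas ?_ ?_ k
    · rw [re_xu]; exact ha
    · rw [im_xu]; exact hn
  · filter_upwards [ae_ne (1 / 2 - a), ae_restrict_mem measurableSet_Ioi] with x hx1 hx2
    exact (pt_tendsto hRH h ha k hx2 hx1).comp hs

theorem MM_tendsto (hRH : RiemannHypothesis) (h : GG g) {a : ℝ} (ha : 0 < a) (k : ℕ) :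
    IntegrableOn (fun x : ℝ => ((x ^ k / k ! : ℝ) : ℂ) * LL g ((a : ℂ) + x)) (Ioi 0) ∧
    Tendsto (fun t : ℝ => MM (LL g) k (a + t * I)) (𝓝[>] 0) (𝓝 (MM (LL g) k a)) := by
  obtain ⟨C, hC, hd1, hd2⟩ := h.dom hRH (T := 1) le_rfl
  constructor
  · refine Integrable.mono' (dm_int C a k) (meas_real hRH h ha k) ?_
    filter_upwards [ae_ne (1 / 2 - a), ae_restrict_mem measurableSet_Ioi] with x hx1 hx2
    have h1 := dm_bound (g := g) hC ha (t := 0) k (fun y hy hy1 hy2 => hd1 y 0 hy hy1 hy2 le_rfl (by norm_num))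
      (fun y hy => hd2 y 0 hy) hx2 hx1
    simpa using h1
  · refine tendsto_integral_filter_of_dominated_convergence (dm C a k) ?_ ?_ (dm_int C a k) ?_
    · filter_upwards [self_mem_nhdsWithin] with t ht
      have ht' : 0 < t := ht
      exact (h.toLH hRH).meas (by rw [re_xu]; exact ha) (by rw [im_xu]; exact ht') k
    · have h3 : ∀ᶠ t : ℝ in 𝓝[>] 0, t ≤ 1 := by
        have : ∀ᶠ t : ℝ in 𝓝 0, t ≤ 1 := (gt_mem_nhds (show (0:ℝ) < 1 by norm_num)).mono fun x hx => le_of_lt hx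
        exact nhdsWithin_le_nhds this
      filter_upwards [self_mem_nhdsWithin, h3] with t ht ht1
      have ht' : 0 < t := ht
      filter_upwards [ae_ne (1 / 2 - a), ae_restrict_mem measurableSet_Ioi] with x hx1 hx2
      exact dm_bound (g := g) hC ha k (fun y hy hy1 hy2 => hd1 y t hy hy1 hy2 ht'.le ht1)
        (fun y hy => hd2 y t hy) hx2 hx1
    · filter_upwards [ae_ne (1 / 2 - a), ae_restrict_mem measurableSet_Ioi] with x hx1 hx2
      exact pt_tendsto hRH h ha k hx2 hx1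

/-- real part -/
lemma MM_re (hRH : RiemannHypothesis) (h : GG g) {a : ℝ} (ha : 0 < a) (k : ℕ) :
    (MM (LL g) k a).re = ∫ x in Ioi (0:ℝ), x ^ k / k ! * phi (a + x) := by
  have h1 := (MM_tendsto hRH h ha k).1
  have h2 := Complex.reCLM.integral_comp_comm h1
  have h3 : (MM (LL g) k a).re = Complex.reCLM (∫ x in Ioi (0:ℝ), ((x ^ k / k ! : ℝ) : ℂ) * LL g ((a : ℂ) + x)) := rfl
  rw [h3, ← h2]
  refine integral_congr_ae ?_
  filter_upwards [ae_ne (1 / 2 - a), ae_restrict_mem measurableSet_Ioi] with x hx1 hx2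
  have hx2' : 0 < x := hx2
  rw [Complex.reCLM_apply, Complex.re_ofReal_mul]
  have e2 : (a : ℂ) + x = ((a + x : ℝ) : ℂ) := by push_cast; ring
  rw [e2, h.re_LL hRH (by linarith) (fun h0 => hx1 (by linarith))]
  rfl

/-- imaginary part -/
lemma MM_im (hRH : RiemannHypothesis) (h : GG g) {a : ℝ} (ha : 0 < a) (ha2 : a ≤ 1 / 2) (k : ℕ) :
    (MM (LL g) k a).im = -Real.pi * ((1 / 2 - a) ^ (k + 1) / (k + 1)!) := by
  have h1 := (MM_tendsto hRH h ha k).1
  have h2 := Complex.imCLM.integral_comp_comm h1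
  have h3 : (MM (LL g) k a).im = Complex.imCLM (∫ x in Ioi (0:ℝ), ((x ^ k / k ! : ℝ) : ℂ) * LL g ((a : ℂ) + x)) := rfl
  rw [h3, ← h2]
  have h4 : ∫ x in Ioi (0:ℝ), Complex.imCLM (((x ^ k / k ! : ℝ) : ℂ) * LL g ((a : ℂ) + x)) =
      ∫ x in Ioi (0:ℝ), indicator (Ioc (0:ℝ) (1 / 2 - a)) (fun x => -Real.pi * (x ^ k / k !)) x := by
    refine integral_congr_ae ?_
    filter_upwards [ae_ne (1 / 2 - a), ae_restrict_mem measurableSet_Ioi] with x hx1 hx2
    have hx2' : 0 < x := hx2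
    rw [Complex.imCLM_apply, Complex.im_ofReal_mul]
    have e2 : (a : ℂ) + x = ((a + x : ℝ) : ℂ) := by push_cast; ring
    rw [e2, h.im_LL (by linarith) (fun h0 => hx1 (by linarith))]
    by_cases h5 : a + x < 1 / 2
    · rw [if_pos h5, indicator_of_mem (show x ∈ Ioc (0:ℝ) (1 / 2 - a) from ⟨hx2', by linarith⟩)]
      ring
    · rw [if_neg h5, indicator_of_notMem, mul_zero]
      rintro ⟨-, h6⟩
      rcases eq_or_lt_of_le h6 with h7 | h7
      · exact hx1 h7
      · exact h5 (by linarith)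
  rw [h4, integral_indicator measurableSet_Ioc, Measure.restrict_restrict measurableSet_Ioc]
  have h5 : Ioc (0:ℝ) (1 / 2 - a) ∩ Ioi 0 = Ioc (0:ℝ) (1 / 2 - a) := by
    rw [inter_eq_left]; exact Ioc_subset_Ioi_self
  rw [h5, ← intervalIntegral.integral_of_le (by linarith), intervalIntegral.integral_const_mul,
    intervalIntegral.integral_div, integral_pow]
  rw [Nat.factorial_succ]
  have hk : (k ! : ℝ) ≠ 0 := by exact_mod_cast Nat.factorial_ne_zero k
  have hk1 : ((k : ℝ) + 1) ≠ 0 := by positivity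
  push_cast
  rw [zero_pow (by omega), sub_zero]
  field_simp

end Q241.SN
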