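import Mathlib
import Pool.Agent.Q241.SN.Lim2

set_option autoImplicit false

/-! Uniform bounds near the critical line, and the limit of the argument. -/

namespace Q241.SN

open Set Filter Topology Complex MeasureTheory
open scoped Nat

variable {g : ℂ → ℂ}

/-- uniform bound of the second antiderivative -/
lemma MM_unif (hRH : RiemannHypothesis) (h : GG g) {T : ℝ} (hT : 1 ≤ T) : ∃ M : ℝ, 0 ≤ M ∧ ∀ a t : ℝ, 0 < a → a ≤ 1 / 4 →
    0 < t → t ≤ T → ‖MM (LL g) 1 (a + t * I)‖ ≤ M := by
  obtain ⟨C, hC, hd1, hd2⟩ := h.dom hRH hT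
  obtain ⟨B, hB⟩ : ∃ B, B = ∫ u in (-1:ℝ)..1, |Real.log u| := ⟨_, rfl⟩
  have hB0 : 0 ≤ B := by
    rw [hB]; exact intervalIntegral.integral_nonneg (by norm_num) (fun u _ => abs_nonneg _)
  refine ⟨C + B + C * 4, by positivity, fun a t ha ha1 ht htT => ?_⟩
  have hre : 0 < ((a : ℂ) + t * I).re := by rw [re_xu]; exact ha
  have him : 0 < ((a : ℂ) + t * I).im := by rw [im_xu]; exact ht
  -- the dominating function
  have i1 : IntegrableOn (fun x : ℝ => C + |Real.log (x - (1 / 2 - a))|) (Ioc 0 1) :=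
    (intervalIntegrable_iff_integrableOn_Ioc_of_le zero_le_one).mp
      (intervalIntegrable_const.add (log_shift_int _ _ _))
  have i2 := (i1.integrable_indicator measurableSet_Ioc).integrableOn (s := Ioi (0:ℝ))
  have i3 := (integrable_pow_exp 1 (b := 1 / 2) (by norm_num)).const_mul C
  have h1 : ‖MM (LL g) 1 (a + t * I)‖ ≤ ∫ x in Ioi (0:ℝ), (indicator (Ioc (0:ℝ) 1) (fun x => C + |Real.log (x - (1 / 2 - a))|) x +
      C * (x ^ 1 * Real.exp (-(1 / 2 * x)))) := by
    refine norm_integral_le_of_norm_le (i2.add i3) ?_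
    filter_upwards [ae_ne (1 / 2 - a), ae_restrict_mem measurableSet_Ioi] with x hx1 hx2
    have hx : 0 < x := hx2
    have e1 : ((a : ℂ) + t * I) + x = ((a + x : ℝ) : ℂ) + t * I := by push_cast; ring
    rw [e1, norm_mul, Complex.norm_real, Real.norm_eq_abs, abs_of_nonneg (by positivity), Nat.factorial_one, Nat.cast_one,
      div_one, pow_one]
    rcases le_or_gt (a + x) 1 with h | h
    · have h3 := hd1 (a + x) t (by linarith) h (fun h0 => hx1 (by linarith)) ht.le htT
      rw [indicator_of_mem (show x ∈ Ioc (0:ℝ) 1 from ⟨hx, by linarith⟩)]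
      have h7 : a + x - 1 / 2 = x - (1 / 2 - a) := by ring
      rw [h7] at h3
      have h6 : 0 ≤ C * (x * Real.exp (-(1 / 2 * x))) := by positivity
      have h8 : x * (C / (a + x)) ≤ C := by
        rw [← mul_div_assoc, div_le_iff₀ (by linarith)]
        nlinarith
      have h9 : x * |Real.log (x - (1 / 2 - a))| ≤ |Real.log (x - (1 / 2 - a))| := by
        have := abs_nonneg (Real.log (x - (1 / 2 - a)))
        nlinarith
      calc x * ‖LL g (((a + x : ℝ) : ℂ) + t * I)‖ ≤ x * (C / (a + x) + |Real.log (x - (1 / 2 - a))|) :=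
            mul_le_mul_of_nonneg_left h3 hx.le
        _ = x * (C / (a + x)) + x * |Real.log (x - (1 / 2 - a))| := by ring
        _ ≤ _ := by linarith
    · have h3 := hd2 (a + x) t h.le
      have h4 : 0 ≤ indicator (Ioc (0:ℝ) 1) (fun x => C + |Real.log (x - (1 / 2 - a))|) x :=
        indicator_nonneg (fun x _ => by positivity) x
      have h5 : C * Real.exp (-((a + x) / 2)) ≤ C * Real.exp (-(1 / 2 * x)) :=
        mul_le_mul_of_nonneg_left (Real.exp_le_exp.mpr (by linarith)) hC.le
      have h6 : x * ‖LL g (((a + x : ℝ) : ℂ) + t * I)‖ ≤ x * (C * Real.exp (-(1 / 2 * x))) :=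
        mul_le_mul_of_nonneg_left (h3.trans h5) hx.le
      have h7 : x * (C * Real.exp (-(1 / 2 * x))) = C * (x * Real.exp (-(1 / 2 * x))) := by ring
      linarith
  refine h1.trans ?_
  rw [integral_add i2 i3, integral_const_mul, integral_pow_exp' 1 (b := 1 / 2) (by norm_num),
    integral_indicator measurableSet_Ioc, Measure.restrict_restrict measurableSet_Ioc]
  have h5 : Ioc (0:ℝ) 1 ∩ Ioi 0 = Ioc (0:ℝ) 1 := by
    rw [inter_eq_left]; exact Ioc_subset_Ioi_self
  rw [h5, ← intervalIntegral.integral_of_le zero_le_one, intervalIntegral.integral_add intervalIntegrable_const (log_shift_int _ _ _),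
    intervalIntegral.integral_const, intervalIntegral.integral_comp_sub_right (fun x => |Real.log x|)]
  have h6 : ∫ u in (0 - (1 / 2 - a))..(1 - (1 / 2 - a)), |Real.log u| ≤ B := by
    rw [hB]
    refine intervalIntegral.integral_mono_interval (by linarith) (by linarith) (by linarith) ?_ ?_
    · exact Eventually.of_forall fun u => abs_nonneg _
    · exact (intervalIntegral.intervalIntegrable_log' (a := -1) (b := 1)).norm
  have h7 : (1 ! : ℝ) / (1 / 2) ^ (1 + 1) = 4 := by norm_num
  rw [h7, sub_zero, one_smul]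
  linarith

/-- uniform bound for the argument -/
lemma SA0_unif (hRH : RiemannHypothesis) (h : GG g) {T : ℝ} (hT : 1 ≤ T) : ∃ M : ℝ, 0 ≤ M ∧ ∀ a t : ℝ, 0 < a → a ≤ 1 / 4 →
    0 < t → t ≤ T → |SA (LL g) 0 a t| ≤ M := by
  obtain ⟨C0, hGH⟩ := h.toGH hRH
  have hLH := h.toLH hRH
  obtain ⟨M, hM, hMb⟩ := MM_unif hRH h (T := T + 1) (by linarith)
  obtain ⟨β, hβ⟩ : ∃ β, β = Real.log (T + 4) / 2 + C0 := ⟨_, rfl⟩
  have hlog : 0 ≤ Real.log (T + 4) := Real.log_nonneg (by linarith)
  have hβ0 : 0 ≤ β := by rw [hβ]; linarith [hGH.hC0]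
  have hpi := Real.pi_pos
  refine ⟨β * T + 36 * M + β + 10, by positivity, fun a t ha ha1 ht htT => ?_⟩
  -- slope of g
  have hslope : ∀ u : ℝ, 0 ≤ u → u ≤ T + 1 → -β ≤ (deriv g (a + u * I)).re := by
    intro u hu hu1
    have h1 := hGH.low (a + u * I) (by rw [re_xu]; exact ha) (by rw [re_xu]; linarith)
    rw [im_xu, abs_of_nonneg hu] at h1
    have h2 : Real.log (u + 3) ≤ Real.log (T + 4) := Real.log_le_log (by linarith) (by linarith)
    rw [hβ]; linarith
  -- slope of L
  have hslopeL : ∀ u : ℝ, 0 < u → u ≤ T + 1 → -(β + 5) ≤ (deriv (LL g) (a + u * I)).re / Real.pi := by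
    intro u hu hu1
    have h1 : HasDerivAt (LL g) (deriv g (a + u * I) - (1 / (a + u * I - 1 / 2) - 1 / (a + u * I + 3 / 2))) (a + u * I) :=
      (hGH.diff _ (by rw [re_xu]; exact ha)).hasDerivAt.sub (hasDerivAt_EE (by rw [im_xu]; exact hu))
    rw [h1.deriv, Complex.sub_re, Complex.sub_re]
    have h2 := hslope u hu.le hu1
    have h3 : (1 / ((a : ℂ) + u * I - 1 / 2)).re ≤ 4 := by
      refine (Complex.re_le_norm _).trans ?_
      rw [norm_div, norm_one]
      have h8 : 1 / 4 ≤ ‖((a : ℂ) + u * I - 1 / 2 : ℂ)‖ := by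
        have := Complex.abs_re_le_norm ((a : ℂ) + u * I - 1 / 2)
        have e1 : ((a : ℂ) + u * I - 1 / 2 : ℂ).re = a - 1 / 2 := by simp
        rw [e1, abs_of_neg (by linarith)] at this
        linarith
      rw [div_le_iff₀ (by linarith)]
      linarith
    have h3' : -1 ≤ (1 / ((a : ℂ) + u * I + 3 / 2)).re := by
      have h9 := Complex.abs_re_le_norm (1 / ((a : ℂ) + u * I + 3 / 2))
      rw [norm_div, norm_one] at h9
      have h8 : 1 ≤ ‖((a : ℂ) + u * I + 3 / 2 : ℂ)‖ := by
        have := Complex.abs_re_le_norm ((a : ℂ) + u * I + 3 / 2)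
        have e1 : ((a : ℂ) + u * I + 3 / 2 : ℂ).re = a + 3 / 2 := by simp
        rw [e1, abs_of_pos (by linarith)] at this
        linarith
      have h10 : 1 / ‖((a : ℂ) + u * I + 3 / 2 : ℂ)‖ ≤ 1 := by rw [div_le_one (by linarith)]; exact h8
      exact (abs_le.mp (h9.trans h10)).1
    rw [le_div_iff₀ hpi]
    have := Real.pi_gt_three
    nlinarith
  rw [abs_le]
  constructor
  · -- lower bound
    have hd : ∀ u ∈ Icc 0 t, HasDerivAt (fun u : ℝ => (g (a + u * I)).im + β * u) ((deriv g (a + u * I)).re + β) u := by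
      intro u hu
      have h1 := (hGH.diff (a + u * I) (by rw [re_xu]; exact ha)).hasDerivAt
      have h2 := hasDerivAt_im (hasDerivAt_ver h1)
      have h3 : HasDerivAt (fun u : ℝ => β * u) β u := by simpa using (hasDerivAt_id u).const_mul β
      refine (h2.add h3).congr_deriv ?_
      congr 1
      simp
    have hm : MonotoneOn (fun u : ℝ => (g (a + u * I)).im + β * u) (Icc 0 t) := by
      refine monotoneOn_of_deriv_nonneg (convex_Icc 0 t) (fun u hu => (hd u hu).continuousAt.continuousWithinAt)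
        (fun u hu => (hd u (interior_subset hu)).differentiableAt.differentiableWithinAt) (fun u hu => ?_)
      have hu' := interior_subset hu
      rw [(hd u hu').deriv]
      linarith [hslope u hu'.1 (by linarith [hu'.2])]
    have h1 := hm (left_mem_Icc.mpr ht.le) (right_mem_Icc.mpr ht.le) ht.le
    simp only at h1
    have e0 : (a : ℂ) + ((0:ℝ) : ℂ) * I = ((a : ℝ) : ℂ) := by simp
    rw [e0, h.real a ha] at h1
    have h2 : |(EE (a + t * I)).im| ≤ Real.pi := by
      unfold EE
      rw [Complex.log_im]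
      exact Complex.abs_arg_le_pi _
    have h3 : -(β * t) - Real.pi ≤ (LL g (a + t * I)).im := by
      unfold LL
      rw [Complex.sub_im]
      have := (abs_le.mp h2).2
      linarith
    show _ ≤ (LL g (a + t * I)).im / Real.pi
    rw [le_div_iff₀ hpi]
    have h4 : β * t ≤ β * T := mul_le_mul_of_nonneg_left htT hβ0
    have h5 := Real.pi_gt_three
    have h6 : 0 ≤ β * T := by positivity
    nlinarith
  · -- upper bound
    obtain ⟨ξ, hξ, hξ2⟩ := landau_pt (f2 := SA (LL g) 2 a) (f1 := SA (LL g) 1 a) (f0 := SA (LL g) 0 a) (τ := t) (h := 1) (M := M) one_pos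
      (fun x hx => hLH.SA_deriv 1 ha (by linarith [hx.1])) (fun x hx => hLH.SA_deriv 0 ha (by linarith [hx.1]))
      (fun x hx => (SA_le_norm 1 a x).trans (hMb a x ha ha1 (by linarith [hx.1]) (by linarith [hx.2])))
    have h7 := hLH.mono_of_slope (β := β + 5) ha ht hξ.1
      (fun u hu => hslopeL u (by linarith [hu.1]) (by linarith [hu.2, hξ.2]))
    have h8 : (β + 5) * (ξ - t) ≤ β + 5 := by
      have : ξ - t ≤ 1 := by linarith [hξ.2]
      nlinarith
    have h9 := (abs_le.mp hξ2).2
    have h10 : 0 ≤ β * T := by positivity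
    norm_num at h9
    linarith

/-- the argument of zeta, by continuous variation along `2 → 2 + it → 1/2 + it` -/
noncomputable def ar (t : ℝ) : ℝ :=
  (∫ u in (0:ℝ)..t, (deriv riemannZeta (2 + u * I) / riemannZeta (2 + u * I)).re) -
    ∫ x in (1 / 2 : ℝ)..2, (deriv riemannZeta (x + t * I) / riemannZeta (x + t * I)).im

lemma im_LP_two (t : ℝ) :
    (LP (2 + t * I)).im = ∫ u in (0:ℝ)..t, (deriv riemannZeta (2 + u * I) / riemannZeta (2 + u * I)).re := by
  have hre : ∀ u : ℝ, ((2 : ℂ) + u * I).re = 2 := fun u => by simp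
  have hd : ∀ u : ℝ, HasDerivAt (fun u : ℝ => (LP (2 + u * I)).im) ((deriv riemannZeta (2 + u * I) / riemannZeta (2 + u * I)).re) u := by
    intro u
    have h1 := hasDerivAt_LP (s := (2:ℂ) + u * I) (by rw [hre]; norm_num)
    have h2 : HasDerivAt (fun v : ℝ => LP (((2:ℝ) : ℂ) + v * I)) (deriv riemannZeta (2 + u * I) / riemannZeta (2 + u * I) * I) u := by
      refine hasDerivAt_ver ?_
      push_cast
      exact h1
    have h3 := hasDerivAt_im h2
    push_cast at h3
    refine h3.congr_deriv ?_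
    simp
  have hcont : Continuous (fun u : ℝ => (deriv riemannZeta (2 + u * I) / riemannZeta (2 + u * I)).re) := by
    rw [continuous_iff_continuousAt]
    intro u
    have hopen : IsOpen {s : ℂ | 1 < s.re} := isOpen_lt continuous_const Complex.continuous_re
    have hdo : DifferentiableOn ℂ riemannZeta {s : ℂ | 1 < s.re} := fun s hs => by
      refine (differentiableAt_riemannZeta ?_).differentiableWithinAt
      intro h0
      have hs' : 1 < s.re := hs
      rw [h0, Complex.one_re] at hs'
      exact lt_irrefl _ hs'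
    have hmem : ((2 : ℂ) + u * I) ∈ {s : ℂ | 1 < s.re} := by
      show 1 < ((2 : ℂ) + u * I).re
      rw [hre]; norm_num
    have h1 : ContinuousAt (deriv riemannZeta) (2 + u * I) :=
      ((hdo.deriv hopen).continuousOn).continuousAt (hopen.mem_nhds hmem)
    have h2 : ContinuousAt riemannZeta (2 + u * I) := (hdo.continuousOn).continuousAt (hopen.mem_nhds hmem)
    have h3 : ContinuousAt (fun s => deriv riemannZeta s / riemannZeta s) ((2 : ℂ) + u * I) :=
      h1.div h2 (riemannZeta_ne_zero_of_one_lt_re hmem)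
    have h4 : ContinuousAt (fun u : ℝ => (2 : ℂ) + u * I) u := by fun_prop
    have h5 := ContinuousAt.comp (f := fun u : ℝ => (2 : ℂ) + u * I) h3 h4
    exact Complex.continuous_re.continuousAt.comp h5
  rw [intervalIntegral.integral_eq_sub_of_hasDerivAt (fun u _ => hd u) (hcont.intervalIntegrable _ _)]
  have e0 : (2 : ℂ) + ((0:ℝ) : ℂ) * I = ((2 : ℝ) : ℂ) := by simp
  rw [e0, LP_real, sub_zero]

/-- the limit of the argument -/
theorem SA0_tendsto (hRH : RiemannHypothesis) (h : GG g) {t : ℝ} (ht : 0 < t) (hne : riemannZeta (1 / 2 + t * I) ≠ 0) :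
    Tendsto (fun a : ℝ => SA (LL g) 0 a t) (𝓝[>] 0) (𝓝 (ar t / Real.pi)) := by
  obtain ⟨F, hF⟩ : ∃ F : ℝ → ℝ, F = fun x : ℝ => (deriv riemannZeta (x + t * I) / riemannZeta (x + t * I)).im := ⟨_, rfl⟩
  -- continuity of F on [1/2, 2]
  have hζ : ∀ x ∈ Icc (1 / 2 : ℝ) 2, riemannZeta ((x : ℂ) + t * I) ≠ 0 := by
    intro x hx
    rcases eq_or_lt_of_le hx.1 with h0 | h0
    · rw [← h0]
      push_cast
      exact hne
    · intro h1
      have h2 := hRH ((x : ℂ) + t * I) h1 (by
        rintro ⟨n, hn⟩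
        have := congrArg Complex.im hn
        rw [im_xu] at this
        simp at this
        linarith) (by
        intro h3
        have := congrArg Complex.im h3
        rw [im_xu, Complex.one_im] at this
        linarith)
      rw [re_xu] at h2
      linarith
  have hFc : ContinuousOn F (Icc (1 / 2 : ℝ) 2) := by
    intro x hx
    have hopen : IsOpen {s : ℂ | 0 < s.im} := isOpen_lt continuous_const Complex.continuous_im
    have hdo : DifferentiableOn ℂ riemannZeta {s : ℂ | 0 < s.im} := fun s hs => by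
      refine (differentiableAt_riemannZeta ?_).differentiableWithinAt
      intro h0
      have hs' : 0 < s.im := hs
      rw [h0, Complex.one_im] at hs'
      exact lt_irrefl _ hs'
    have hmem : ((x : ℂ) + t * I) ∈ {s : ℂ | 0 < s.im} := by
      show 0 < ((x : ℂ) + t * I).im
      rw [im_xu]; exact ht
    have h1 : ContinuousAt (deriv riemannZeta) ((x : ℂ) + t * I) :=
      ((hdo.deriv hopen).continuousOn).continuousAt (hopen.mem_nhds hmem)
    have h2 : ContinuousAt riemannZeta ((x : ℂ) + t * I) := (hdo.continuousOn).continuousAt (hopen.mem_nhds hmem)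
    have h3 : ContinuousAt (fun s => deriv riemannZeta s / riemannZeta s) ((x : ℂ) + t * I) := h1.div h2 (hζ x hx)
    have h4 : ContinuousAt (fun x : ℝ => (x : ℂ) + t * I) x := by fun_prop
    have h5 := ContinuousAt.comp (f := fun x : ℝ => (x : ℂ) + t * I) h3 h4
    have h6 : ContinuousAt F x := by
      rw [hF]
      exact Complex.continuous_im.continuousAt.comp h5
    exact h6.continuousWithinAt
  -- formula for positive a
  have hform : ∀ a : ℝ, 0 < a → a ≤ 1 → (LL g (a + t * I)).im = (LP (2 + t * I)).im - ∫ x in (1 / 2 + a)..2, F x := by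
    intro a ha ha1
    have hd : ∀ x ∈ uIcc a (3 / 2 : ℝ), HasDerivAt (fun x : ℝ => (LL g (x + t * I)).im) (F (1 / 2 + x)) x := by
      intro x hx
      rw [uIcc_of_le (by linarith)] at hx
      have h1 := h.der_LL hRH (z := (x : ℂ) + t * I) (by rw [re_xu]; linarith [hx.1]) (by rw [im_xu]; exact ht)
      have h2 := hasDerivAt_im (hasDerivAt_hor h1)
      refine h2.congr_deriv ?_
      rw [hF]
      have e : (1 / 2 + ((x : ℂ) + t * I)) = (((1 / 2 + x : ℝ) : ℂ) + t * I) := by push_cast; ring
      rw [e]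
    have hi : IntervalIntegrable (fun x => F (1 / 2 + x)) volume a (3 / 2) := by
      refine ContinuousOn.intervalIntegrable ?_
      rw [uIcc_of_le (by linarith)]
      refine hFc.comp (by fun_prop) ?_
      intro x hx
      exact ⟨by linarith [hx.1], by linarith [hx.2]⟩
    have h1 := intervalIntegral.integral_eq_sub_of_hasDerivAt hd hi
    rw [intervalIntegral.integral_comp_add_left (fun x => F x)] at h1
    have e1 : (1 / 2 + 3 / 2 : ℝ) = 2 := by norm_num
    rw [e1] at h1
    have h2 : LL g (((3 / 2 : ℝ) : ℂ) + t * I) = LP (2 + t * I) := by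
      rw [h.far_LL (by rw [re_xu]; norm_num)]
      congr 1
      push_cast
      ring
    rw [h2] at h1
    linarith
  have hprim : Tendsto (fun a : ℝ => ∫ x in (1 / 2 + a)..2, F x) (𝓝[>] 0) (𝓝 (∫ x in (1 / 2 : ℝ)..2, F x)) := by
    have h1 : ContinuousOn (fun y : ℝ => ∫ x in y..2, F x) (uIcc (1 / 2) 2) := by
      refine intervalIntegral.continuousOn_primitive_interval_left ?_
      rw [uIcc_of_le (by norm_num)]
      exact hFc.integrableOn_Icc
    rw [uIcc_of_le (by norm_num)] at h1
    have h2 := (h1 (1 / 2) (left_mem_Icc.mpr (by norm_num))).tendsto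
    refine h2.comp (tendsto_nhdsWithin_iff.mpr ⟨?_, ?_⟩)
    · have h3 : Continuous (fun a : ℝ => 1 / 2 + a) := by fun_prop
      have h4 := (h3.tendsto 0).mono_left (nhdsWithin_le_nhds (s := Ioi 0))
      simpa using h4
    · have h3 : ∀ᶠ a : ℝ in 𝓝[>] 0, a ≤ 1 := by
        have : ∀ᶠ a : ℝ in 𝓝 0, a ≤ 1 := (gt_mem_nhds (show (0:ℝ) < 1 by norm_num)).mono fun x hx => le_of_lt hx
        exact nhdsWithin_le_nhds this
      filter_upwards [self_mem_nhdsWithin, h3] with a ha ha1
      have ha' : 0 < a := ha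
      exact ⟨by linarith, by linarith⟩
  have hlim := (hprim.const_sub ((LP (2 + t * I)).im)).div_const Real.pi
  have e2 : ar t = (LP (2 + t * I)).im - ∫ x in (1 / 2 : ℝ)..2, F x := by
    unfold ar
    rw [im_LP_two, hF]
  rw [e2]
  refine hlim.congr' ?_
  have h3 : ∀ᶠ a : ℝ in 𝓝[>] 0, a ≤ 1 := by
    have : ∀ᶠ a : ℝ in 𝓝 0, a ≤ 1 := (gt_mem_nhds (show (0:ℝ) < 1 by norm_num)).mono fun x hx => le_of_lt hx
    exact nhdsWithin_le_nhds this
  filter_upwards [self_mem_nhdsWithin, h3] with a ha ha1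
  show _ = (LL g (a + t * I)).im / Real.pi
  rw [hform a ha ha1]

end Q241.SN
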