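import Mathlib
import Pool.Agent.Q241.SN.Lim3

set_option autoImplicit false

/-! Iterated integrals as moments. -/

namespace Q241.SN

open Set Filter Topology Complex MeasureTheory
open scoped Nat

/-- moments of a function -/
noncomputable def JJ (f : ℝ → ℝ) (k : ℕ) (a : ℝ) : ℝ := ∫ x in Ioi (0 : ℝ), x ^ k / k ! * f (a + x)

/-- kernel -/
noncomputable def KK (f : ℝ → ℝ) (k : ℕ) (a : ℝ) (b y : ℝ) : ℝ :=
  indicator {p : ℝ × ℝ | a < p.1 ∧ p.1 < p.2} (fun p => (p.2 - p.1) ^ k / k ! * f p.2) (b, y)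

lemma KK_set : MeasurableSet {p : ℝ × ℝ | p.1 < p.2} := measurableSet_lt measurable_fst measurable_snd

lemma shift_Ioi (g : ℝ → ℝ) (a c : ℝ) : ∫ x in Ioi a, g (c + x) = ∫ y in Ioi (c + a), g y := by
  have h := (measurePreserving_add_left (volume : Measure ℝ) c).setIntegral_preimage_emb
    (MeasurableEquiv.addLeft c).measurableEmbedding g (Ioi (c + a))
  rw [← h]
  congr 2
  ext x
  simp

lemma JJ_eq (f : ℝ → ℝ) (k : ℕ) (a : ℝ) : JJ f k a = ∫ y in Ioi a, (y - a) ^ k / k ! * f y := by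
  unfold JJ
  have h := shift_Ioi (fun y : ℝ => (y - a) ^ k / k ! * f y) 0 a
  rw [add_zero] at h
  rw [← h]
  refine setIntegral_congr_fun measurableSet_Ioi fun x _ => ?_
  simp

/-- all moments are finite -/
structure Mts (f : ℝ → ℝ) : Prop where
  meas : Measurable f
  int : ∀ k : ℕ, IntegrableOn (fun x : ℝ => x ^ k * |f x|) (Ioi 0)

variable {f : ℝ → ℝ}

lemma Mts.int' (h : Mts f) (k : ℕ) {a : ℝ} (ha : 0 ≤ a) :
    IntegrableOn (fun y : ℝ => (y - a) ^ k / k ! * f y) (Ioi a) := by
  have h1 : IntegrableOn (fun x : ℝ => x ^ k * |f x|) (Ioi a) := (h.int k).mono_set (Ioi_subset_Ioi ha)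
  refine Integrable.mono' h1 ?_ ?_
  · exact (Measurable.mul (by fun_prop) h.meas).aestronglyMeasurable
  · refine (ae_restrict_iff' measurableSet_Ioi).mpr (Eventually.of_forall fun x hx => ?_)
    have hx' : a < x := hx
    have hk : (1:ℝ) ≤ k ! := by exact_mod_cast Nat.one_le_iff_ne_zero.mpr (Nat.factorial_ne_zero k)
    rw [norm_mul, norm_div, norm_pow, Real.norm_eq_abs, Real.norm_eq_abs, Real.norm_eq_abs,
      abs_of_pos (show 0 < x - a by linarith), abs_of_pos (show (0:ℝ) < (k ! : ℝ) from lt_of_lt_of_le one_pos hk)]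
    refine mul_le_mul_of_nonneg_right ?_ (abs_nonneg _)
    rw [div_le_iff₀ (by linarith)]
    have h2 : (x - a) ^ k ≤ x ^ k := pow_le_pow_left₀ (by linarith) (by linarith) k
    have h3 : 0 ≤ x ^ k := pow_nonneg (by linarith) k
    nlinarith

lemma int_pow_sub (k : ℕ) {a y : ℝ} (hay : a ≤ y) :
    ∫ b in Ioo a y, (y - b) ^ k / k ! = (y - a) ^ (k + 1) / (k + 1)! := by
  rw [← integral_Ioc_eq_integral_Ioo, ← intervalIntegral.integral_of_le hay, intervalIntegral.integral_div,
    intervalIntegral.integral_comp_sub_left (fun x => x ^ k) y, integral_pow, sub_self, zero_pow (by omega), sub_zero,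
    Nat.factorial_succ]
  have hk : (k ! : ℝ) ≠ 0 := by exact_mod_cast Nat.factorial_ne_zero k
  have hk1 : ((k : ℝ) + 1) ≠ 0 := by positivity
  push_cast
  field_simp

lemma KK_left (f : ℝ → ℝ) (k : ℕ) (a y : ℝ) :
    (fun b => KK f k a b y) = indicator (Ioo a y) (fun b => (y - b) ^ k / k ! * f y) := by
  funext b
  unfold KK
  by_cases hb : b ∈ Ioo a y
  · rw [indicator_of_mem hb, indicator_of_mem (show (b, y) ∈ {p : ℝ × ℝ | a < p.1 ∧ p.1 < p.2} from hb)]
  · rw [indicator_of_notMem hb, indicator_of_notMem (show (b, y) ∉ {p : ℝ × ℝ | a < p.1 ∧ p.1 < p.2} from hb)]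

lemma KK_right (f : ℝ → ℝ) (k : ℕ) (a b : ℝ) :
    (fun y => KK f k a b y) = if a < b then indicator (Ioi b) (fun y => (y - b) ^ k / k ! * f y) else 0 := by
  funext y
  unfold KK
  by_cases hb : a < b
  · rw [if_pos hb]
    by_cases hy : b < y
    · rw [indicator_of_mem (show y ∈ Ioi b from hy),
        indicator_of_mem (show (b, y) ∈ {p : ℝ × ℝ | a < p.1 ∧ p.1 < p.2} from ⟨hb, hy⟩)]
    · rw [indicator_of_notMem (show y ∉ Ioi b from hy),
        indicator_of_notMem (show (b, y) ∉ {p : ℝ × ℝ | a < p.1 ∧ p.1 < p.2} from fun h => hy h.2)]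
  · rw [if_neg hb, indicator_of_notMem (show (b, y) ∉ {p : ℝ × ℝ | a < p.1 ∧ p.1 < p.2} from fun h => hb h.1)]
    rfl

lemma KK_meas (h : Mts f) (k : ℕ) (a : ℝ) : Measurable (fun p : ℝ × ℝ => KK f k a p.1 p.2) := by
  unfold KK
  refine Measurable.indicator ?_ ?_
  · exact Measurable.mul (by fun_prop) (h.meas.comp measurable_snd)
  · exact (measurableSet_lt measurable_const measurable_fst).inter KK_set

lemma KK_int_left (f : ℝ → ℝ) (k : ℕ) (a : ℝ) (y : ℝ) : Integrable (fun b => KK f k a b y) := by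
  rw [KK_left]
  refine (integrable_indicator_iff measurableSet_Ioo).mpr ?_
  have h1 : ContinuousOn (fun b : ℝ => (y - b) ^ k / k ! * f y) (Icc a y) := by fun_prop
  exact (h1.integrableOn_Icc).mono_set Ioo_subset_Icc_self

lemma KK_norm_left (f : ℝ → ℝ) (k : ℕ) (a y : ℝ) :
    ∫ b, ‖KK f k a b y‖ = indicator (Ioi a) (fun y => (y - a) ^ (k + 1) / (k + 1)! * |f y|) y := by
  have h1 : (fun b => ‖KK f k a b y‖) = indicator (Ioo a y) (fun b => (y - b) ^ k / k ! * |f y|) := by
    funext b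
    have h2 : KK f k a b y = indicator (Ioo a y) (fun b => (y - b) ^ k / k ! * f y) b := congrFun (KK_left f k a y) b
    rw [h2]
    by_cases hb : b ∈ Ioo a y
    · rw [indicator_of_mem hb, indicator_of_mem hb]
      have h3 : 0 < y - b := by linarith [hb.2]
      rw [norm_mul, Real.norm_eq_abs, Real.norm_eq_abs, abs_of_nonneg (by positivity)]
    · rw [indicator_of_notMem hb, indicator_of_notMem hb, norm_zero]
  rw [h1, integral_indicator measurableSet_Ioo, integral_mul_const]
  by_cases hy : a < y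
  · rw [int_pow_sub k hy.le, indicator_of_mem (show y ∈ Ioi a from hy)]
  · rw [indicator_of_notMem (show y ∉ Ioi a from hy), Ioo_eq_empty hy]
    simp

lemma KK_int (h : Mts f) (k : ℕ) {a : ℝ} (ha : 0 ≤ a) :
    Integrable (fun p : ℝ × ℝ => KK f k a p.1 p.2) (volume.prod volume) := by
  refine (integrable_prod_iff' (KK_meas h k a).aestronglyMeasurable).mpr ⟨?_, ?_⟩
  · exact Eventually.of_forall fun y => KK_int_left f k a y
  · simp only [KK_norm_left f k a]
    refine (integrable_indicator_iff measurableSet_Ioi).mpr ?_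
    have h2 := (h.int' (k + 1) ha).norm
    refine h2.congr ?_
    refine (ae_restrict_iff' measurableSet_Ioi).mpr (Eventually.of_forall fun x hx => ?_)
    have hx' : a < x := hx
    have h3 : 0 < x - a := by linarith
    simp only
    rw [norm_mul, Real.norm_eq_abs, Real.norm_eq_abs, abs_of_nonneg (by positivity)]

lemma KK_right_int (f : ℝ → ℝ) (k : ℕ) (a b : ℝ) : ∫ y, KK f k a b y = indicator (Ioi a) (fun b => JJ f k b) b := by
  rw [KK_right]
  by_cases hb : a < b
  · rw [if_pos hb, integral_indicator measurableSet_Ioi, indicator_of_mem (show b ∈ Ioi a from hb), JJ_eq]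
  · rw [if_neg hb, indicator_of_notMem (show b ∉ Ioi a from hb)]
    simp

theorem Mts.fubini (h : Mts f) (k : ℕ) {a : ℝ} (ha : 0 ≤ a) :
    IntegrableOn (JJ f k) (Ioi a) ∧ ∫ b in Ioi a, JJ f k b = JJ f (k + 1) a := by
  have h1 := KK_int h k ha
  have h2 := h1.integral_prod_left
  simp only [KK_right_int] at h2
  refine ⟨(integrable_indicator_iff measurableSet_Ioi).mp h2, ?_⟩
  have h3 := integral_integral_swap (f := KK f k a) h1
  simp only [KK_right_int] at h3
  rw [integral_indicator measurableSet_Ioi] at h3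
  rw [h3]
  have h4 : (fun y => ∫ b, KK f k a b y) = indicator (Ioi a) (fun y => (y - a) ^ (k + 1) / (k + 1)! * f y) := by
    funext y
    rw [KK_left, integral_indicator measurableSet_Ioo, integral_mul_const]
    by_cases hy : a < y
    · rw [int_pow_sub k hy.le, indicator_of_mem (show y ∈ Ioi a from hy)]
    · rw [indicator_of_notMem (show y ∉ Ioi a from hy), Ioo_eq_empty hy]
      simp
  rw [h4, integral_indicator measurableSet_Ioi, JJ_eq]

/-- iterated integrals to infinity -/
noncomputable def II (F : ℝ → ℝ) : ℕ → ℝ → ℝ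
  | 0, σ => F σ
  | k + 1, σ => ∫ x in Ioi σ, II F k x

theorem Mts.II_eq (h : Mts f) (k : ℕ) {a : ℝ} (ha : 0 ≤ a) : II f (k + 1) a = JJ f k a := by
  induction k generalizing a with
  | zero =>
    show ∫ x in Ioi a, f x = _
    rw [JJ_eq]
    refine setIntegral_congr_fun measurableSet_Ioi fun x _ => ?_
    simp
  | succ k ih =>
    show ∫ x in Ioi a, II f (k + 1) x = _
    rw [← (h.fubini k ha).2]
    refine setIntegral_congr_fun measurableSet_Ioi fun x hx => ?_
    exact ih (le_trans ha (le_of_lt hx))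

lemma II_shift (F : ℝ → ℝ) (c : ℝ) (k : ℕ) (a : ℝ) : II F k (c + a) = II (fun y => F (c + y)) k a := by
  induction k generalizing a with
  | zero => rfl
  | succ k ih =>
    show ∫ x in Ioi (c + a), II F k x = ∫ x in Ioi a, II (fun y => F (c + y)) k x
    have h := shift_Ioi (fun y : ℝ => II F k y) a c
    rw [← h]
    exact setIntegral_congr_fun measurableSet_Ioi fun x _ => ih x

/-- continuity at zero from the right -/
theorem Mts.tendsto (h : Mts f) (k : ℕ) : Tendsto (JJ f k) (𝓝[>] 0) (𝓝 (JJ f k 0)) := by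
  have key : ∀ G : ℝ → ℝ, IntegrableOn G (Ioi 0) → (∀ a : ℝ, 0 ≤ a → JJ f k a = ∫ x in Ioi a, G x) →
      Tendsto (JJ f k) (𝓝[>] 0) (𝓝 (JJ f k 0)) := by
    intro G hG hJ
    have h1 : ∀ a : ℝ, 0 ≤ a → JJ f k a = JJ f k 0 - ∫ x in (0:ℝ)..a, G x := by
      intro a ha
      rw [hJ a ha, hJ 0 le_rfl]
      have h2 : IntervalIntegrable G volume 0 a :=
        (intervalIntegrable_iff_integrableOn_Ioc_of_le ha).mpr (hG.mono_set Ioc_subset_Ioi_self)
      have h3 := intervalIntegral.integral_interval_add_Ioi' (μ := volume) h2 (hG.mono_set (Ioi_subset_Ioi ha))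
      linarith
    have h2 : Tendsto (fun a : ℝ => ∫ x in (0:ℝ)..a, G x) (𝓝[>] 0) (𝓝 0) := by
      have h3 : ContinuousWithinAt (fun a : ℝ => ∫ x in (0:ℝ)..a, G x) (Icc 0 1) 0 := by
        refine (intervalIntegral.continuousOn_primitive_interval' (b₁ := 0) (b₂ := 1) ?_ left_mem_uIcc) 0 ?_ |>.mono ?_
        · exact (intervalIntegrable_iff_integrableOn_Ioc_of_le zero_le_one).mpr (hG.mono_set Ioc_subset_Ioi_self)
        · exact left_mem_uIcc
        · rw [uIcc_of_le zero_le_one]
      have h4 := h3.tendsto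
      rw [intervalIntegral.integral_same] at h4
      refine h4.mono_left ?_
      have h5 : Ioi (0:ℝ) ∩ Iio 1 ⊆ Icc 0 1 := fun x hx => ⟨le_of_lt hx.1, le_of_lt hx.2⟩
      rw [← nhdsWithin_inter_of_mem' (s := Ioi (0:ℝ)) (t := Iio 1)]
      · exact nhdsWithin_mono _ h5
      · exact mem_nhdsWithin_of_mem_nhds (Iio_mem_nhds zero_lt_one)
    have h3 := h2.const_sub (JJ f k 0)
    rw [sub_zero] at h3
    refine h3.congr' ?_
    filter_upwards [self_mem_nhdsWithin] with a ha
    exact (h1 a (le_of_lt ha)).symm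
  rcases k with _ | k
  · refine key f ?_ ?_
    · have h1 := h.int' 0 (a := 0) le_rfl
      refine h1.congr_fun (fun x _ => ?_) measurableSet_Ioi
      simp
    · intro a ha
      rw [JJ_eq]
      refine setIntegral_congr_fun measurableSet_Ioi fun x _ => ?_
      simp
  · exact key (JJ f k) (h.fubini k le_rfl).1 fun a ha => ((h.fubini k ha).2).symm

end Q241.SN
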