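import Mathlib
import Pool.Agent.Q241.SN.Lim4
import Pool.Agent.Y21.FW.Zeros

set_option autoImplicit false

/-! The moments of `log |ζ(1/2+y)|`. -/

namespace Q241.SN

open Set Filter Topology Complex MeasureTheory
open scoped Nat

variable {g : ℂ → ℂ}

lemma zeta_meas : Measurable riemannZeta := by
  refine measurable_of_continuousOn_compl_singleton 1 ?_
  intro z hz
  exact (differentiableAt_riemannZeta hz).continuousAt.continuousWithinAt

lemma phi_meas : Measurable phi := by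
  unfold phi
  refine Real.measurable_log.comp (measurable_norm.comp (zeta_meas.comp ?_))
  exact Complex.measurable_ofReal.comp (by fun_prop)

lemma phi_near : ∃ B : ℝ, 0 ≤ B ∧ ∀ y : ℝ, 0 ≤ y → y ≤ 1 / 4 → |phi y| ≤ B := by
  have h1 : ContinuousOn phi (Icc 0 (1 / 4)) := by
    intro y hy
    have h2 : ((1 / 2 + y : ℝ) : ℂ) ≠ 1 := by
      intro h
      have := congrArg Complex.re h
      rw [Complex.ofReal_re, Complex.one_re] at this
      linarith [hy.2]
    have h3 : riemannZeta ((1 / 2 + y : ℝ) : ℂ) ≠ 0 :=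
      Pool.Agent.Y21.FW.real_ne (by linarith [hy.1]) (by linarith [hy.2])
    have h4 : ContinuousAt (fun y : ℝ => riemannZeta ((1 / 2 + y : ℝ) : ℂ)) y := by
      have h5 : ContinuousAt (fun y : ℝ => ((1 / 2 + y : ℝ) : ℂ)) y := by fun_prop
      exact ContinuousAt.comp (f := fun y : ℝ => ((1 / 2 + y : ℝ) : ℂ)) (differentiableAt_riemannZeta h2).continuousAt h5
    have h6 : ContinuousAt phi y := (h4.norm).log (norm_ne_zero_iff.mpr h3)
    exact h6.continuousWithinAt
  obtain ⟨B, hB⟩ := isCompact_Icc.exists_bound_of_continuousOn h1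
  refine ⟨max B 0, le_max_right _ _, fun y h0 h4 => ?_⟩
  exact (hB y ⟨h0, h4⟩).trans (le_max_left _ _)

lemma phi_Mts (hRH : RiemannHypothesis) (h : GG g) : Mts phi := by
  refine ⟨phi_meas, fun k => ?_⟩
  obtain ⟨B, hB, hB1⟩ := phi_near
  obtain ⟨C, hC, hd1, hd2⟩ := h.dom hRH (T := 1) le_rfl
  have i1 : IntegrableOn (fun x : ℝ => B + 4 * C + |Real.log (x - 1 / 2)|) (Ioc 0 1) :=
    (intervalIntegrable_iff_integrableOn_Ioc_of_le zero_le_one).mp
      (intervalIntegrable_const.add (log_shift_int _ _ _))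
  have i2 := (i1.integrable_indicator measurableSet_Ioc).integrableOn (s := Ioi (0:ℝ))
  have i3 := (integrable_pow_exp k (b := 1 / 2) (by norm_num)).const_mul C
  refine Integrable.mono' (i2.add i3) ?_ ?_
  · have : Measurable (fun x : ℝ => x ^ k * |phi x|) :=
      (measurable_id.pow_const k).mul (continuous_abs.measurable.comp phi_meas)
    exact this.aestronglyMeasurable
  · filter_upwards [ae_ne (1 / 2), ae_restrict_mem measurableSet_Ioi] with x hx1 hx2
    have hx : 0 < x := hx2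
    have h3 : phi x = (LL g x).re := (h.re_LL hRH hx hx1).symm
    rw [Real.norm_eq_abs, abs_of_nonneg (by positivity)]
    show _ ≤ indicator (Ioc (0:ℝ) 1) (fun x => B + 4 * C + |Real.log (x - 1 / 2)|) x + C * (x ^ k * Real.exp (-(1 / 2 * x)))
    have h6 : 0 ≤ C * (x ^ k * Real.exp (-(1 / 2 * x))) := by positivity
    rcases le_or_gt x 1 with hx3 | hx3
    · rw [indicator_of_mem (show x ∈ Ioc (0:ℝ) 1 from ⟨hx, hx3⟩)]
      have h7 : |phi x| ≤ B + 4 * C + |Real.log (x - 1 / 2)| := by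
        rcases le_or_gt x (1 / 4) with hx4 | hx4
        · have h8 := hB1 x hx.le hx4
          have h9 := abs_nonneg (Real.log (x - 1 / 2))
          linarith
        · have h8 := hd1 x 0 hx hx3 hx1 le_rfl (by norm_num)
          rw [Complex.ofReal_zero, zero_mul, add_zero] at h8
          have h9 : |phi x| ≤ ‖LL g x‖ := by rw [h3]; exact Complex.abs_re_le_norm _
          have h10 : C / x ≤ 4 * C := by
            rw [div_le_iff₀ hx]
            nlinarith
          linarith
      have h8 : x ^ k ≤ 1 := pow_le_one₀ hx.le hx3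
      have h9 : x ^ k * |phi x| ≤ 1 * |phi x| := mul_le_mul_of_nonneg_right h8 (abs_nonneg _)
      linarith
    · have h8 := hd2 x 0 hx3.le
      rw [Complex.ofReal_zero, zero_mul, add_zero] at h8
      have h9 : |phi x| ≤ ‖LL g x‖ := by rw [h3]; exact Complex.abs_re_le_norm _
      have h4 : indicator (Ioc (0:ℝ) 1) (fun x => B + 4 * C + |Real.log (x - 1 / 2)|) x = 0 :=
        indicator_of_notMem (fun h => absurd h.2 (not_le.mpr hx3)) _
      rw [h4, zero_add]
      calc x ^ k * |phi x| ≤ x ^ k * (C * Real.exp (-(x / 2))) := mul_le_mul_of_nonneg_left (h9.trans h8) (by positivity)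
        _ = C * (x ^ k * Real.exp (-(1 / 2 * x))) := by
            rw [show x / 2 = 1 / 2 * x by ring]; ring

/-- the iterated integrals of `log |ζ|` -/
noncomputable def IZ : ℕ → ℝ → ℝ := II (fun σ => Real.log ‖riemannZeta (σ : ℂ)‖)

lemma IZ_eq (hRH : RiemannHypothesis) (h : GG g) (k : ℕ) : IZ (k + 1) (1 / 2) = JJ phi k 0 := by
  have h1 := II_shift (fun σ => Real.log ‖riemannZeta (σ : ℂ)‖) (1 / 2) (k + 1) 0
  rw [add_zero] at h1
  unfold IZ
  rw [h1]
  exact (phi_Mts hRH h).II_eq k le_rfl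

/-- the constants -/
noncomputable def dl (n : ℕ) : ℝ :=
  if Even n then (-1) ^ (n / 2 + 1) / (n ! * 2 ^ n) else (-1) ^ (n / 2) / Real.pi * IZ n (1 / 2)

lemma I_pow_odd (m : ℕ) : (I : ℂ) ^ (2 * m + 1) = (((-1) ^ m : ℝ) : ℂ) * I := by
  rw [pow_succ, pow_mul, Complex.I_sq]; push_cast; rfl

lemma I_pow_even (m : ℕ) : (I : ℂ) ^ (2 * m) = (((-1) ^ m : ℝ) : ℂ) := by
  rw [pow_mul, Complex.I_sq]; push_cast; rfl

theorem D_tendsto (hRH : RiemannHypothesis) (h : GG g) (k : ℕ) :
    Tendsto (fun a : ℝ => (I ^ (k + 1) * MM (LL g) k a).im / Real.pi) (𝓝[>] 0) (𝓝 (dl (k + 1))) := by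
  have hpi := Real.pi_pos.ne'
  rcases Nat.even_or_odd' (k + 1) with ⟨m, hm | hm⟩
  · -- even
    have h1 : ∀ᶠ a : ℝ in 𝓝[>] 0, (-(-1) ^ m) * ((1 / 2 - a) ^ (k + 1) / (k + 1)!) = (I ^ (k + 1) * MM (LL g) k a).im / Real.pi := by
      have h3 : ∀ᶠ a : ℝ in 𝓝[>] 0, a ≤ 1 / 2 := by
        have : ∀ᶠ a : ℝ in 𝓝 0, a ≤ 1 / 2 := (gt_mem_nhds (show (0:ℝ) < 1 / 2 by norm_num)).mono fun x hx => le_of_lt hx
        exact nhdsWithin_le_nhds this
      filter_upwards [self_mem_nhdsWithin, h3] with a ha ha1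
      have ha' : 0 < a := ha
      have e1 : (I : ℂ) ^ (k + 1) = (((-1) ^ m : ℝ) : ℂ) := by rw [hm]; exact I_pow_even m
      rw [e1, Complex.im_ofReal_mul, MM_im hRH h ha' ha1 k]
      field_simp
    refine Tendsto.congr' h1 ?_
    have h2 : Continuous (fun a : ℝ => (-(-1) ^ m) * ((1 / 2 - a) ^ (k + 1) / (k + 1)!)) := by fun_prop
    have h3 := (h2.tendsto 0).mono_left (nhdsWithin_le_nhds (s := Ioi 0))
    have e2 : dl (k + 1) = (-(-1) ^ m) * ((1 / 2 - 0) ^ (k + 1) / (k + 1)!) := by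
      unfold dl
      rw [if_pos (by rw [hm]; exact even_two_mul m)]
      have e3 : (k + 1) / 2 = m := by omega
      rw [e3, sub_zero, pow_succ]
      have hk : ((k + 1)! : ℝ) ≠ 0 := by exact_mod_cast Nat.factorial_ne_zero (k + 1)
      rw [one_div, inv_pow]
      field_simp
    rw [e2]
    exact h3
  · -- odd
    have hk : k = 2 * m := by omega
    have h1 : ∀ᶠ a : ℝ in 𝓝[>] 0, ((-1) ^ m / Real.pi) * JJ phi k a = (I ^ (k + 1) * MM (LL g) k a).im / Real.pi := by
      filter_upwards [self_mem_nhdsWithin] with a ha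
      have ha' : 0 < a := ha
      have e1 : (I : ℂ) ^ (k + 1) = (((-1) ^ m : ℝ) : ℂ) * I := by rw [hm]; exact I_pow_odd m
      rw [e1, mul_assoc, Complex.im_ofReal_mul, Complex.I_mul_im, MM_re hRH h ha' k]
      unfold JJ
      ring
    refine Tendsto.congr' h1 ?_
    have h3 := ((phi_Mts hRH h).tendsto k).const_mul ((-1) ^ m / Real.pi)
    have e2 : dl (k + 1) = ((-1) ^ m / Real.pi) * JJ phi k 0 := by
      unfold dl
      rw [if_neg (by rw [hm]; exact Nat.not_even_iff_odd.mpr (odd_two_mul_add_one m)), IZ_eq hRH h k]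
      have e3 : (k + 1) / 2 = m := by omega
      rw [e3]
    rw [e2]
    exact h3

end Q241.SN
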