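import Mathlib
import Pool.Agent.Q241.SN.MainA

set_option autoImplicit false

/-! The sharp bounds on vertical lines close to the critical line: conclusion. -/

namespace Q241.SN

open Set Filter Topology Complex MeasureTheory
open scoped Nat ContDiff

variable {L : ℂ → ℂ} {C1 : ℝ}

/-- extreme constants -/
noncomputable def cU (n : ℕ) : ℝ := Real.pi ^ n / 2 * hi n
noncomputable def cL (n : ℕ) : ℝ := Real.pi ^ n / 2 * lo n

lemma LK.slope' (h : LK L C1) {δ : ℝ} (hδ : 0 < δ) : ∀ᶠ t : ℝ in atTop, ∀ a : ℝ, 0 < a → a ≤ 1 →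
    ∀ u ∈ Icc (t - 1) (t + 1), -((1 + δ) * (Real.log t / (2 * Real.pi))) ≤ (deriv L (a + u * I)).re / Real.pi := by
  have ev3 : ∀ᶠ t : ℝ in atTop, 2 + (2 * C1 + 1) / δ ≤ Real.log t := Real.tendsto_log_atTop.eventually_ge_atTop _
  filter_upwards [ev3, eventually_ge_atTop 3] with t h3 h4 a ha ha1 u hu
  have hC1 := h.hC1
  have h5' : 0 ≤ (2 * C1 + 1) / δ := by positivity
  obtain ⟨h7, h8, h9⟩ := log_window h4 (by linarith) hu
  have h5 := h.low (a + u * I) (by rw [re_xu]; exact ha) (by rw [re_xu]; exact ha1) (by rw [im_xu]; linarith [hu.1])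
  rw [im_xu] at h5
  rw [le_div_iff₀ Real.pi_pos]
  have h10 : (2 * C1 + 1) ≤ δ * Real.log t := by
    have h11 : (2 * C1 + 1) / δ ≤ Real.log t := by linarith
    rw [div_le_iff₀ hδ] at h11
    linarith
  have e1 : -((1 + δ) * (Real.log t / (2 * Real.pi))) * Real.pi = -((1 + δ) * Real.log t / 2) := by
    have := Real.pi_pos
    field_simp
  rw [e1]
  linarith

theorem LK.main (h : LK L C1) (n : ℕ) {ε : ℝ} (hε : 0 < ε) : ∀ᶠ t : ℝ in atTop, ∀ a : ℝ, 0 < a → a ≤ 1 →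
    (cL n - ε) * (Real.log t / Real.log (Real.log t) ^ (n + 1)) ≤ SA L n a t ∧
    SA L n a t ≤ (cU n + ε) * (Real.log t / Real.log (Real.log t) ^ (n + 1)) := by
  -- choose δ
  obtain ⟨δ, hδ0, hδ1, hδU, hδL⟩ : ∃ δ : ℝ, 0 < δ ∧ δ ≤ 1 ∧
      (1 + 2 * δ) * (1 + δ) ^ (n + 1) * cU n ≤ cU n + ε ∧
      cL n - ε ≤ (1 + 2 * δ) * (1 + δ) ^ (n + 1) * cL n := by
    have hc : ∀ c : ℝ, Tendsto (fun δ : ℝ => (1 + 2 * δ) * (1 + δ) ^ (n + 1) * c) (𝓝[>] 0) (𝓝 c) := by
      intro c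
      have h1 : Continuous (fun δ : ℝ => (1 + 2 * δ) * (1 + δ) ^ (n + 1) * c) := by fun_prop
      have h2 := h1.tendsto 0
      simp only [mul_zero, add_zero, one_pow, mul_one, one_mul] at h2
      exact h2.mono_left nhdsWithin_le_nhds
    have e1 := (hc (cU n)).eventually (gt_mem_nhds (by linarith : cU n < cU n + ε))
    have e2 := (hc (cL n)).eventually (lt_mem_nhds (by linarith : cL n - ε < cL n))
    have e3 : ∀ᶠ δ : ℝ in 𝓝[>] 0, δ ≤ 1 := by
      have : ∀ᶠ δ : ℝ in 𝓝 0, δ ≤ 1 := (gt_mem_nhds (show (0:ℝ) < 1 by norm_num)).mono fun x hx => le_of_lt hx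
      exact nhdsWithin_le_nhds this
    have e4 : ∀ᶠ δ : ℝ in 𝓝[>] 0, 0 < δ := self_mem_nhdsWithin
    obtain ⟨δ, h1, h2, h3, h4⟩ := (e1.and (e2.and (e3.and e4))).exists
    exact ⟨δ, h4, h3, h1.le, h2.le⟩
  -- choose m
  obtain ⟨r, hr⟩ : ∃ r, r = (1 + δ / 2) / 2 := ⟨_, rfl⟩
  obtain ⟨C, hC, hg⟩ := h.gro r (by rw [hr]; linarith)
  have hr0 : 0 < r := by rw [hr]; positivity
  obtain ⟨m, hmn, hm2, hmr⟩ : ∃ m : ℕ, n ≤ m ∧ 2 ≤ m ∧ 4 * C * r ^ m ≤ 1 / (2 * Real.pi) * ((1 + δ) / 2) ^ (m + 1) := by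
    have h1 : Tendsto (fun m : ℕ => (r / ((1 + δ) / 2)) ^ m) atTop (𝓝 0) := by
      refine tendsto_pow_atTop_nhds_zero_of_lt_one (by positivity) ?_
      rw [div_lt_one (by positivity), hr]
      linarith
    have h2 := h1.eventually (gt_mem_nhds (show 0 < 1 / (2 * Real.pi) * ((1 + δ) / 2) / (4 * C) by positivity))
    obtain ⟨m, h3, h4, h5⟩ := (h2.and ((eventually_ge_atTop n).and (eventually_ge_atTop 2))).exists
    refine ⟨m, h4, h5, ?_⟩
    rw [div_pow, div_lt_div_iff₀ (by positivity) (by positivity)] at h3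
    have e1 : ((1 + δ) / 2) ^ (m + 1) = ((1 + δ) / 2) ^ m * ((1 + δ) / 2) := pow_succ _ _
    rw [e1]
    linarith
  obtain ⟨k, rfl⟩ : ∃ k, m = k + 1 := ⟨m - 1, by omega⟩
  obtain ⟨D, hD, hcomp⟩ := local_comp (k + 1)
  -- uniform constants
  have hall := fun j => h.SA_all j
  choose CC hCC hCCb using hall
  obtain ⟨S, hS⟩ : ∃ S, S = ∑ j ∈ Finset.range (k + 2), CC j := ⟨_, rfl⟩
  have hS0 : 0 < S := by
    rw [hS]
    exact Finset.sum_pos (fun j _ => hCC j) ⟨0, by simp⟩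
  have hCS : ∀ j ≤ k + 1, CC j ≤ S := by
    intro j hj
    rw [hS]
    exact Finset.single_le_sum (f := CC) (fun i _ => (hCC i).le) (Finset.mem_range.mpr (by omega))
  have evall : ∀ᶠ t : ℝ in atTop, ∀ j ≤ k + 1, ∀ a : ℝ, 0 < a → a ≤ 1 →
      |SA L j a t| ≤ CC j * (Real.log t / Real.log (Real.log t)) := by
    have : ∀ᶠ t : ℝ in atTop, ∀ j ∈ Finset.range (k + 2), ∀ a : ℝ, 0 < a → a ≤ 1 →
        |SA L j a t| ≤ CC j * (Real.log t / Real.log (Real.log t)) := by
      rw [Filter.eventually_all_finset]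
      exact fun j _ => hCCb j
    filter_upwards [this] with t ht j hj
    exact ht j (Finset.mem_range.mpr (by omega))
  have ev2 : ∀ᶠ t : ℝ in atTop, 2 + 8 * Real.pi * D * S / δ ≤ Real.log (Real.log t) :=
    (Real.tendsto_log_atTop.comp Real.tendsto_log_atTop).eventually_ge_atTop _
  have ev3 : ∀ᶠ t : ℝ in atTop, 2 ≤ Real.log t := Real.tendsto_log_atTop.eventually_ge_atTop 2
  filter_upwards [ev_window evall, ev_window (hg k (by omega)), Lam_window 1, Lam_window (k + 2), h.slope' hδ0, ev2, ev3, eventually_ge_atTop 4]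
    with t h1 h2 h3 h4 h5 h6 h7 h8 a ha ha1
  obtain ⟨ℓ, hℓ⟩ : ∃ ℓ, ℓ = Real.log (Real.log t) := ⟨_, rfl⟩
  rw [← hℓ] at h3 h4 h6 ⊢
  have hpi := Real.pi_pos
  have hq : 0 ≤ 8 * Real.pi * D * S / δ := by positivity
  have hℓ0 : 0 < ℓ := by linarith
  have hlt : 0 < Real.log t := by linarith
  obtain ⟨K, hK⟩ : ∃ K, K = 4 * S * (Real.log t / ℓ) := ⟨_, rfl⟩
  have hK0 : 0 ≤ K := by rw [hK]; positivity
  obtain ⟨α, hα⟩ : ∃ α, α = (1 + δ) * (Real.log t / (2 * Real.pi)) := ⟨_, rfl⟩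
  have hα0 : 0 < α := by rw [hα]; positivity
  have hDK0 : 0 ≤ D * K := by positivity
  have hDK : D * K ≤ δ * (Real.log t / (2 * Real.pi)) := by
    rw [hK]
    have h9 : 8 * Real.pi * D * S ≤ δ * ℓ := by
      have : 8 * Real.pi * D * S / δ ≤ ℓ := by linarith
      rw [div_le_iff₀ hδ0] at this
      linarith
    have e1 : D * (4 * S * (Real.log t / ℓ)) = (8 * Real.pi * D * S) * (Real.log t / (2 * Real.pi * ℓ)) := by
      field_simp; ring
    have e2 : δ * (Real.log t / (2 * Real.pi)) = (δ * ℓ) * (Real.log t / (2 * Real.pi * ℓ)) := by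
      field_simp
    rw [e1, e2]
    exact mul_le_mul_of_nonneg_right h9 (by positivity)
  obtain ⟨w, hw⟩ : ∃ w, w = Real.pi * (1 + δ) / ℓ := ⟨_, rfl⟩
  have hw0 : 0 < w := by rw [hw]; positivity
  obtain ⟨β, hβ⟩ : ∃ β, β = α + D * K := ⟨_, rfl⟩
  have hβ1 : Real.log t / (2 * Real.pi) ≤ β := by
    rw [hβ, hα]
    have : 0 ≤ Real.log t / (2 * Real.pi) := by positivity
    nlinarith
  have hβ2 : β ≤ (1 + 2 * δ) * (Real.log t / (2 * Real.pi)) := by
    rw [hβ, hα]; linarith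
  have hβ0 : 0 < β := by rw [hβ]; linarith
  -- the range condition
  have hrange : ∀ x ∈ Icc (-1 : ℝ) 1, |SA L (k + 1) a (t + x)| ≤ β * w ^ (k + 1 + 1) * (1 / (2 * Real.pi) ^ (k + 1 + 1)) := by
    intro x hx
    have hu : t + x ∈ Icc (t - 1) (t + 1) := ⟨by linarith [hx.1], by linarith [hx.2]⟩
    have h9 := (SA_le_norm (L := L) k a (t + x)).trans (h2 (t + x) hu a ha)
    have h10 := h4 (t + x) hu
    refine h9.trans ?_
    calc C * r ^ (k + 1) * (Real.log (t + x) / Real.log (Real.log (t + x)) ^ (k + 2))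
        ≤ C * r ^ (k + 1) * (4 * (Real.log t / ℓ ^ (k + 2))) := mul_le_mul_of_nonneg_left h10 (by positivity)
      _ = (4 * C * r ^ (k + 1)) * (Real.log t / ℓ ^ (k + 2)) := by ring
      _ ≤ (1 / (2 * Real.pi) * ((1 + δ) / 2) ^ (k + 1 + 1)) * (Real.log t / ℓ ^ (k + 2)) :=
          mul_le_mul_of_nonneg_right hmr (by positivity)
      _ = Real.log t / (2 * Real.pi) * w ^ (k + 1 + 1) * (1 / (2 * Real.pi) ^ (k + 1 + 1)) := by
          have e5 : w ^ (k + 1 + 1) * (1 / (2 * Real.pi) ^ (k + 1 + 1)) = ((1 + δ) / 2) ^ (k + 1 + 1) / ℓ ^ (k + 2) := by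
            have e6 : Real.pi * (1 + δ) / ℓ * (1 / (2 * Real.pi)) = ((1 + δ) / 2) / ℓ := by field_simp
            rw [hw, ← one_div_pow, ← mul_pow, e6, div_pow]
          rw [mul_assoc (Real.log t / (2 * Real.pi)), e5]
          ring
      _ ≤ _ := by
          refine mul_le_mul_of_nonneg_right ?_ (by positivity)
          exact mul_le_mul_of_nonneg_right hβ1 (by positivity)
  have hfin := hcomp (fun j x => SA L j a (t + x)) (fun x => (deriv L (a + ((t + x : ℝ) : ℂ) * I)).re / Real.pi) α K w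
    (fun j _ x hx => ?_) (fun x hx => ?_) (fun x hx => ?_) hα0 hK0 hw0 (fun x hx => ?_) (fun j hj x hx => ?_)
    (fun x hx => ?_) (fun x hx => ?_) n hmn
  · simp only [add_zero] at hfin
    rw [← hβ] at hfin
    have e3 : ∀ c : ℝ, β * w ^ (n + 1) * c = (β / (Real.log t / (2 * Real.pi))) * (1 + δ) ^ (n + 1) *
        (Real.pi ^ n / 2 * c) * (Real.log t / ℓ ^ (n + 1)) := by
      intro c
      rw [hw, div_pow, mul_pow, pow_succ Real.pi n]
      field_simp
    have hβ3 : β / (Real.log t / (2 * Real.pi)) ≤ 1 + 2 * δ := by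
      rw [div_le_iff₀ (by positivity)]; exact hβ2
    have hLm : 0 < Real.log t / ℓ ^ (n + 1) := by positivity
    rw [e3, e3] at hfin
    have hcU : 0 < cU n := by
      unfold cU; have := hi_pos n; positivity
    have hcL : cL n < 0 := by
      unfold cL; exact mul_neg_of_pos_of_neg (by positivity) (lo_neg n)
    constructor
    · refine le_trans ?_ hfin.1
      refine mul_le_mul_of_nonneg_right ?_ hLm.le
      refine hδL.trans ?_
      show (1 + 2 * δ) * (1 + δ) ^ (n + 1) * cL n ≤ _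
      have h9 : β / (Real.log t / (2 * Real.pi)) * (1 + δ) ^ (n + 1) ≤ (1 + 2 * δ) * (1 + δ) ^ (n + 1) :=
        mul_le_mul_of_nonneg_right hβ3 (by positivity)
      have e4 : β / (Real.log t / (2 * Real.pi)) * (1 + δ) ^ (n + 1) * (Real.pi ^ n / 2 * lo n) =
        β / (Real.log t / (2 * Real.pi)) * (1 + δ) ^ (n + 1) * cL n := rfl
      rw [e4]
      exact mul_le_mul_of_nonpos_right h9 hcL.le
    · refine hfin.2.trans ?_
      refine mul_le_mul_of_nonneg_right ?_ hLm.le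
      refine le_trans ?_ hδU
      have h9 : β / (Real.log t / (2 * Real.pi)) * (1 + δ) ^ (n + 1) ≤ (1 + 2 * δ) * (1 + δ) ^ (n + 1) :=
        mul_le_mul_of_nonneg_right hβ3 (by positivity)
      have e4 : β / (Real.log t / (2 * Real.pi)) * (1 + δ) ^ (n + 1) * (Real.pi ^ n / 2 * hi n) =
        β / (Real.log t / (2 * Real.pi)) * (1 + δ) ^ (n + 1) * cU n := rfl
      rw [e4]
      exact mul_le_mul_of_nonneg_right h9 hcU.le
  · have := h.toLH.SA_deriv j ha (t := t + x) (by linarith [hx.1])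
    exact this.comp_const_add t x
  · have := h.toLH.SA_deriv0 ha (t := t + x) (by linarith [hx.1])
    exact this.comp_const_add t x
  · have h9 := h.toLH.SA_smooth (k + 1) ha (t := t + x) (by linarith [hx.1])
    have h10 : ContDiffAt ℝ ∞ (fun x : ℝ => t + x) x := contDiffAt_const.add contDiffAt_id
    exact h9.comp x h10
  · rw [hα]
    exact h5 a ha ha1 (t + x) ⟨by linarith [hx.1], by linarith [hx.2]⟩
  · have hu : t + x ∈ Icc (t - 1) (t + 1) := ⟨by linarith [hx.1], by linarith [hx.2]⟩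
    have h9 := h1 (t + x) hu j hj a ha ha1
    have h10 := h3 (t + x) hu
    rw [pow_one, pow_one] at h10
    refine h9.trans ?_
    rw [hK]
    calc CC j * (Real.log (t + x) / Real.log (Real.log (t + x))) ≤ CC j * (4 * (Real.log t / ℓ)) :=
          mul_le_mul_of_nonneg_left h10 (hCC j).le
      _ ≤ S * (4 * (Real.log t / ℓ)) := mul_le_mul_of_nonneg_right (hCS j hj) (by positivity)
      _ = _ := by ring
  · rw [← hβ]
    have h9 := (abs_le.mp (hrange x hx)).1
    have h10 := lo_le (k + 1)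
    have h11 : 0 ≤ β * w ^ (k + 1 + 1) := by positivity
    calc β * w ^ (k + 1 + 1) * lo (k + 1) ≤ β * w ^ (k + 1 + 1) * -(1 / (2 * Real.pi) ^ (k + 1 + 1)) :=
          mul_le_mul_of_nonneg_left h10 h11
      _ = -(β * w ^ (k + 1 + 1) * (1 / (2 * Real.pi) ^ (k + 1 + 1))) := by ring
      _ ≤ _ := h9
  · rw [← hβ]
    have h9 := (abs_le.mp (hrange x hx)).2
    have h10 := hi_ge (k + 1)
    have h11 : 0 ≤ β * w ^ (k + 1 + 1) := by positivity
    exact h9.trans (mul_le_mul_of_nonneg_left h10 h11)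

end Q241.SN
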