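import Mathlib
import Pool.Agent.Q241.SN.Lim5
import Pool.Agent.Q241.SN.Gdef4
import Pool.Agent.Q241.SN.MainB

set_option autoImplicit false

/-! The limit to the critical line. -/

namespace Q241.SN

open Set Filter Topology Complex MeasureTheory
open scoped Nat

variable {g : ℂ → ℂ}

/-- almost every height is not the ordinate of a zero on the line -/
lemma ae_line : ∀ᵐ t : ℝ, 0 < t → riemannZeta (1 / 2 + t * I) ≠ 0 := by
  have h1 : {s : ℂ | riemannZeta s = 0 ∧ s ≠ 1}.Countable := by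
    have han : AnalyticOnNhd ℂ riemannZeta ({1}ᶜ : Set ℂ) := by
      refine DifferentiableOn.analyticOnNhd (fun z hz => ?_) isOpen_compl_singleton
      exact (differentiableAt_riemannZeta hz).differentiableWithinAt
    refine (HereditarilyLindelofSpace.isLindelof _).countable_of_isDiscrete ?_
    rw [isDiscrete_iff_nhdsNE]
    intro z hz
    obtain ⟨hz0, hzne⟩ := hz
    rw [← disjoint_iff, Filter.disjoint_principal_right]
    rcases (han z hzne).eventually_eq_zero_or_eventually_ne_zero with h | h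
    · exfalso
      have hc : IsPreconnected ({1}ᶜ : Set ℂ) := by
        refine (isConnected_compl_singleton_of_one_lt_rank ?_ 1).isPreconnected
        rw [Complex.rank_real_complex]
        norm_num
      have h2 : riemannZeta 2 = 0 := han.eqOn_zero_of_preconnected_of_eventuallyEq_zero hc hzne h
        (show (2:ℂ) ∈ ({1}ᶜ : Set ℂ) by simp)
      exact riemannZeta_ne_zero_of_one_lt_re (by norm_num) h2
    · filter_upwards [h] with w hw hw2
      exact hw hw2.1
  have h2 : (Complex.im '' {s : ℂ | riemannZeta s = 0 ∧ s ≠ 1}).Countable := h1.image _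
  have h3 := h2.ae_notMem (volume : Measure ℝ)
  filter_upwards [h3] with t ht h0 hz
  refine ht ⟨1 / 2 + t * I, ⟨hz, ?_⟩, ?_⟩
  · intro h4
    have := congrArg Complex.im h4
    simp at this
    linarith
  · simp

lemma SA_zero_tendsto (hRH : RiemannHypothesis) (h : GG g) (k : ℕ) {a : ℝ} (ha : 0 < a) :
    Tendsto (SA (LL g) (k + 1) a) (𝓝[>] 0) (𝓝 ((I ^ (k + 1) * MM (LL g) k a).im / Real.pi)) := by
  have h1 := ((MM_tendsto hRH h ha k).2).const_mul (I ^ (k + 1))
  exact ((Complex.continuous_im.tendsto _).comp h1).div_const _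

lemma SA_rel (hRH : RiemannHypothesis) (h : GG g) (k : ℕ) {a t M : ℝ} (ha : 0 < a) (ht : 0 < t)
    (hM : ∀ u : ℝ, 0 < u → u ≤ t → |SA (LL g) k a u| ≤ M) :
    SA (LL g) (k + 1) a t = (∫ u in (0:ℝ)..t, SA (LL g) k a u) + (I ^ (k + 1) * MM (LL g) k a).im / Real.pi := by
  have hLH := h.toLH hRH
  have h1 := intervalIntegral.integral_eq_sub_of_hasDerivAt_of_tendsto (a := 0) (b := t) ht
    (f := SA (LL g) (k + 1) a) (f' := SA (LL g) k a) (fun x hx => hLH.SA_deriv k ha hx.1) ?_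
    (SA_zero_tendsto hRH h k ha) ((hLH.SA_deriv k ha ht).continuousAt.tendsto.mono_left nhdsWithin_le_nhds)
  · rw [h1]; ring
  · rw [intervalIntegrable_iff_integrableOn_Ioc_of_le ht.le]
    refine Integrable.mono' (g := fun _ => M) (by simp) ?_ ?_
    · refine ContinuousOn.aestronglyMeasurable ?_ measurableSet_Ioc
      intro x hx
      exact (hLH.SA_smooth k ha hx.1).continuousAt.continuousWithinAt
    · refine (ae_restrict_iff' measurableSet_Ioc).mpr (Eventually.of_forall fun x hx => ?_)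
      exact hM x hx.1 hx.2

/-- uniform local bounds -/
lemma SA_unif (hRH : RiemannHypothesis) (h : GG g) (k : ℕ) {T : ℝ} (hT : 1 ≤ T) :
    ∃ M : ℝ, 0 ≤ M ∧ ∀ᶠ a : ℝ in 𝓝[>] 0, ∀ t : ℝ, 0 < t → t ≤ T → |SA (LL g) k a t| ≤ M := by
  induction k with
  | zero =>
    obtain ⟨M, hM, hb⟩ := SA0_unif hRH h hT
    refine ⟨M, hM, ?_⟩
    have h3 : ∀ᶠ a : ℝ in 𝓝[>] 0, a ≤ 1 / 4 := by
      have : ∀ᶠ a : ℝ in 𝓝 0, a ≤ 1 / 4 := (gt_mem_nhds (show (0:ℝ) < 1 / 4 by norm_num)).mono fun x hx => le_of_lt hx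
      exact nhdsWithin_le_nhds this
    filter_upwards [self_mem_nhdsWithin, h3] with a ha ha1 t ht htT
    exact hb a t ha ha1 ht htT
  | succ k ih =>
    obtain ⟨M, hM, hb⟩ := ih
    refine ⟨M * T + (|dl (k + 1)| + 1), by positivity, ?_⟩
    have h4 : ∀ᶠ a : ℝ in 𝓝[>] 0, |(I ^ (k + 1) * MM (LL g) k a).im / Real.pi| < |dl (k + 1)| + 1 :=
      ((D_tendsto hRH h k).abs).eventually_lt_const (by linarith)
    filter_upwards [self_mem_nhdsWithin, hb, h4] with a ha ha1 ha2 t ht htT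
    have ha' : 0 < a := ha
    rw [SA_rel hRH h k (M := M) ha' ht (fun u hu hut => ha1 u hu (hut.trans htT))]
    have h5 : |∫ u in (0:ℝ)..t, SA (LL g) k a u| ≤ M * T := by
      have h6 := intervalIntegral.norm_integral_le_of_norm_le_const (a := 0) (b := t) (C := M)
        (f := SA (LL g) k a) (fun x hx => by
          rw [uIoc_of_le ht.le] at hx
          exact ha1 x hx.1 (hx.2.trans htT))
      rw [sub_zero, abs_of_pos ht, Real.norm_eq_abs] at h6
      exact h6.trans (mul_le_mul_of_nonneg_left htT hM)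
    refine (abs_add_le _ _).trans ?_
    linarith

/-- a chain of antiderivatives of the argument -/
structure Chn (S : ℕ → ℝ → ℝ) : Prop where
  zero : ∀ t : ℝ, 0 < t → riemannZeta (1 / 2 + t * I) ≠ 0 → S 0 t = ar t / Real.pi
  succ : ∀ (n : ℕ) (t : ℝ), 0 < t → S (n + 1) t = (∫ u in (0:ℝ)..t, S n u) + dl (n + 1)

lemma Chn.lim_step (hRH : RiemannHypothesis) (h : GG g) {S : ℕ → ℝ → ℝ} (hS : Chn S) (n : ℕ)
    (hn : ∀ᵐ t : ℝ, 0 < t → Tendsto (fun a : ℝ => SA (LL g) n a t) (𝓝[>] 0) (𝓝 (S n t))) {t : ℝ} (ht : 0 < t) :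
    Tendsto (fun a : ℝ => SA (LL g) (n + 1) a t) (𝓝[>] 0) (𝓝 (S (n + 1) t)) := by
  have hLH := h.toLH hRH
  obtain ⟨M, hM, hb⟩ := SA_unif hRH h n (T := t + 1) (by linarith)
  have h1 : Tendsto (fun a : ℝ => ∫ u in (0:ℝ)..t, SA (LL g) n a u) (𝓝[>] 0) (𝓝 (∫ u in (0:ℝ)..t, S n u)) := by
    refine intervalIntegral.tendsto_integral_filter_of_dominated_convergence (fun _ => M) ?_ ?_ (by simp) ?_
    · filter_upwards [self_mem_nhdsWithin] with a ha
      rw [uIoc_of_le ht.le]
      refine ContinuousOn.aestronglyMeasurable ?_ measurableSet_Ioc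
      intro x hx
      exact (hLH.SA_smooth n ha hx.1).continuousAt.continuousWithinAt
    · filter_upwards [hb] with a ha
      refine Eventually.of_forall fun x hx => ?_
      rw [uIoc_of_le ht.le] at hx
      exact ha x hx.1 (by linarith [hx.2])
    · filter_upwards [hn] with x hx hx2
      rw [uIoc_of_le ht.le] at hx2
      exact hx hx2.1
  have h2 := h1.add (D_tendsto hRH h n)
  rw [← hS.succ n t ht] at h2
  refine h2.congr' ?_
  filter_upwards [self_mem_nhdsWithin, hb] with a ha ha1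
  exact (SA_rel hRH h n (M := M) ha ht (fun u hu hut => ha1 u hu (by linarith))).symm

lemma Chn.lim (hRH : RiemannHypothesis) (h : GG g) {S : ℕ → ℝ → ℝ} (hS : Chn S) (n : ℕ) :
    ∀ᵐ t : ℝ, 0 < t → Tendsto (fun a : ℝ => SA (LL g) n a t) (𝓝[>] 0) (𝓝 (S n t)) := by
  induction n with
  | zero =>
    filter_upwards [ae_line] with t ht h0
    rw [hS.zero t h0 (ht h0)]
    exact SA0_tendsto hRH h h0 (ht h0)
  | succ n ih =>
    exact Eventually.of_forall fun t ht => hS.lim_step hRH h n ih ht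

/-- the main theorem for chains -/
theorem Chn.main (hRH : RiemannHypothesis) {S : ℕ → ℝ → ℝ} (hS : Chn S) (n : ℕ) (hn : 1 ≤ n) {ε : ℝ} (hε : 0 < ε) :
    ∀ᶠ t : ℝ in atTop, (cL n - ε) * (Real.log t / Real.log (Real.log t) ^ (n + 1)) ≤ S n t ∧
      S n t ≤ (cU n + ε) * (Real.log t / Real.log (Real.log t) ^ (n + 1)) := by
  obtain ⟨g, h⟩ := exists_GG hRH
  obtain ⟨C1, hK⟩ := h.toLK hRH
  obtain ⟨m, rfl⟩ : ∃ m, n = m + 1 := ⟨n - 1, by omega⟩
  filter_upwards [hK.main (m + 1) hε, eventually_gt_atTop 0] with t ht ht0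
  have h1 := hS.lim_step hRH h m (hS.lim hRH h m) ht0
  have h3 : ∀ᶠ a : ℝ in 𝓝[>] 0, a ≤ 1 := by
    have : ∀ᶠ a : ℝ in 𝓝 0, a ≤ 1 := (gt_mem_nhds (show (0:ℝ) < 1 by norm_num)).mono fun x hx => le_of_lt hx
    exact nhdsWithin_le_nhds this
  constructor
  · refine ge_of_tendsto h1 ?_
    filter_upwards [self_mem_nhdsWithin, h3] with a ha ha1
    exact (ht a ha ha1).1
  · refine le_of_tendsto h1 ?_
    filter_upwards [self_mem_nhdsWithin, h3] with a ha ha1
    exact (ht a ha ha1).2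

end Q241.SN
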